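import Pool.Agent.Zir.Types

/-! # Lattice embeddings for the types A, D, E -/

namespace Pool.Agent.Zir

set_option linter.unusedSimpArgs false
set_option linter.unusedVariables false
set_option linter.unusedSectionVars false

noncomputable section

/-- The `k`-th coordinate (zero if `k ≥ n`). -/
def extL (n k : ℕ) : V (Fin n) →ₗ[ℤ] ℤ :=
  if h : k < n then Finsupp.lapply ⟨k, h⟩ else 0

lemma extL_e (n k : ℕ) (i : Fin n) : extL n k (e i) = if (i : ℕ) = k then 1 else 0 := by
  unfold extL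
  split_ifs with h1 h2 h2
  · simp [e, Finsupp.single_apply, Fin.ext_iff, h2]
  · simp [e, Finsupp.single_apply, Fin.ext_iff, h2]
  · have := i.2; omega
  · rfl

lemma extL_apply {n k : ℕ} (h : k < n) (v : V (Fin n)) : extL n k v = v ⟨k, h⟩ := by
  unfold extL
  rw [dif_pos h]
  rfl

lemma sum_delta {m p q p' q' : ℕ} (s s' : ℤ) (hp : p < m) (hq : q < m) :
    ∑ k : Fin m, ((if (k : ℕ) = p then 1 else 0) + s * (if (k : ℕ) = q then 1 else 0)) *
      ((if (k : ℕ) = p' then 1 else 0) + s' * (if (k : ℕ) = q' then 1 else 0)) =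
    (if p = p' then 1 else 0) + s' * (if p = q' then 1 else 0) +
      s * (if q = p' then 1 else 0) + s * s' * (if q = q' then 1 else 0) := by
  have h1 : ∀ (f : ℕ → ℤ) (r : ℕ), r < m →
      ∑ k : Fin m, (if (k : ℕ) = r then 1 else 0) * f k = f r := by
    intro f r hr
    rw [Finset.sum_eq_single (⟨r, hr⟩ : Fin m)]
    · simp
    · intro b _ hb
      have : (b : ℕ) ≠ r := fun h => hb (Fin.ext h)
      simp [this]
    · intro h; exact absurd (Finset.mem_univ _) h
  have h2 := h1 (fun k => ((if k = p' then 1 else 0) + s' * (if k = q' then 1 else 0))) p hp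
  have h3 := h1 (fun k => ((if k = p' then 1 else 0) + s' * (if k = q' then 1 else 0))) q hq
  simp only [add_mul, Finset.sum_add_distrib, mul_assoc, ← Finset.mul_sum] at h2 h3 ⊢
  rw [h2, h3]
  ring

/-- type A -/
def embA (n : ℕ) : Emb (CoxeterMatrix.A n) (Fin (n + 1)) 1 where
  x := LinearMap.pi fun k => extL n k - (if (k : ℕ) = 0 then 0 else extL n (k - 1))
  gram i j := by
    have h : ∀ (i : Fin n) (k : Fin (n + 1)),
        (LinearMap.pi fun k : Fin (n + 1) => extL n k - (if (k : ℕ) = 0 then 0 else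
          extL n (k - 1))) (e i) k =
        (if (k : ℕ) = (i : ℕ) then 1 else 0) + (-1) * (if (k : ℕ) = (i : ℕ) + 1 then 1 else 0) := by
      intro i k
      rw [LinearMap.pi_apply, LinearMap.sub_apply, extL_e]
      by_cases hk : (k : ℕ) = 0
      · rw [if_pos hk, LinearMap.zero_apply]
        split_ifs <;> omega
      · rw [if_neg hk, extL_e]
        split_ifs <;> omega
    simp only [h]
    rw [sum_delta (-1) (-1) (by omega) (by omega)]
    simp only [cart, CoxeterMatrix.A, Matrix.of_apply, Fin.ext_iff]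
    split_ifs <;> omega
  inj v hv := by
    have h : ∀ k : ℕ, k < n + 1 → extL n k v =
        (if k = 0 then (0 : V (Fin n) →ₗ[ℤ] ℤ) else extL n (k - 1)) v := by
      intro k hk
      have h1 := congrFun hv ⟨k, hk⟩
      rw [LinearMap.pi_apply, LinearMap.sub_apply] at h1
      exact sub_eq_zero.mp h1
    have h2 : ∀ k : ℕ, k < n + 1 → extL n k v = 0 := by
      intro k
      induction k with
      | zero => intro hk; rw [h 0 hk, if_pos rfl]; rfl
      | succ k ih => intro hk; rw [h (k + 1) hk, if_neg (by omega)]; exact ih (by omega)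
    refine Finsupp.ext fun i => ?_
    have h3 := h2 i (by omega)
    rw [extL_apply i.2] at h3
    exact h3

set_option maxHeartbeats 4000000 in
/-- type D -/
def embD (n : ℕ) (hn : 4 ≤ n) : Emb (typeD n) (Fin n) 1 where
  x := LinearMap.pi fun k => (if (k : ℕ) + 1 < n then extL n k else 0) -
    (if (k : ℕ) = 0 then 0 else extL n (k - 1)) +
    (if (k : ℕ) + 2 = n ∨ (k : ℕ) + 1 = n then extL n (n - 1) else 0)
  gram i j := by
    have h : ∀ (i k : Fin n),
        (LinearMap.pi fun k : Fin n => (if (k : ℕ) + 1 < n then extL n k else 0) -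
          (if (k : ℕ) = 0 then 0 else extL n (k - 1)) +
          (if (k : ℕ) + 2 = n ∨ (k : ℕ) + 1 = n then extL n (n - 1) else 0)) (e i) k =
        (if (k : ℕ) = (if (i : ℕ) + 1 = n then n - 2 else (i : ℕ)) then 1 else 0) +
          (if (i : ℕ) + 1 = n then 1 else -1) *
          (if (k : ℕ) = (if (i : ℕ) + 1 = n then n - 1 else (i : ℕ) + 1) then 1 else 0) := by
      intro i k
      have hi := i.2
      have hk := k.2
      rw [LinearMap.pi_apply, LinearMap.add_apply, LinearMap.sub_apply]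
      have e1 : (if (k : ℕ) + 1 < n then extL n k else 0) (e i) =
          if (k : ℕ) + 1 < n ∧ (i : ℕ) = k then 1 else 0 := by
        by_cases h1 : (k : ℕ) + 1 < n
        · rw [if_pos h1, extL_e]; simp [h1]
        · rw [if_neg h1]; simp [h1]
      have e2 : (if (k : ℕ) = 0 then (0 : V (Fin n) →ₗ[ℤ] ℤ) else extL n (k - 1)) (e i) =
          if (k : ℕ) = (i : ℕ) + 1 then 1 else 0 := by
        by_cases h1 : (k : ℕ) = 0
        · rw [if_pos h1, if_neg (by omega)]; rfl
        · rw [if_neg h1, extL_e]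
          split_ifs <;> omega
      have e3 : (if (k : ℕ) + 2 = n ∨ (k : ℕ) + 1 = n then extL n (n - 1) else 0) (e i) =
          if ((k : ℕ) + 2 = n ∨ (k : ℕ) + 1 = n) ∧ (i : ℕ) = n - 1 then 1 else 0 := by
        by_cases h1 : (k : ℕ) + 2 = n ∨ (k : ℕ) + 1 = n
        · rw [if_pos h1, extL_e]; simp [h1]
        · rw [if_neg h1]; simp [h1]
      rw [e1, e2, e3]
      by_cases h1 : (i : ℕ) + 1 = n
      · simp only [if_pos h1]
        split_ifs <;> omega
      · simp only [if_neg h1]
        split_ifs <;> omega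
    simp only [h]
    have hi := i.2
    have hj := j.2
    rw [sum_delta _ _ (by split_ifs <;> omega) (by split_ifs <;> omega)]
    simp only [cart, typeD, Matrix.of_apply, Fin.ext_iff]
    by_cases h1 : (i : ℕ) + 1 = n <;> by_cases h2 : (j : ℕ) + 1 = n
    · simp only [if_pos h1, if_pos h2]
      split_ifs <;> omega
    · simp only [if_pos h1, if_neg h2]
      split_ifs <;> omega
    · simp only [if_neg h1, if_pos h2]
      split_ifs <;> omega
    · simp only [if_neg h1, if_neg h2]
      split_ifs <;> omega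
  inj v hv := by
    have h : ∀ k : ℕ, k < n → (if k + 1 < n then extL n k else 0) v -
        (if k = 0 then (0 : V (Fin n) →ₗ[ℤ] ℤ) else extL n (k - 1)) v +
        (if k + 2 = n ∨ k + 1 = n then extL n (n - 1) else 0) v = 0 := by
      intro k hk
      have h1 := congrFun hv ⟨k, hk⟩
      rw [LinearMap.pi_apply, LinearMap.add_apply, LinearMap.sub_apply] at h1
      exact h1
    have h2 : ∀ k : ℕ, k + 2 < n → extL n k v = 0 := by
      intro k
      induction k with
      | zero =>
        intro hk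
        have h3 := h 0 (by omega)
        rw [if_pos (by omega), if_pos rfl, if_neg (by omega)] at h3
        simpa using h3
      | succ k ih =>
        intro hk
        have h3 := h (k + 1) (by omega)
        rw [if_pos (by omega), if_neg (by omega), if_neg (by omega), Nat.add_sub_cancel,
          ih (by omega)] at h3
        simpa using h3
    have h3 := h (n - 2) (by omega)
    rw [if_pos (by omega), if_neg (by omega), if_pos (by omega), h2 (n - 2 - 1) (by omega)] at h3
    have h4 := h (n - 1) (by omega)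
    rw [if_neg (by omega), if_neg (by omega), if_pos (by omega),
      show n - 1 - 1 = n - 2 by omega, LinearMap.zero_apply] at h4
    refine Finsupp.ext fun i => ?_
    have hi := i.2
    have h5 : v i = extL n i v := by rw [extL_apply hi]
    rw [h5, Finsupp.zero_apply]
    rcases lt_trichotomy ((i : ℕ) + 2) n with h6 | h6 | h6
    · exact h2 i h6
    · rw [show (i : ℕ) = n - 2 by omega]; omega
    · rw [show (i : ℕ) = n - 1 by omega]; omega

/-- twice the simple roots of `E₈` in the standard coordinates -/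
def rowsE : Fin 8 → Fin 8 → ℤ :=
  ![![1, -1, -1, -1, -1, -1, -1, 1],
    ![2, 2, 0, 0, 0, 0, 0, 0],
    ![-2, 2, 0, 0, 0, 0, 0, 0],
    ![0, -2, 2, 0, 0, 0, 0, 0],
    ![0, 0, -2, 2, 0, 0, 0, 0],
    ![0, 0, 0, -2, 2, 0, 0, 0],
    ![0, 0, 0, 0, -2, 2, 0, 0],
    ![0, 0, 0, 0, 0, -2, 2, 0]]

lemma lin_e {m : ℕ} (r : Fin m → Fin 8 → ℤ) (i : Fin m) :
    Finsupp.linearCombination ℤ r (e i) = r i := by
  simp [e]

lemma lin_apply {m : ℕ} (r : Fin m → Fin 8 → ℤ) (v : V (Fin m)) (k : Fin 8) :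
    Finsupp.linearCombination ℤ r v k = ∑ i, v i * r i k := by
  rw [Finsupp.linearCombination_apply, Finsupp.sum_fintype _ _ (by simp)]
  simp [Finset.sum_apply]

lemma lin_inj {m : ℕ} (r : Fin m → Fin 8 → ℤ) (l : Fin 8 → Fin m → ℤ)
    (h : ∀ i j : Fin m, ∑ k, r i k * l k j = if i = j then 4 else 0) (v : V (Fin m))
    (hv : Finsupp.linearCombination ℤ r v = 0) : v = 0 := by
  refine Finsupp.ext fun j => ?_
  have h1 : ∑ k, (Finsupp.linearCombination ℤ r v k) * l k j = 0 := by
    rw [hv]; simp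
  simp only [lin_apply, Finset.sum_mul, mul_assoc] at h1
  rw [Finset.sum_comm] at h1
  simp only [← Finset.mul_sum, h, mul_ite, mul_zero, Finset.sum_ite_eq', Finset.mem_univ,
    if_true] at h1
  rw [Finsupp.zero_apply]
  omega

/-- twice the fundamental weights of `E₈` -/
def colsE : Fin 8 → Fin 8 → ℤ :=
  ![![0, 1, -1, 0, 0, 0, 0, 0],
    ![0, 1, 1, 0, 0, 0, 0, 0],
    ![0, 1, 1, 2, 0, 0, 0, 0],
    ![0, 1, 1, 2, 2, 0, 0, 0],
    ![0, 1, 1, 2, 2, 2, 0, 0],
    ![0, 1, 1, 2, 2, 2, 2, 0],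
    ![0, 1, 1, 2, 2, 2, 2, 2],
    ![4, 5, 7, 10, 8, 6, 4, 2]]

lemma inv8 : ∀ i j : Fin 8, ∑ k, rowsE i k * colsE k j = if i = j then 4 else 0 := by
  decide +kernel

/-- type E₈ -/
def embE8 : Emb CoxeterMatrix.E₈ (Fin 8) 4 where
  x := Finsupp.linearCombination ℤ rowsE
  gram i j := by
    simp only [lin_e]
    revert i j
    decide +kernel
  inj v hv := lin_inj _ colsE inv8 v hv

/-- type E₇ -/
def embE7 : Emb CoxeterMatrix.E₇ (Fin 8) 4 where
  x := Finsupp.linearCombination ℤ (fun i : Fin 7 => rowsE (Fin.castLE (by norm_num) i))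
  gram i j := by
    simp only [lin_e]
    revert i j
    decide +kernel
  inj v hv := by
    refine lin_inj _ (fun k j => colsE k (Fin.castLE (by norm_num) j)) ?_ v hv
    intro i j
    rw [inv8]
    simp

/-- type E₆ -/
def embE6 : Emb CoxeterMatrix.E₆ (Fin 8) 4 where
  x := Finsupp.linearCombination ℤ (fun i : Fin 6 => rowsE (Fin.castLE (by norm_num) i))
  gram i j := by
    simp only [lin_e]
    revert i j
    decide +kernel
  inj v hv := by
    refine lin_inj _ (fun k j => colsE k (Fin.castLE (by norm_num) j)) ?_ v hv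
    intro i j
    rw [inv8]
    simp

lemma A_sl (n : ℕ) (i j : Fin n) : CoxeterMatrix.A n i j = 1 ∨ CoxeterMatrix.A n i j = 2 ∨
    CoxeterMatrix.A n i j = 3 := by
  show (CoxeterMatrix.A n).M i j = 1 ∨ (CoxeterMatrix.A n).M i j = 2 ∨
    (CoxeterMatrix.A n).M i j = 3
  simp only [CoxeterMatrix.A, Matrix.of_apply]
  split_ifs <;> simp

lemma D_sl (n : ℕ) (i j : Fin n) : typeD n i j = 1 ∨ typeD n i j = 2 ∨
    typeD n i j = 3 := by
  show (typeD n).M i j = 1 ∨ (typeD n).M i j = 2 ∨ (typeD n).M i j = 3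
  simp only [typeD, Matrix.of_apply]
  split_ifs <;> simp

lemma E6_sl (i j : Fin 6) : CoxeterMatrix.E₆ i j = 1 ∨ CoxeterMatrix.E₆ i j = 2 ∨
    CoxeterMatrix.E₆ i j = 3 := by
  revert i j; decide +kernel

lemma E7_sl (i j : Fin 7) : CoxeterMatrix.E₇ i j = 1 ∨ CoxeterMatrix.E₇ i j = 2 ∨
    CoxeterMatrix.E₇ i j = 3 := by
  revert i j; decide +kernel

lemma E8_sl (i j : Fin 8) : CoxeterMatrix.E₈ i j = 1 ∨ CoxeterMatrix.E₈ i j = 2 ∨
    CoxeterMatrix.E₈ i j = 3 := by
  revert i j; decide +kernel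

lemma IsTypeADE.sl {B : Type*} {M : CoxeterMatrix B} (h : IsTypeADE M) : SL M := by
  constructor
  rcases h with ⟨n, _, σ, rfl⟩ | ⟨n, _, σ, rfl⟩ | ⟨σ, rfl⟩ | ⟨σ, rfl⟩ | ⟨σ, rfl⟩
  · exact fun i j => A_sl n (σ.symm i) (σ.symm j)
  · exact fun i j => D_sl n (σ.symm i) (σ.symm j)
  · exact fun i j => E6_sl (σ.symm i) (σ.symm j)
  · exact fun i j => E7_sl (σ.symm i) (σ.symm j)
  · exact fun i j => E8_sl (σ.symm i) (σ.symm j)

lemma IsTypeADE.finite {B : Type*} {M : CoxeterMatrix B} (h : IsTypeADE M) : Finite B := by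
  rcases h with ⟨n, _, σ, _⟩ | ⟨n, _, σ, _⟩ | ⟨σ, _⟩ | ⟨σ, _⟩ | ⟨σ, _⟩ <;> exact Finite.of_equiv _ σ

lemma IsTypeADE.rb {B W : Type*} [Group W] {M : CoxeterMatrix B} [SL M] (h : IsTypeADE M)
    (cs : CoxeterSystem M W) : RB cs := by
  rcases h with ⟨n, _, σ, h⟩ | ⟨n, hn, σ, h⟩ | ⟨σ, h⟩ | ⟨σ, h⟩ | ⟨σ, h⟩
  · subst h; exact ((embA n).reindex σ).rb (by norm_num) cs
  · subst h; exact ((embD n hn).reindex σ).rb (by norm_num) cs
  · subst h; exact (embE6.reindex σ).rb (by norm_num) cs
  · subst h; exact (embE7.reindex σ).rb (by norm_num) cs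
  · subst h; exact (embE8.reindex σ).rb (by norm_num) cs

end

end Pool.Agent.Zir
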