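import Mathlib

/-! # The Coxeter types A, D, E -/

namespace Pool.Agent.Zir

/-- The Coxeter matrix of type `D_n` (meaningful for `n ≥ 4`): the nodes `0, 1, ..., n-2` form a
path and the node `n-1` is joined to the node `n-3`. -/
def typeD (n : ℕ) : CoxeterMatrix (Fin n) where
  M := Matrix.of fun i j : Fin n =>
    if i = j then 1
    else if ((i : ℕ) + 1 = j ∧ (j : ℕ) + 1 < n) ∨ ((j : ℕ) + 1 = i ∧ (i : ℕ) + 1 < n) ∨
      ((i : ℕ) + 2 = j ∧ (j : ℕ) + 1 = n) ∨ ((j : ℕ) + 2 = i ∧ (i : ℕ) + 1 = n) then 3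
    else 2
  isSymm := by
    unfold Matrix.IsSymm
    ext i j
    simp only [Matrix.transpose_apply, Matrix.of_apply]
    by_cases h : i = j
    · simp [h]
    · rw [if_neg h, if_neg (Ne.symm h)]
      congr 1
      apply propext
      tauto
  diagonal := by simp
  off_diagonal := by
    intro i j h
    simp only [Matrix.of_apply, if_neg h]
    split_ifs <;> omega

/-- Type A, D or E (up to relabelling of the simple reflections): `A_n` with `n ≥ 1`, `D_n` with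
`n ≥ 4`, `E_6`, `E_7` or `E_8`. -/
def IsTypeADE {B : Type*} (M : CoxeterMatrix B) : Prop :=
  (∃ (n : ℕ) (_ : 1 ≤ n) (σ : Fin n ≃ B), M = (CoxeterMatrix.A n).reindex σ) ∨
  (∃ (n : ℕ) (_ : 4 ≤ n) (σ : Fin n ≃ B), M = (typeD n).reindex σ) ∨
  (∃ σ : Fin 6 ≃ B, M = CoxeterMatrix.E₆.reindex σ) ∨
  (∃ σ : Fin 7 ≃ B, M = CoxeterMatrix.E₇.reindex σ) ∨
  (∃ σ : Fin 8 ≃ B, M = CoxeterMatrix.E₈.reindex σ)

end Pool.Agent.Zir
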