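import Pool.Agent.Zir.Root

/-! # Bruhat order of a simply laced Coxeter system: lifting, chains, thinness -/

namespace Pool.Agent.Zir

set_option linter.unusedSimpArgs false
set_option linter.unusedVariables false
set_option linter.unusedSectionVars false

noncomputable section

variable {B W : Type*} [Group W] {M : CoxeterMatrix B} [SL M] {cs : CoxeterSystem M W}

lemma step_iff {x z : W} : Step cs x z ↔ ∃ v, PR cs v ∧ z = rf cs v * x ∧
    PR cs (rho cs x⁻¹ v) := by
  constructor
  · rintro ⟨t, ht, rfl, hl⟩
    obtain ⟨v, hv, rfl⟩ := exists_pr_of_reflection ht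
    exact ⟨v, hv, rfl, (length_lt_iff hv x).mp hl⟩
  · rintro ⟨v, hv, rfl, h⟩
    exact ⟨_, rf_isReflection hv.1, rfl, (length_lt_iff hv x).mpr h⟩

lemma rf_step {v : V B} (hv : PR cs v) {x : W} (h : cs.length x < cs.length (rf cs v * x)) :
    Step cs x (rf cs v * x) := ⟨_, rf_isReflection hv.1, rfl, h⟩

lemma Step.simple (i : B) {x z : W} (h : Step cs x z) :
    z = cs.simple i * x ∨ Step cs (cs.simple i * x) (cs.simple i * z) := by
  obtain ⟨v, hv, rfl, hp⟩ := step_iff.mp h
  by_cases hi : v = e i
  · left
    rw [hi, rf_e]
  · right
    rw [step_iff]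
    refine ⟨rho cs (cs.simple i) v, pr_simple hv hi, ?_, ?_⟩
    · rw [rf_conj hv.1]
      group
    · rw [mul_inv_rev, rho_mul, rho_inv_rho]
      exact hp

lemma Ble.simple (i : B) {x z : W} (h : Ble cs x z) :
    Ble cs (cs.simple i * x) z ∨ Ble cs (cs.simple i * x) (cs.simple i * z) := by
  induction h using Relation.ReflTransGen.head_induction_on with
  | refl => exact Or.inr (Ble.refl cs _)
  | head h1 h2 ih =>
    rename_i x y
    rcases h1.simple i with h3 | h3
    · left
      rw [← h3]
      exact h2
    · rcases ih with ih | ih
      · exact Or.inl (h3.ble.trans ih)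
      · exact Or.inr (h3.ble.trans ih)

lemma Ble.simple' (i : B) {x z : W} (h : Ble cs x z) :
    Ble cs x (cs.simple i * z) ∨ Ble cs (cs.simple i * x) (cs.simple i * z) := by
  induction h with
  | refl => exact Or.inr (Ble.refl cs _)
  | tail h1 h2 ih =>
    rename_i y z
    rcases h2.simple i with h3 | h3
    · left
      rw [h3, cs.simple_mul_simple_cancel_left]
      exact h1
    · rcases ih with ih | ih
      · exact Or.inl (ih.trans h3.ble)
      · exact Or.inr (ih.trans h3.ble)

lemma simple_step {i : B} {x : W} (h : cs.length x < cs.length (cs.simple i * x)) :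
    Step cs x (cs.simple i * x) := ⟨_, cs.isReflection_simple i, rfl, h⟩

lemma simple_step' {i : B} {x : W} (h : cs.length (cs.simple i * x) < cs.length x) :
    Step cs (cs.simple i * x) x :=
  ⟨_, cs.isReflection_simple i, by rw [cs.simple_mul_simple_cancel_left], h⟩

lemma Ble.lift_le {i : B} {x z : W} (h : Ble cs x z)
    (hz : cs.length (cs.simple i * z) < cs.length z) : Ble cs (cs.simple i * x) z := by
  rcases h.simple i with h1 | h1
  · exact h1
  · exact h1.trans (simple_step' hz).ble

lemma Ble.lift_up {i : B} {x z : W} (h : Ble cs x z)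
    (hz : cs.length z < cs.length (cs.simple i * z)) :
    Ble cs (cs.simple i * x) (cs.simple i * z) := by
  rcases h.simple i with h1 | h1
  · exact h1.trans (simple_step hz).ble
  · exact h1

lemma Ble.lift_dn {i : B} {x z : W} (h : Ble cs x z)
    (hx : cs.length x < cs.length (cs.simple i * x)) : Ble cs x (cs.simple i * z) := by
  rcases h.simple' i with h1 | h1
  · exact h1
  · exact (simple_step hx).ble.trans h1

lemma Ble.lift_dd {i : B} {x z : W} (h : Ble cs x z)
    (hx : cs.length (cs.simple i * x) < cs.length x) :
    Ble cs (cs.simple i * x) (cs.simple i * z) := by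
  rcases h.simple' i with h1 | h1
  · exact (simple_step' hx).ble.trans h1
  · exact h1

lemma Cov.step {x z : W} (h : Cov cs x z) : Step cs x z := by
  obtain ⟨h1, h2⟩ := h
  rcases Relation.ReflTransGen.cases_head h1 with h3 | ⟨y, h3, h4⟩
  · subst h3; omega
  · have h5 : Ble cs y z := h4
    have h6 := h3.length_lt
    have h7 : y = z := h5.eq_of_length_le (by omega)
    rw [← h7]
    exact h3

lemma Cov.le {x z : W} (h : Cov cs x z) : Ble cs x z := h.1

lemma Cov.ne {x z : W} (h : Cov cs x z) : x ≠ z := by
  rintro rfl
  have := h.2
  omega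

lemma Step.cov {x z : W} (h : Step cs x z) (hl : cs.length z = cs.length x + 1) : Cov cs x z :=
  ⟨h.ble, hl⟩

lemma simple_ne {i : B} {x : W} : cs.simple i * x ≠ x := by
  intro h
  exact cs.length_simple_mul_ne x i (by rw [h])

lemma one_of_ble_one {x : W} (h : Ble cs x 1) : x = 1 := by
  have := h.length_le
  rw [cs.length_one] at this
  rw [← cs.length_eq_zero_iff]
  omega

/-- Chain property. -/
theorem chain_up (n : ℕ) : ∀ y : W, cs.length y = n → ∀ x, Ble cs x y → x ≠ y →
    ∃ z, Cov cs x z ∧ Ble cs z y := by
  induction n with
  | zero =>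
    intro y hy x hxy hne
    rw [cs.length_eq_zero_iff] at hy
    subst hy
    exact absurd (one_of_ble_one hxy) hne
  | succ n ih =>
    intro y hy x hxy hne
    have hy1 : y ≠ 1 := by
      rintro rfl
      simp at hy
    obtain ⟨i, hi⟩ := cs.exists_leftDescent_of_ne_one hy1
    have hi' : cs.length (cs.simple i * y) < cs.length y := hi
    have hly : cs.length (cs.simple i * y) + 1 = cs.length y := by
      rcases cs.length_simple_mul y i with h | h <;> omega
    have hcy : Cov cs (cs.simple i * y) y := (simple_step' hi').cov hly.symm
    -- a common ending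
    have key : Ble cs x (cs.simple i * y) → ∃ z, Cov cs x z ∧ Ble cs z y := by
      intro h1
      by_cases h2 : x = cs.simple i * y
      · refine ⟨y, ?_, Ble.refl cs y⟩
        rw [h2]; exact hcy
      · obtain ⟨z, hz1, hz2⟩ := ih _ (by omega) x h1 h2
        exact ⟨z, hz1, hz2.trans hcy.le⟩
    rcases cs.length_simple_mul x i with hx | hx
    · exact key (hxy.lift_dn (by omega))
    · have h1 : Ble cs (cs.simple i * x) (cs.simple i * y) := hxy.lift_dd (by omega)
      have h2 : cs.simple i * x ≠ cs.simple i * y := fun h => hne (mul_left_cancel h)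
      obtain ⟨z', hz1, hz2⟩ := ih _ (by omega) _ h1 h2
      by_cases h3 : z' = x
      · rw [h3] at hz2
        exact key hz2
      · rcases hz1.step.simple i with h4 | h4
        · rw [cs.simple_mul_simple_cancel_left] at h4
          exact absurd h4 h3
        · rw [cs.simple_mul_simple_cancel_left] at h4
          have h5 := h4.length_lt
          have h6 := hz1.2
          have h7 := cs.length_simple_mul z' i
          refine ⟨cs.simple i * z', h4.cov (by omega), ?_⟩
          have h8 := hz2.lift_up (i := i) (by
            rw [cs.simple_mul_simple_cancel_left]; exact hi')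
          rw [cs.simple_mul_simple_cancel_left] at h8
          exact h8

theorem exists_cov_left {x y : W} (h : Ble cs x y) (hne : x ≠ y) :
    ∃ z, Cov cs x z ∧ Ble cs z y := chain_up _ y rfl x h hne

theorem exists_cov_right {x y : W} (h : Ble cs x y) (hne : x ≠ y) :
    ∃ z, Ble cs x z ∧ Cov cs z y := by
  obtain ⟨n, hn⟩ : ∃ n, cs.length y = cs.length x + n := by
    exact ⟨_, (Nat.add_sub_cancel' h.length_le).symm⟩
  induction n generalizing x with
  | zero =>
    exact absurd (h.eq_of_length_le (by omega)) hne
  | succ n ih =>
    obtain ⟨z, hz1, hz2⟩ := exists_cov_left h hne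
    by_cases h3 : z = y
    · subst h3
      exact ⟨x, Ble.refl cs x, hz1⟩
    · obtain ⟨z', hz3, hz4⟩ := ih hz2 h3 (by have := hz1.2; omega)
      exact ⟨z', hz1.le.trans hz3, hz4⟩

theorem thin_aux (n : ℕ) : ∀ y : W, cs.length y = n → ∀ x, Ble cs x y →
    cs.length y = cs.length x + 2 →
    ∃ a b, a ≠ b ∧ Cov cs x a ∧ Cov cs a y ∧ Cov cs x b ∧ Cov cs b y ∧
      ∀ c, Cov cs x c → Cov cs c y → c = a ∨ c = b := by
  induction n with
  | zero =>
    intro y hy x hxy hl
    omega
  | succ n ih =>
    intro y hy x hxy hl
    have hy1 : y ≠ 1 := by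
      rintro rfl
      simp at hy
    obtain ⟨i, hi⟩ := cs.exists_leftDescent_of_ne_one hy1
    have hi' : cs.length (cs.simple i * y) < cs.length y := hi
    have hly : cs.length (cs.simple i * y) + 1 = cs.length y := by
      rcases cs.length_simple_mul y i with h | h <;> omega
    have hcy : Cov cs (cs.simple i * y) y := (simple_step' hi').cov hly.symm
    have hsc : ∀ c, Cov cs c y → cs.length c < cs.length (cs.simple i * c) →
        c = cs.simple i * y := by
      intro c hc hlc
      have h1 := hc.le.lift_dn hlc
      exact h1.eq_of_length_le (by have := hc.2; omega)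
    rcases cs.length_simple_mul x i with hx | hx
    · refine ⟨cs.simple i * x, cs.simple i * y, ?_, ?_, ?_, ?_, hcy, ?_⟩
      · intro h
        have := mul_left_cancel h
        subst this
        omega
      · exact (simple_step (by omega)).cov hx
      · exact ⟨hxy.lift_le hi', by omega⟩
      · exact ⟨hxy.lift_dn (by omega), by omega⟩
      · intro c hc1 hc2
        rcases cs.length_simple_mul c i with hc | hc
        · right
          exact hsc c hc2 (by omega)
        · left
          have h1 := hc1.le.lift_le (i := i) (by omega)
          exact (h1.eq_of_length_le (by have := hc1.2; omega)).symm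
    · have h1 : Ble cs (cs.simple i * x) (cs.simple i * y) := hxy.lift_dd (by omega)
      obtain ⟨a, b, hab, ha1, ha2, hb1, hb2, huniq⟩ := ih _ (by omega) _ h1 (by omega)
      have hcx : Cov cs (cs.simple i * x) x := (simple_step' (by omega)).cov hx.symm
      have hA : ∀ z, Cov cs (cs.simple i * x) z → Cov cs z (cs.simple i * y) → z ≠ x →
          Cov cs x (cs.simple i * z) ∧ Cov cs (cs.simple i * z) y := by
        intro z hz1 hz2 hzx
        rcases hz1.step.simple i with h4 | h4
        · rw [cs.simple_mul_simple_cancel_left] at h4
          exact absurd h4 hzx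
        · rw [cs.simple_mul_simple_cancel_left] at h4
          have h5 := h4.length_lt
          have h6 := hz1.2
          have h7 := cs.length_simple_mul z i
          have h8 := hz2.le.lift_up (i := i) (by
            rw [cs.simple_mul_simple_cancel_left]; exact hi')
          rw [cs.simple_mul_simple_cancel_left] at h8
          exact ⟨h4.cov (by omega), h8, by omega⟩
      have hB : ∀ c, Cov cs x c → Cov cs c y → c ≠ cs.simple i * y →
          Cov cs (cs.simple i * x) (cs.simple i * c) ∧
          Cov cs (cs.simple i * c) (cs.simple i * y) ∧ cs.simple i * c ≠ x := by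
        intro c hc1 hc2 hne
        have hlc : cs.length (cs.simple i * c) + 1 = cs.length c := by
          rcases cs.length_simple_mul c i with hc | hc
          · exact absurd (hsc c hc2 (by omega)) hne
          · exact hc
        have hc1' := hc1.2
        refine ⟨?_, ?_, ?_⟩
        · rcases hc1.step.simple i with h4 | h4
          · rw [← h4] at hx
            omega
          · exact h4.cov (by omega)
        · rcases hc2.step.simple i with h4 | h4
          · exfalso
            apply hne
            rw [h4, cs.simple_mul_simple_cancel_left]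
          · exact h4.cov (by omega)
        · intro h
          have : c = cs.simple i * x := by rw [← h, cs.simple_mul_simple_cancel_left]
          rw [this] at hc1'
          omega
      by_cases hxy' : Ble cs x (cs.simple i * y)
      · have hcxy : Cov cs x (cs.simple i * y) := ⟨hxy', by omega⟩
        -- symmetric treatment
        have main : ∀ a b, a ≠ b → Cov cs (cs.simple i * x) b → Cov cs b (cs.simple i * y) →
            (∀ c, Cov cs (cs.simple i * x) c → Cov cs c (cs.simple i * y) → c = a ∨ c = b) →
            x = a →
            ∃ a b, a ≠ b ∧ Cov cs x a ∧ Cov cs a y ∧ Cov cs x b ∧ Cov cs b y ∧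
              ∀ c, Cov cs x c → Cov cs c y → c = a ∨ c = b := by
          intro a b hab hb1 hb2 hu hxa
          subst hxa
          obtain ⟨h2, h3⟩ := hA b hb1 hb2 (Ne.symm hab)
          refine ⟨cs.simple i * y, cs.simple i * b, ?_, hcxy, hcy, h2, h3, ?_⟩
          · intro h
            have := mul_left_cancel h
            subst this
            have := hb2.2
            omega
          · intro c hc1 hc2
            by_cases hne : c = cs.simple i * y
            · exact Or.inl hne
            · right
              obtain ⟨h4, h5, h6⟩ := hB c hc1 hc2 hne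
              rcases hu _ h4 h5 with h7 | h7
              · exact absurd h7 h6
              · rw [← h7, cs.simple_mul_simple_cancel_left]
        rcases huniq x hcx hcxy with h2 | h2
        · exact main a b hab hb1 hb2 huniq h2
        · exact main b a (Ne.symm hab) ha1 ha2 (fun c h3 h4 => (huniq c h3 h4).symm) h2
      · have hax : a ≠ x := by rintro rfl; exact hxy' ha2.le
        have hbx : b ≠ x := by rintro rfl; exact hxy' hb2.le
        obtain ⟨h2, h3⟩ := hA a ha1 ha2 hax
        obtain ⟨h4, h5⟩ := hA b hb1 hb2 hbx
        refine ⟨cs.simple i * a, cs.simple i * b, fun h => hab (mul_left_cancel h), h2, h3, h4,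
          h5, ?_⟩
        intro c hc1 hc2
        have hne : c ≠ cs.simple i * y := by rintro rfl; exact hxy' hc1.le
        obtain ⟨h6, h7, h8⟩ := hB c hc1 hc2 hne
        rcases huniq _ h6 h7 with h9 | h9
        · left; rw [← h9, cs.simple_mul_simple_cancel_left]
        · right; rw [← h9, cs.simple_mul_simple_cancel_left]

/-- Thinness of the Bruhat order. -/
theorem thin {x a y : W} (h1 : Cov cs x a) (h2 : Cov cs a y) :
    ∃ b, b ≠ a ∧ Cov cs x b ∧ Cov cs b y ∧ ∀ c, Cov cs x c → Cov cs c y → c = a ∨ c = b := by
  obtain ⟨a', b', hab, ha1, ha2, hb1, hb2, hu⟩ := thin_aux _ y rfl x (h1.le.trans h2.le)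
    (by have := h1.2; have := h2.2; omega)
  rcases hu a h1 h2 with h | h
  · subst h
    exact ⟨b', Ne.symm hab, hb1, hb2, hu⟩
  · subst h
    exact ⟨a', hab, ha1, ha2, fun c h3 h4 => (hu c h3 h4).symm⟩

end

end Pool.Agent.Zir
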