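import Pool.Agent.Zir.Match

/-! # Labels of special matchings; the pure left criterion; the extension lemma -/

namespace Pool.Agent.Zir

set_option linter.unusedSimpArgs false
set_option linter.unusedVariables false
set_option linter.unusedSectionVars false

noncomputable section

variable {B W : Type*} [Group W] {M : CoxeterMatrix B} [SL M] {cs : CoxeterSystem M W}
  {u w : W} {m : W → W}

open Classical in
/-- The left root label of `m` at `x`. -/
def lab (cs : CoxeterSystem M W) (m : W → W) (x : W) : V B :=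
  if h : ∃ b, PR cs b ∧ m x = rf cs b * x then h.choose else 0

lemma lab_eq {x : W} {b : V B} (hb : PR cs b) (h : m x = rf cs b * x) : lab cs m x = b := by
  have hex : ∃ b, PR cs b ∧ m x = rf cs b * x := ⟨b, hb, h⟩
  have h1 := hex.choose_spec
  have h2 : lab cs m x = hex.choose := by rw [lab, dif_pos hex]
  rw [h2]
  refine rf_inj h1.1 hb ?_
  have h3 : rf cs hex.choose * x = rf cs b * x := by rw [← h1.2, h]
  exact mul_right_cancel h3

lemma Cov.root {x y : W} (h : Cov cs x y) : ∃ v, PR cs v ∧ y = rf cs v * x ∧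
    PR cs (rho cs x⁻¹ v) := step_iff.mp h.step

lemma SM.lab_spec (h : SM cs u w m) {x : W} (h1 : Ble cs u x) (h2 : Ble cs x w)
    (hx : Up cs m x) : PR cs (lab cs m x) ∧ m x = rf cs (lab cs m x) * x ∧
      PR cs (rho cs x⁻¹ (lab cs m x)) := by
  obtain ⟨v, hv, h3, h4⟩ := (h.up_cov h1 h2 hx).root
  rw [lab_eq hv h3]
  exact ⟨hv, h3, h4⟩

lemma up_ne {x y : W} (h : m x = y) (hinv : m (m x) = x) (hl : cs.length x < cs.length y) :
    ¬ Up cs m y := by
  unfold Up
  rw [← h, hinv, h]
  omega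

lemma rf_braid5 {s t : V B} (hs : IsRoot cs s) (ht : IsRoot cs t)
    (h : bil M s t = 1 ∨ bil M s t = -1) (x : W) :
    rf cs s * (rf cs t * (rf cs s * (rf cs t * (rf cs s * x)))) = rf cs t * x := by
  have h1 := rf_braid hs ht h
  calc rf cs s * (rf cs t * (rf cs s * (rf cs t * (rf cs s * x))))
      = (rf cs s * rf cs t * rf cs s) * (rf cs t * (rf cs s * x)) := by simp only [mul_assoc]
    _ = (rf cs t * rf cs s * rf cs t) * (rf cs t * (rf cs s * x)) := by rw [h1]
    _ = rf cs t * (rf cs s * (rf cs t * (rf cs t * (rf cs s * x)))) := by simp only [mul_assoc]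
    _ = rf cs t * x := by rw [rf_cancel ht, rf_cancel hs]

lemma rf_conj_mul {v : V B} (h : IsRoot cs v) {t : V B} (ht : IsRoot cs t) (x : W) :
    rf cs (rho cs (rf cs t) v) * x = rf cs t * (rf cs v * (rf cs t * x)) := by
  rw [rf_conj h, rf_inv ht]
  simp only [mul_assoc]

/-- (L0) -/
theorem SM.L0 [RB cs] (h : SM cs u w m) {x y : W} {τ : V B} (hux : Ble cs u x)
    (hyw : Ble cs y w) (hτ : PR cs τ) (hyx : y = rf cs τ * x) (hc : Cov cs x y)
    (hx : Up cs m x) (hy : Up cs m y) :
    lab cs m y = lab cs m x ∨ lab cs m y = rho cs (rf cs τ) (lab cs m x) := by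
  have hxw := hc.le.trans hyw
  have huy := hux.trans hc.le
  obtain ⟨hb, hmx, hbx⟩ := h.lab_spec hux hxw hx
  obtain ⟨hb', hmy, hby⟩ := h.lab_spec huy hyw hy
  have hcx := h.up_cov hux hxw hx
  have hcy := h.up_cov huy hyw hy
  have hne : m x ≠ y := by
    intro h1
    exact (up_ne h1 (h.inv x hux hxw) (by have := hc.2; omega)) hy
  have hcm : Cov cs (m x) (m y) := by
    rcases h.sp x y hux hyw hc with h1 | h1
    · exact absurd h1 hne
    · exact ⟨h1, by have := hc.2; have := hcx.2; have := hcy.2; omega⟩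
  obtain ⟨τ', hτ', h3, _⟩ := hcm.root
  have hbτ : lab cs m x ≠ τ := by
    intro h1
    rw [h1] at hmx
    exact hne (hmx.trans hyx.symm)
  have h4 : rf cs (lab cs m y) * rf cs τ = rf cs τ' * rf cs (lab cs m x) := by
    have h5 : rf cs (lab cs m y) * rf cs τ * x = rf cs τ' * rf cs (lab cs m x) * x := by
      rw [mul_assoc, ← hyx, ← hmy, h3, mul_assoc, ← hmx]
    exact mul_right_cancel h5
  rcases plane hb hτ hb' hτ' hbτ h4 with h5 | h5 | h5 | h5
  · exact Or.inl h5
  · exfalso
    rw [h5, hyx, rf_cancel hτ.1] at hmy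
    have := hcy.2
    have := hc.2
    rw [← hyx] at hmy
    rw [hmy] at *
    omega
  · exact Or.inr h5
  · exfalso
    rw [h5, hyx, mul_inv_rev, map_neg, rho_mul, rf_inv hτ.1] at hby
    rw [← rho_mul cs (rf cs τ), rf_mul_self hτ.1, rho_one] at hby
    exact hbx.not_neg hby

/-- Lemma 1: if `m` has the left label `lab u` at all atoms (other than `m u`), it is left
multiplication by a reflection. -/
theorem SM.pure [RB cs] (h : SM cs u w m) (huw : Ble cs u w)
    (hyp : ∀ y, Cov cs u y → Ble cs y w → m u ≠ y → lab cs m y = lab cs m u) :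
    ∀ x, Ble cs u x → Ble cs x w → Up cs m x → lab cs m x = lab cs m u := by
  intro x
  obtain ⟨n, hn⟩ : ∃ n, cs.length x = n := ⟨_, rfl⟩
  induction n using Nat.strong_induction_on generalizing x with
  | _ n ih =>
  intro hux hxw hx
  obtain ⟨hbu, hmu, _⟩ := h.lab_spec (Ble.refl cs u) huw (h.bot_up huw)
  by_cases hxu : x = u
  · rw [hxu]
  obtain ⟨x1, hux1, hx1x, hx1⟩ := h.m4 hux hxw hx hxu
  have hl1 := hx1x.2
  have hx1w := hx1x.le.trans hxw
  have hlab1 := ih _ (by omega) x1 rfl hux1 hx1w hx1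
  by_cases hx1u : x1 = u
  · subst hx1u
    refine hyp x hx1x hxw ?_
    intro h1
    exact (up_ne h1 (h.inv x1 (Ble.refl cs x1) huw) (by omega)) hx
  obtain ⟨x0, hux0, hx01, hx0⟩ := h.m4 hux1 hx1w hx1 hx1u
  have hl0 := hx01.2
  have hx0w := hx01.le.trans hx1w
  have hlab0 := ih _ (by omega) x0 rfl hux0 hx0w hx0
  obtain ⟨x2, h21, hx02, hx2x, _⟩ := thin hx01 hx1x
  have hx2w := hx2x.le.trans hxw
  have hux2 := hux0.trans hx02.le
  have hl2 := hx02.2
  obtain ⟨τ, hτ, hτ1, _⟩ := hx01.root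
  obtain ⟨σ, hσ, hσ1, _⟩ := hx1x.root
  obtain ⟨σ2, hσ2, hσ21, _⟩ := hx2x.root
  by_contra hcon
  have hL1 := h.L0 hux1 hxw hσ hσ1 hx1x hx1 hx
  rw [hlab1] at hL1
  have hL1' : lab cs m x = rho cs (rf cs σ) (lab cs m u) := hL1.resolve_left hcon
  by_cases hx2 : Up cs m x2
  · have hlab2 := ih _ (by omega) x2 rfl hux2 hx2w hx2
    have hL2 := h.L0 hux2 hxw hσ2 hσ21 hx2x hx2 hx
    rw [hlab2] at hL2
    have hL2' := hL2.resolve_left hcon
    have h5 : rho cs (rf cs σ) (lab cs m u) = rho cs (rf cs σ2) (lab cs m u) := by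
      rw [← hL1', hL2']
    have h6 := rf_apply_inj hσ hσ2 h5 (by rw [← hL1']; exact hcon)
    apply h21
    rw [h6] at hσ1
    exact (mul_left_cancel (hσ1.symm.trans hσ21)).symm
  · have h5 : m x0 = x2 := h.m5 hux0 hx2w hx02 hx0 hx2
    have h6 : x2 = rf cs (lab cs m u) * x0 := by
      rw [← h5, ← hlab0]
      exact (h.lab_spec hux0 hx0w hx0).2.1
    have hbτ : lab cs m u ≠ τ := by
      intro h7
      rw [h7] at h6
      exact h21 (h6.trans hτ1.symm)
    have h7 : rf cs σ * rf cs τ = rf cs σ2 * rf cs (lab cs m u) := by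
      have : rf cs σ * rf cs τ * x0 = rf cs σ2 * rf cs (lab cs m u) * x0 := by
        rw [mul_assoc, mul_assoc, ← hτ1, ← h6, ← hσ1, ← hσ21]
      exact mul_right_cancel this
    have hσb : σ ≠ lab cs m u := by
      intro h8
      rw [h8, ← hlab1, ← (h.lab_spec hux1 hx1w hx1).2.1] at hσ1
      exact (up_ne hσ1.symm (h.inv x1 hux1 hx1w) (by omega)) hx
    have hmx := (h.lab_spec hux hxw hx).2.1
    have hcx := (h.up_cov hux hxw hx).2
    have key : rf cs σ = rf cs τ * rf cs (lab cs m u) * rf cs τ →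
        bil M τ (lab cs m u) ≠ 0 → False := by
      intro h8 h9
      have h10 : bil M τ (lab cs m u) = 1 ∨ bil M τ (lab cs m u) = -1 := by
        rcases pr_bil hτ hbu (Ne.symm hbτ) with h | h | h
        · exact Or.inr h
        · exact absurd h h9
        · exact Or.inl h
      rw [hL1', rf_conj_mul hbu.1 hσ.1] at hmx
      have h11 : rf cs σ * x = x1 := by rw [hσ1, rf_cancel hσ.1]
      rw [h11, hτ1, h8] at hmx
      have h12 : m x = rf cs (lab cs m u) * x0 := by
        rw [hmx, ← rf_braid5 hτ.1 hbu.1 h10 x0]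
        simp only [mul_assoc]
      rw [← h6] at h12
      rw [h12] at hcx
      omega
    rcases plane hbu hτ hσ hσ2 hbτ h7 with h8 | h8 | h8 | h8
    · exact hσb h8
    · rw [h8, hτ1, rf_cancel hτ.1] at hσ1
      rw [hσ1] at hl1
      omega
    · refine key ?_ ?_
      · rw [h8, rf_conj hbu.1, rf_inv hτ.1]
      · intro h9
        rw [bil_comm] at h9
        rw [rf_apply_eq hτ.1 h9] at h8
        exact hσb h8
    · refine key ?_ ?_
      · rw [h8, rf_neg (hbu.1.rho _), rf_conj hbu.1, rf_inv hτ.1]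
      · intro h9
        rw [bil_comm] at h9
        rw [rf_apply_eq hτ.1 h9] at h8
        exact hσ.ne_neg hbu h8

/-- `m` is left multiplication by the reflection in `lab u`. -/
theorem SM.pure_LM [RB cs] (h : SM cs u w m) (huw : Ble cs u w)
    (hyp : ∀ y, Cov cs u y → Ble cs y w → m u ≠ y → lab cs m y = lab cs m u) :
    LM cs u w (lab cs m u) ∧ ∀ x, Ble cs u x → Ble cs x w → m x = rf cs (lab cs m u) * x := by
  have h1 := h.pure huw hyp
  have hbu := (h.lab_spec (Ble.refl cs u) huw (h.bot_up huw)).1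
  have h2 : ∀ x, Ble cs u x → Ble cs x w → m x = rf cs (lab cs m u) * x := by
    intro x hux hxw
    by_cases hx : Up cs m x
    · rw [← h1 x hux hxw hx]
      exact (h.lab_spec hux hxw hx).2.1
    · have h3 := (h.lab_spec (h.lo x hux hxw) (h.hi x hux hxw) (h.up_m hux hxw hx)).2.1
      rw [h1 _ (h.lo x hux hxw) (h.hi x hux hxw) (h.up_m hux hxw hx), h.inv x hux hxw] at h3
      conv_rhs => rw [h3]
      rw [rf_cancel hbu.1]
  refine ⟨⟨hbu, ?_⟩, h2⟩
  constructor
  · intro x hux hxw
    show Ble cs u (rf cs (lab cs m u) * x)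
    rw [← h2 x hux hxw]; exact h.lo x hux hxw
  · intro x hux hxw
    show Ble cs (rf cs (lab cs m u) * x) w
    rw [← h2 x hux hxw]; exact h.hi x hux hxw
  · intro x _ _
    exact rf_cancel hbu.1 x
  · intro x hux hxw
    show Cov cs x (rf cs (lab cs m u) * x) ∨ Cov cs (rf cs (lab cs m u) * x) x
    rw [← h2 x hux hxw]; exact h.cov x hux hxw
  · intro x y hux hyw hxy
    show rf cs (lab cs m u) * x = y ∨ Ble cs (rf cs (lab cs m u) * x) (rf cs (lab cs m u) * y)
    rw [← h2 x hux (hxy.le.trans hyw), ← h2 y (hux.trans hxy.le) hyw]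
    exact h.sp x y hux hyw hxy

end

end Pool.Agent.Zir
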