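import Pool.Agent.Zir.Phi2

/-! # Lemma 3: words below `φ (m x)` and the labels of `m` -/

namespace Pool.Agent.Zir

set_option linter.unusedSimpArgs false
set_option linter.unusedVariables false
set_option linter.unusedSectionVars false

noncomputable section

open Classical

variable {B W : Type*} [Group W] {M : CoxeterMatrix B} [SL M] {cs : CoxeterSystem M W} {u : W}
  [RB cs]

/-- The element of `W` of a word in the atoms. -/
def XW (cs : CoxeterSystem M W) [RB cs] (u : W) (L : List (At cs u)) : W :=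
  piA cs u ((csA cs u).wordProd L) * u

/-- The product of reflections of a word in the atoms. -/
def GW (cs : CoxeterSystem M W) [RB cs] (u : W) (L : List (At cs u)) : W :=
  piA cs u ((csA cs u).wordProd L)

lemma XW_nil : XW cs u [] = u := by simp [XW, CoxeterSystem.wordProd]

lemma GW_nil : GW cs u [] = 1 := by simp [GW, CoxeterSystem.wordProd]

lemma GW_cons (c : At cs u) (L : List (At cs u)) :
    GW cs u (c :: L) = rf cs c.1 * GW cs u L := by
  rw [GW, CoxeterSystem.wordProd_cons, map_mul, piA_simple, GW]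

lemma XW_eq (L : List (At cs u)) : XW cs u L = GW cs u L * u := rfl

lemma XW_cons (c : At cs u) (L : List (At cs u)) :
    XW cs u (c :: L) = rf cs c.1 * XW cs u L := by
  rw [XW_eq, GW_cons, mul_assoc, ← XW_eq]

lemma GW_append (L L' : List (At cs u)) : GW cs u (L ++ L') = GW cs u L * GW cs u L' := by
  rw [GW, CoxeterSystem.wordProd_append, map_mul]; rfl

lemma XW_append (L L' : List (At cs u)) : XW cs u (L ++ L') = GW cs u L * XW cs u L' := by
  rw [XW_eq, GW_append, mul_assoc, ← XW_eq]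

/-- Standing assumptions of Lemma 3. -/
structure Ctx (cs : CoxeterSystem M W) [RB cs] (u x : W) (m : W → W) (ω : List (At cs u)) : Prop where
  sm : SM cs u x m
  hux : Ble cs u x
  inv : ∀ y, Ble cs u y → Ble cs y (m x) → Inv cs u y
  red : (csA cs u).IsReduced ω
  om : (csA cs u).wordProd ω = phi cs u (m x)

variable {x : W} {m : W → W} {ω : List (At cs u)}

namespace Ctx

lemma mx (C : Ctx cs u x m ω) : Ble cs (m x) x := C.sm.hi x C.hux (Ble.refl cs x)

lemma umx (C : Ctx cs u x m ω) : Ble cs u (m x) := C.sm.lo x C.hux (Ble.refl cs x)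

lemma X (C : Ctx cs u x m ω) {L : List (At cs u)} (hL : L.Sublist ω) :
    Ble cs u (XW cs u L) ∧ Ble cs (XW cs u L) (m x) ∧
    phi cs u (XW cs u L) = (csA cs u).wordProd L := by
  have h1 := sublist_ble C.red hL
  rw [C.om] at h1
  obtain ⟨y, h2, h3, h4⟩ := ((C.inv (m x) C.umx (Ble.refl cs _)).i5 _).mp h1
  have h5 : y = XW cs u L := by
    rw [← (C.inv y h2 h3).i6, h4, XW]
  rw [← h5]
  exact ⟨h2, h3, h4⟩

lemma lo (C : Ctx cs u x m ω) {L : List (At cs u)} (hL : L.Sublist ω) :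
    Ble cs u (XW cs u L) := (C.X hL).1

lemma hi' (C : Ctx cs u x m ω) {L : List (At cs u)} (hL : L.Sublist ω) :
    Ble cs (XW cs u L) (m x) := (C.X hL).2.1

lemma hi (C : Ctx cs u x m ω) {L : List (At cs u)} (hL : L.Sublist ω) :
    Ble cs (XW cs u L) x := (C.hi' hL).trans C.mx

lemma len (C : Ctx cs u x m ω) {L : List (At cs u)} (hL : L.Sublist ω) (hn : L.Nodup) :
    cs.length (XW cs u L) = cs.length u + L.length := by
  obtain ⟨h1, h2, h3⟩ := C.X hL
  have h4 := (C.inv _ h1 h2).i3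
  rw [h3, length_nodup hn] at h4
  exact h4

lemma mono (C : Ctx cs u x m ω) {L L' : List (At cs u)} (hL : L.Sublist ω) (hn : L.Nodup)
    (h : L'.Sublist L) : Ble cs (XW cs u L') (XW cs u L) := by
  obtain ⟨h1, h2, h3⟩ := C.X hL
  have h4 := sublist_ble (cs := csA cs u) (reduced_nodup hn) h
  rw [← h3] at h4
  obtain ⟨y, h5, h6, h7⟩ := ((C.inv _ h1 h2).i5 _).mp h4
  have h8 : y = XW cs u L' := by
    rw [← (C.inv y h5 (h6.trans h2)).i6, h7, XW]
  rw [← h8]
  exact h6

lemma cov (C : Ctx cs u x m ω) {L L' : List (At cs u)} (hL : L.Sublist ω) (hn : L.Nodup)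
    (h : L'.Sublist L) (hl : L.length = L'.length + 1) : Cov cs (XW cs u L') (XW cs u L) := by
  refine ⟨C.mono hL hn h, ?_⟩
  rw [C.len hL hn, C.len (h.trans hL) (hn.sublist h), hl]
  rfl

lemma L0 (C : Ctx cs u x m ω) {L L' : List (At cs u)} (hL : L.Sublist ω) (hn : L.Nodup)
    (h : L'.Sublist L) (hl : L.length = L'.length + 1) {σ : V B} (hσ : PR cs σ)
    (hx : XW cs u L = rf cs σ * XW cs u L') (h1 : Up cs m (XW cs u L'))
    (h2 : Up cs m (XW cs u L)) :
    lab cs m (XW cs u L) = lab cs m (XW cs u L') ∨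
      lab cs m (XW cs u L) = rho cs (rf cs σ) (lab cs m (XW cs u L')) :=
  C.sm.L0 (C.lo (h.trans hL)) (C.hi hL) hσ hx (C.cov hL hn h hl) h1 h2

/-- The atom `m u`. -/
def a (C : Ctx cs u x m ω) : At cs u :=
  ⟨lab cs m u, (C.sm.lab_spec (Ble.refl cs u) C.hux (C.sm.bot_up C.hux)).1, by
    rw [← (C.sm.lab_spec (Ble.refl cs u) C.hux (C.sm.bot_up C.hux)).2.1]
    exact C.sm.up_cov (Ble.refl cs u) C.hux (C.sm.bot_up C.hux)⟩

lemma mu (C : Ctx cs u x m ω) : m u = rf cs C.a.1 * u :=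
  (C.sm.lab_spec (Ble.refl cs u) C.hux (C.sm.bot_up C.hux)).2.1

lemma lab_u (C : Ctx cs u x m ω) : lab cs m u = C.a.1 := rfl

lemma phi_atom (C : Ctx cs u x m ω) {c : At cs u} (h : Ble cs (rf cs c.1 * u) (m x)) :
    phi cs u (rf cs c.1 * u) = (csA cs u).simple c := by
  have I := C.inv _ c.2.2.le h
  obtain ⟨d, hd⟩ := I.i1 (by
    intro h1
    have := c.2.2.2
    rw [h1] at this
    omega)
  have h2 := (hd.hi (Ble.refl cs u) c.2.2.le).eq_of_length_le (by
    have := c.2.2.2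
    have := d.2.2.2
    omega)
  have h3 : d = c := by
    refine Subtype.ext (rf_inj d.2.1 c.2.1 ?_)
    exact mul_right_cancel h2
  subst h3
  rw [I.i2 d hd, rf_cancel d.2.1.1, phi_u, mul_one]

lemma up (C : Ctx cs u x m ω) {L : List (At cs u)} (hL : L.Sublist ω) (ha : C.a ∉ L) :
    Up cs m (XW cs u L) := by
  by_contra hcon
  obtain ⟨h1, h2, h3⟩ := C.X hL
  have h4 := C.sm.m1 (Ble.refl cs u) h1 (h2.trans C.mx) hcon
  rw [C.mu] at h4
  have h5 := ((C.inv _ h1 h2).i5 _).mpr ⟨_, C.a.2.2.le, h4, rfl⟩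
  rw [C.phi_atom (h4.trans h2), h3] at h5
  exact ha (mem_of_simple_ble h5)

/-- The three types of atoms. -/
def JL (C : Ctx cs u x m ω) (c : At cs u) : Prop :=
  c ≠ C.a ∧ bil M C.a.1 c.1 ≠ 0 ∧ lab cs m (rf cs c.1 * u) = C.a.1

def JR (C : Ctx cs u x m ω) (c : At cs u) : Prop :=
  c ≠ C.a ∧ bil M C.a.1 c.1 ≠ 0 ∧ lab cs m (rf cs c.1 * u) = rho cs (rf cs c.1) C.a.1

def J0 (C : Ctx cs u x m ω) (c : At cs u) : Prop :=
  c ≠ C.a ∧ bil M C.a.1 c.1 = 0

lemma XW_single (c : At cs u) : XW cs u [c] = rf cs c.1 * u := by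
  rw [XW_cons, XW_nil]

lemma tri (C : Ctx cs u x m ω) {c : At cs u} (hc : c ∈ ω) (hca : c ≠ C.a) :
    C.JL c ∨ C.JR c ∨ C.J0 c := by
  by_cases h0 : bil M C.a.1 c.1 = 0
  · exact Or.inr (Or.inr ⟨hca, h0⟩)
  · have hs : [c].Sublist ω := by simpa using hc
    have h1 := C.up hs (by simpa using (Ne.symm hca))
    have h2 := C.L0 hs (by simp) (List.nil_sublist _) rfl c.2.1
      (by rw [XW_single, XW_nil]) (by rw [XW_nil]; exact C.sm.bot_up C.hux) h1
    rw [XW_single, XW_nil, C.lab_u] at h2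
    rcases h2 with h2 | h2
    · exact Or.inl ⟨hca, h0, h2⟩
    · exact Or.inr (Or.inl ⟨hca, h0, h2⟩)

lemma JR.ne (C : Ctx cs u x m ω) {b : At cs u} (h : C.JR b) :
    rho cs (rf cs b.1) C.a.1 ≠ C.a.1 := rf_apply_ne b.2.1.1 h.2.1

lemma GW_fix (C : Ctx cs u x m ω) {l : List (At cs u)} (h : ∀ z ∈ l, C.J0 z) :
    rho cs (GW cs u l) C.a.1 = C.a.1 := by
  induction l with
  | nil => rw [GW_nil, rho_one]
  | cons d l ih =>
    rw [GW_cons, rho_mul, ih (fun z hz => h z (List.mem_cons_of_mem _ hz))]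
    exact rf_apply_eq d.2.1.1 (h d List.mem_cons_self).2

lemma GW_fix_inv (C : Ctx cs u x m ω) {l : List (At cs u)} (h : ∀ z ∈ l, C.J0 z) :
    rho cs (GW cs u l)⁻¹ C.a.1 = C.a.1 := by
  conv_lhs => rw [← C.GW_fix h]
  rw [rho_inv_rho]

/-- Claim 1 -/
lemma claim1 (C : Ctx cs u x m ω) {l : List (At cs u)} (hl : l.Sublist ω) (hn : l.Nodup)
    (h : ∀ z ∈ l, C.J0 z) : lab cs m (XW cs u l) = C.a.1 := by
  induction l with
  | nil => rw [XW_nil]; rfl
  | cons d l ih =>
    have hl' := (List.sublist_cons_self d l).trans hl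
    have hn' := (List.nodup_cons.mp hn).2
    have h' : ∀ z ∈ l, C.J0 z := fun z hz => h z (List.mem_cons_of_mem _ hz)
    have hd := h d List.mem_cons_self
    have ih' := ih hl' hn' h'
    have ha : C.a ∉ d :: l := fun hz => (h _ hz).1 rfl
    have ha' : C.a ∉ l := fun hz => (h' _ hz).1 rfl
    have h2 := C.L0 hl hn (List.sublist_cons_self d l) rfl d.2.1 (XW_cons d l) (C.up hl' ha')
      (C.up hl ha)
    rw [ih', rf_apply_eq d.2.1.1 hd.2] at h2
    rcases h2 with h2 | h2 <;> exact h2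

/-- Claim 2 -/
lemma claim2 (C : Ctx cs u x m ω) {c : At cs u} {l : List (At cs u)}
    (hl : (c :: l).Sublist ω) (hn : (c :: l).Nodup) (hc : C.JL c)
    (h : ∀ z ∈ l, C.J0 z) : lab cs m (XW cs u (c :: l)) = C.a.1 := by
  induction l with
  | nil => rw [XW_single]; exact hc.2.2
  | cons d l ih =>
    have s1 : (c :: l).Sublist (c :: d :: l) := (List.sublist_cons_self d l).cons_cons c
    have s2 : (d :: l).Sublist (c :: d :: l) := List.sublist_cons_self c _
    have h' : ∀ z ∈ l, C.J0 z := fun z hz => h z (List.mem_cons_of_mem _ hz)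
    have ih' := ih (s1.trans hl) (hn.sublist s1) h'
    have hd := h d List.mem_cons_self
    have ha2 : C.a ∉ d :: l := fun hz => (h _ hz).1 rfl
    have ha3 : C.a ∉ c :: d :: l := by
      intro hz
      rcases List.mem_cons.mp hz with hz | hz
      · exact hc.1 hz.symm
      · exact ha2 hz
    have ha1 : C.a ∉ c :: l := fun hz => ha3 (s1.subset hz)
    have c1 := C.claim1 (s2.trans hl) (hn.sublist s2) h
    have L1 := C.L0 hl hn s2 rfl c.2.1 (XW_cons c _) (C.up (s2.trans hl) ha2) (C.up hl ha3)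
    rw [c1] at L1
    obtain ⟨σ, hσ, _, hσ2⟩ := exists_pr_rho d.2.1.1 (rf cs c.1)
    have hX : XW cs u (c :: d :: l) = rf cs σ * XW cs u (c :: l) := by
      rw [hσ2, XW_cons, XW_cons, XW_cons, rf_inv c.2.1.1]
      simp only [mul_assoc]
      rw [rf_cancel c.2.1.1]
    have L2 := C.L0 hl hn s1 rfl hσ hX (C.up (s1.trans hl) ha1) (C.up hl ha3)
    rw [ih'] at L2
    by_contra hcon
    have L1' := L1.resolve_left hcon
    have L2' := L2.resolve_left hcon
    have h5 := rf_apply_inj c.2.1 hσ (by rw [← L1', L2']) (by rw [← L1']; exact hcon)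
    -- c = |c d| forces c = d
    rw [← h5] at hσ2
    have h6 : rf cs c.1 = rf cs d.1 := by
      rw [rf_inv c.2.1.1] at hσ2
      have h7 : rf cs c.1 * 1 = rf cs c.1 * (rf cs d.1 * rf cs c.1) := by
        rw [mul_one, ← mul_assoc]; exact hσ2
      have h8 := mul_left_cancel h7
      calc rf cs c.1 = 1 * rf cs c.1 := (one_mul _).symm
        _ = rf cs d.1 * rf cs c.1 * rf cs c.1 := by rw [← h8]
        _ = rf cs d.1 := by rw [mul_assoc, rf_mul_self c.2.1.1, mul_one]
    have h9 : c = d := Subtype.ext (rf_inj c.2.1 d.2.1 h6)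
    rw [List.nodup_cons] at hn
    exact hn.1 (by rw [h9]; exact List.mem_cons_self)

/-- Claim 3 -/
lemma claim3 (C : Ctx cs u x m ω) {b : At cs u} {l : List (At cs u)}
    (hl : (l ++ [b]).Sublist ω) (hn : (l ++ [b]).Nodup) (hb : C.JR b)
    (h : ∀ z ∈ l, C.J0 z) : lab cs m (XW cs u (l ++ [b])) =
      rho cs (GW cs u l) (rho cs (rf cs b.1) C.a.1) := by
  induction l with
  | nil =>
    rw [List.nil_append, XW_single, GW_nil, rho_one]
    exact hb.2.2
  | cons d l ih =>
    have s1 : (l ++ [b]).Sublist (d :: l ++ [b]) := List.sublist_cons_self d _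
    have s2 : (d :: l).Sublist (d :: l ++ [b]) := List.sublist_append_left _ _
    have h' : ∀ z ∈ l, C.J0 z := fun z hz => h z (List.mem_cons_of_mem _ hz)
    have ih' := ih (s1.trans hl) (hn.sublist s1) h'
    have ha2 : C.a ∉ d :: l := fun hz => (h _ hz).1 rfl
    have ha3 : C.a ∉ d :: l ++ [b] := by
      intro hz
      rcases List.mem_append.mp hz with hz | hz
      · exact ha2 hz
      · exact hb.1 (List.mem_singleton.mp hz).symm
    have ha1 : C.a ∉ l ++ [b] := fun hz => ha3 (s1.subset hz)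
    have c1 := C.claim1 (s2.trans hl) (hn.sublist s2) h
    have L1 := C.L0 hl hn s1 rfl d.2.1 (XW_cons d _) (C.up (s1.trans hl) ha1) (C.up hl ha3)
    rw [ih'] at L1
    rcases L1 with L1 | L1
    · obtain ⟨η, hη, _, hη2⟩ := exists_pr_rho b.2.1.1 (GW cs u (d :: l))
      have hX : XW cs u (d :: l ++ [b]) = rf cs η * XW cs u (d :: l) := by
        rw [hη2, XW_append, XW_single, XW_eq (d :: l)]
        simp only [mul_assoc, inv_mul_cancel_left]
      have L2 := C.L0 hl hn s2 (by simp) hη hX (C.up (s2.trans hl) ha2) (C.up hl ha3)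
      have e1 : rho cs (rf cs η) C.a.1 = rho cs (GW cs u (d :: l)) (rho cs (rf cs b.1) C.a.1) := by
        rw [hη2, rho_mul, rho_mul, C.GW_fix_inv h]
      rw [c1, e1] at L2
      have key : ∀ l' : List (At cs u), (∀ z ∈ l', C.J0 z) →
          rho cs (GW cs u l') (rho cs (rf cs b.1) C.a.1) ≠ C.a.1 := by
        intro l' hl' h1
        apply JR.ne C hb
        have h2 : rho cs (GW cs u l')⁻¹ (rho cs (GW cs u l') (rho cs (rf cs b.1) C.a.1)) =
            rho cs (GW cs u l')⁻¹ C.a.1 := by rw [h1]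
        rwa [rho_inv_rho, C.GW_fix_inv hl'] at h2
      rcases L2 with L2 | L2
      · rw [L1] at L2
        exact absurd L2 (key l h')
      · exact L2
    · rw [L1, GW_cons, rho_mul]

end Ctx

end

end Pool.Agent.Zir
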