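import Mathlib

/-! # Zircon Bruhat intervals (MP_1d6543_co): definitions

Bruhat order of a Coxeter system, special matchings, zircons; and the geometric
representation of a simply laced Coxeter system over the integers. -/

namespace Pool.Agent.Zir

/-! ## Bruhat order -/

section Bruhat

variable {B W : Type*} [Group W] {M : CoxeterMatrix B} (cs : CoxeterSystem M W)

/-- `y → z` in the Bruhat graph: `z = t y` for a reflection `t` and `ℓ(y) < ℓ(z)`. -/
def Step (y z : W) : Prop := ∃ t, cs.IsReflection t ∧ z = t * y ∧ cs.length y < cs.length z

/-- Bruhat order: the reflexive transitive closure of `→`. -/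
def Ble : W → W → Prop := Relation.ReflTransGen (Step cs)

/-- The group `W` as a type with the Bruhat order. -/
def Bruhat (_cs : CoxeterSystem M W) : Type _ := W

/-- The identity map `W → Bruhat cs`. -/
def Bruhat.of (w : W) : Bruhat cs := w

theorem Step.length_lt {y z : W} (h : Step cs y z) : cs.length y < cs.length z := by
  obtain ⟨t, _, _, h3⟩ := h
  exact h3

theorem Ble.refl (x : W) : Ble cs x x := Relation.ReflTransGen.refl

variable {cs}

theorem Ble.trans {x y z : W} (h : Ble cs x y) (h' : Ble cs y z) : Ble cs x z :=
  Relation.ReflTransGen.trans h h'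

theorem Step.ble {x y : W} (h : Step cs x y) : Ble cs x y := Relation.ReflTransGen.single h

theorem Ble.length_le {x y : W} (h : Ble cs x y) : cs.length x ≤ cs.length y := by
  induction h with
  | refl => exact le_rfl
  | tail _ h2 ih => exact ih.trans h2.length_lt.le

theorem Ble.eq_or_lt {x y : W} (h : Ble cs x y) : x = y ∨ cs.length x < cs.length y := by
  induction h with
  | refl => exact Or.inl rfl
  | tail h1 h2 ih =>
    right
    exact (Ble.length_le h1).trans_lt h2.length_lt

theorem Ble.eq_of_length_le {x y : W} (h : Ble cs x y) (hl : cs.length y ≤ cs.length x) :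
    x = y := by
  rcases h.eq_or_lt with h | h
  · exact h
  · omega

theorem Ble.antisymm {x y : W} (h : Ble cs x y) (h' : Ble cs y x) : x = y :=
  h.eq_of_length_le h'.length_le

variable (cs)

instance : PartialOrder (Bruhat cs) where
  le x y := Ble (W := W) cs x y
  le_refl x := Ble.refl (W := W) cs x
  le_trans _ _ _ h h' := Ble.trans (W := W) h h'
  le_antisymm _ _ h h' := Ble.antisymm (W := W) h h'

/-- Covering relation of the Bruhat order, in terms of lengths. -/
def Cov (x y : W) : Prop := Ble cs x y ∧ cs.length y = cs.length x + 1

end Bruhat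

/-! ## Special matchings and zircons (general posets) -/

/-- `m` is a special matching of the poset `P`: an involution with `m x ⋖ x` or `x ⋖ m x`
for all `x`, such that `x ⋖ y` implies `m x = y` or `m x < m y`. -/
structure IsSpecialMatching {P : Type*} [PartialOrder P] (m : P → P) : Prop where
  invol : ∀ x, m (m x) = x
  matching : ∀ x, m x ⋖ x ∨ x ⋖ m x
  special : ∀ x y, x ⋖ y → m x = y ∨ m x < m y

/-- A zircon: for every non-minimal `x` the principal order ideal of `x` is finite and admits a
special matching. -/
def IsZircon (P : Type*) [PartialOrder P] : Prop :=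
  ∀ x : P, ¬ IsMin x → (Set.Iic x).Finite ∧ ∃ m : Set.Iic x → Set.Iic x, IsSpecialMatching m

/-- The Coxeter matrix is simply laced: all entries are `1`, `2` or `3`. -/
class SL {B : Type*} (M : CoxeterMatrix B) : Prop where
  prop : ∀ i j, M i j = 1 ∨ M i j = 2 ∨ M i j = 3

/-! ## Internal form of special matchings: functions on `W` restricted to an interval -/

section SM

variable {B W : Type*} [Group W] {M : CoxeterMatrix B} (cs : CoxeterSystem M W)

/-- `m` restricts to a special matching of the Bruhat interval `[u, w]`. -/
structure SM (u w : W) (m : W → W) : Prop where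
  lo : ∀ x, Ble cs u x → Ble cs x w → Ble cs u (m x)
  hi : ∀ x, Ble cs u x → Ble cs x w → Ble cs (m x) w
  inv : ∀ x, Ble cs u x → Ble cs x w → m (m x) = x
  cov : ∀ x, Ble cs u x → Ble cs x w → Cov cs x (m x) ∨ Cov cs (m x) x
  sp : ∀ x y, Ble cs u x → Ble cs y w → Cov cs x y → m x = y ∨ Ble cs (m x) (m y)

end SM

end Pool.Agent.Zir
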