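import Pool.Agent.Zir.Core

/-! # The extension lemma -/

namespace Pool.Agent.Zir

set_option linter.unusedSimpArgs false
set_option linter.unusedVariables false
set_option linter.unusedSectionVars false

noncomputable section

variable {B W : Type*} [Group W] {M : CoxeterMatrix B} [SL M] {cs : CoxeterSystem M W}
  {u w : W} {m : W → W}

lemma SM.m_of_lab (h : SM cs u w m) {x : W} {c : V B} (hc : PR cs c) (hux : Ble cs u x)
    (hxw : Ble cs x w) (hucx : Ble cs u (rf cs c * x)) (hcxw : Ble cs (rf cs c * x) w)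
    (hx : Up cs m x) (hcx : Up cs m (rf cs c * x))
    (hl : lab cs m (rf cs c * x) = rho cs (rf cs c) (lab cs m x)) :
    m (rf cs c * x) = rf cs c * m x := by
  obtain ⟨hb, hm, _⟩ := h.lab_spec hux hxw hx
  obtain ⟨hb', hm', _⟩ := h.lab_spec hucx hcxw hcx
  rw [hm', hl, rf_conj_mul hb.1 hc.1, rf_cancel hc.1, ← hm]

/-- The two claims `E` and `F` of the extension lemma. -/
theorem SM.ext_aux [RB cs] (h : SM cs u w m) (huw : Ble cs u w) {c : V B}
    (hc : LM cs u (m w) c)
    (H : m u = rf cs c * u ∨ lab cs m (rf cs c * u) = rho cs (rf cs c) (lab cs m u)) (n : ℕ) :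
    (∀ x, cs.length x = n → Ble cs u x → Ble cs x w → Up cs m x →
      cs.length x < cs.length (rf cs c * x) → Up cs m (rf cs c * x) →
      lab cs m (rf cs c * x) = rho cs (rf cs c) (lab cs m x)) ∧
    (∀ y, cs.length y = n → Ble cs u y → Ble cs y w → Up cs m y →
      cs.length (rf cs c * y) < cs.length y → Up cs m (rf cs c * y)) := by
  induction n using Nat.strong_induction_on with
  | _ n ih =>
  have hcp := hc.1
  have hwd : Ble cs (m w) w := h.hi w huw (Ble.refl cs w)
  have humw : Ble cs u (m w) := h.lo w huw (Ble.refl cs w)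
  have upmw : ∀ x, Ble cs u x → Ble cs x w → Up cs m x → Ble cs x (m w) :=
    fun x h1 h2 h3 => h.up_le h1 h2 h3
  have hucov := hc.cov_bot humw
  have lenc : ∀ x, Ble cs u x → Ble cs x (m w) → cs.length (rf cs c * x) = cs.length x + 1 ∨
      cs.length x = cs.length (rf cs c * x) + 1 := by
    intro x h1 h2
    rcases hc.cov_cases h1 h2 with h3 | h3
    · exact Or.inl h3.2
    · exact Or.inr h3.2
  -- if p ⋖ q below m w, with c p ≠ q then c p, c q comparable
  have covc : ∀ p q, Ble cs u p → Ble cs q (m w) → Cov cs p q → rf cs c * p ≠ q →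
      cs.length (rf cs c * q) = cs.length (rf cs c * p) + 1 →
      Cov cs (rf cs c * p) (rf cs c * q) := by
    intro p q h1 h2 h3 h4 h5
    rcases hc.2.sp p q h1 h2 h3 with h6 | h6
    · exact absurd h6 h4
    · exact ⟨h6, h5⟩
  have hF : ∀ y, cs.length y = n → Ble cs u y → Ble cs y w → Up cs m y →
      cs.length (rf cs c * y) < cs.length y → Up cs m (rf cs c * y) := by
    intro y hyn huy hyw hy hcy
    have hyu : y ≠ u := by
      rintro rfl
      have := hucov.2
      omega
    obtain ⟨y1, huy1, hy1y, hy1⟩ := h.m4 huy hyw hy hyu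
    have hl1 := hy1y.2
    have hy1w := hy1y.le.trans hyw
    have hymw := upmw y huy hyw hy
    have hy1mw := upmw y1 huy1 hy1w hy1
    by_cases h1c : cs.length y1 < cs.length (rf cs c * y1)
    · have h2 := hc.m5 huy1 hymw hy1y h1c hcy
      rw [← h2, rf_cancel hcp.1]
      exact hy1
    · have hlc1 := lenc y1 huy1 hy1mw
      have hlc := lenc y huy hymw
      have hz1 : Up cs m (rf cs c * y1) :=
        (ih _ (by omega)).2 y1 rfl huy1 hy1w hy1 (by omega)
      have hzz : Cov cs (rf cs c * y1) (rf cs c * y) := by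
        refine covc y1 y huy1 hymw hy1y ?_ (by omega)
        intro h3
        rw [← h3, rf_cancel hcp.1] at hcy
        omega
      by_contra hz
      have huz1 := hc.lo huy1 hy1mw
      have hz1w := (hc.hi huy1 hy1mw).trans hwd
      have huz := hc.lo huy hymw
      have hzw := (hc.hi huy hymw).trans hwd
      have h3 : m (rf cs c * y1) = rf cs c * y := h.m5 huz1 hzw hzz hz1 hz
      have h4 := (ih (cs.length (rf cs c * y1)) (by omega)).1 (rf cs c * y1) rfl huz1 hz1w hz1
        (by rw [rf_cancel hcp.1]; omega) (by rw [rf_cancel hcp.1]; exact hy1)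
      have h5 := h.m_of_lab hcp huz1 hz1w (by rw [rf_cancel hcp.1]; exact huy1)
        (by rw [rf_cancel hcp.1]; exact hy1w) hz1 (by rw [rf_cancel hcp.1]; exact hy1) h4
      rw [rf_cancel hcp.1, h3, rf_cancel hcp.1] at h5
      exact (up_ne h5 (h.inv y1 huy1 hy1w) (by omega)) hy
  refine ⟨?_, hF⟩
  intro x hxn hux hxw hx hcx hxc
  by_cases hxu : x = u
  · subst hxu
    rcases H with h1 | h1
    · exfalso
      exact (up_ne h1 (h.inv x (Ble.refl cs x) huw) hcx) hxc
    · exact h1
  have hxmw := upmw x hux hxw hx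
  have hucx := hc.lo hux hxmw
  have hcxmw := hc.hi hux hxmw
  have hcxw := hcxmw.trans hwd
  have hlc := lenc x hux hxmw
  have hcovcx : Cov cs x (rf cs c * x) := by
    rcases hc.cov_cases hux hxmw with h1 | h1
    · exact h1
    · have := h1.2; omega
  have L0x := h.L0 (y := rf cs c * x) hux hcxw hcp rfl hcovcx hx hxc
  obtain ⟨hbx, hmx, _⟩ := h.lab_spec hux hxw hx
  obtain ⟨hbcx, hmcx, _⟩ := h.lab_spec hucx hcxw hxc
  -- Case 1
  have case1 : ∀ x0, Ble cs u x0 → Cov cs x0 x → Up cs m x0 →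
      cs.length x0 < cs.length (rf cs c * x0) →
      lab cs m (rf cs c * x) = rho cs (rf cs c) (lab cs m x) := by
    intro x0 hux0 hx0x hx0 hx0c
    have hl0 := hx0x.2
    have hx0w := hx0x.le.trans hxw
    have hx0mw := upmw x0 hux0 hx0w hx0
    obtain ⟨hb0, hm0, _⟩ := h.lab_spec hux0 hx0w hx0
    obtain ⟨τ, hτ, hτ1, _⟩ := hx0x.root
    have hne : rf cs c * x0 ≠ x := by
      intro h1
      rw [← h1, rf_cancel hcp.1] at hcx
      omega
    have hcτ : c ≠ τ := by
      rintro rfl
      exact hne hτ1.symm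
    have hlc0 := lenc x0 hux0 hx0mw
    have hcc : Cov cs (rf cs c * x0) (rf cs c * x) := covc x0 x hux0 hxmw hx0x hne (by omega)
    have L0' := h.L0 hux0 hxw hτ hτ1 hx0x hx0 hx
    have hucx0 := hc.lo hux0 hx0mw
    have hcx0w := (hc.hi hux0 hx0mw).trans hwd
    by_cases hcx0 : Up cs m (rf cs c * x0)
    · have hlab0 := (ih _ (by omega)).1 x0 rfl hux0 hx0w hx0 hx0c hcx0
      obtain ⟨σ, hσ, _, hσ2⟩ := exists_pr_rho hτ.1 (rf cs c)
      have hcxσ : rf cs c * x = rf cs σ * (rf cs c * x0) := by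
        rw [hσ2, hτ1, rf_inv hcp.1]
        simp only [mul_assoc]
        rw [rf_cancel hcp.1]
      have L0'' := h.L0 hucx0 hcxw hσ hcxσ hcc hcx0 hxc
      have hconj : rho cs (rf cs σ) (rho cs (rf cs c) (lab cs m x0)) =
          rho cs (rf cs c) (rho cs (rf cs τ) (lab cs m x0)) := by
        rw [← rho_mul, ← rho_mul, hσ2, rf_inv hcp.1]
        congr 2
        rw [mul_assoc, rf_mul_self hcp.1, mul_one]
      rw [hlab0, hconj] at L0''
      rcases L0x with h1 | h1
      · rcases L0' with h2 | h2 <;> rcases L0'' with h3 | h3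
        · rw [h3, h2]
        · -- b0 = c τ b0
          have h4 : lab cs m x0 = rho cs (rf cs c) (rho cs (rf cs τ) (lab cs m x0)) := by
            rw [← h3, h1, h2]
          have h5 : rho cs (rf cs c) (lab cs m x0) = rho cs (rf cs τ) (lab cs m x0) := by
            conv_lhs => rw [h4]
            rw [← rho_mul, rf_mul_self hcp.1, rho_one]
          by_cases h6 : rho cs (rf cs c) (lab cs m x0) = lab cs m x0
          · rw [h1, h2, h6]
          · exact absurd (rf_apply_inj hcp hτ h5 h6) hcτ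
        · have h5 : rho cs (rf cs c) (lab cs m x0) = rho cs (rf cs τ) (lab cs m x0) := by
            rw [← h3, h1, h2]
          by_cases h6 : rho cs (rf cs c) (lab cs m x0) = lab cs m x0
          · rw [h1, h2, ← h5, h6, h6]
          · exact absurd (rf_apply_inj hcp hτ h5 h6) hcτ
        · rw [h3, h2]
      · exact h1
    · have h1 : m x0 = rf cs c * x0 := by
        have hcov0 : Cov cs x0 (rf cs c * x0) := by
          rcases hc.cov_cases hux0 hx0mw with h2 | h2
          · exact h2
          · have := h2.2; omega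
        exact h.m5 hux0 hcx0w hcov0 hx0 hcx0
      have hb0c : lab cs m x0 = c := lab_eq hcp h1
      rw [hb0c] at L0'
      have hxc' : lab cs m x ≠ c := by
        intro h2
        rw [h2] at hmx
        exact (up_ne hmx (h.inv x hux hxw) hcx) hxc
      have hlx : lab cs m x = rho cs (rf cs τ) c := L0'.resolve_left hxc'
      rcases L0x with h2 | h2
      · exfalso
        have h3 : bil M τ c = 1 ∨ bil M τ c = -1 := by
          rcases pr_bil hτ hcp (Ne.symm hcτ) with h | h | h
          · exact Or.inr h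
          · exfalso
            rw [bil_comm] at h
            rw [rf_apply_eq hτ.1 h] at hlx
            exact hxc' hlx
          · exact Or.inl h
        rw [h2, hlx, rf_conj_mul hcp.1 hτ.1, hτ1] at hmcx
        rw [rf_braid5 hτ.1 hcp.1 h3, ← hτ1] at hmcx
        have h4 := (h.up_cov hucx hcxw hxc).2
        rw [hmcx] at h4
        omega
      · exact h2
  obtain ⟨x0, hux0, hx0x, hx0⟩ := h.m4 hux hxw hx hxu
  have hl0 := hx0x.2
  have hx0w := hx0x.le.trans hxw
  have hx0mw := upmw x0 hux0 hx0w hx0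
  by_cases hx0c : cs.length x0 < cs.length (rf cs c * x0)
  · exact case1 x0 hux0 hx0x hx0 hx0c
  -- Case 2
  have hlc0 := lenc x0 hux0 hx0mw
  obtain ⟨x1, hx1d⟩ : ∃ x1, x1 = rf cs c * x0 := ⟨_, rfl⟩
  have hx0d : x0 = rf cs c * x1 := by rw [hx1d, rf_cancel hcp.1]
  have hx1 : Up cs m x1 := by
    rw [hx1d]
    exact (ih _ (by omega)).2 x0 rfl hux0 hx0w hx0 (by omega)
  have hux1 : Ble cs u x1 := by rw [hx1d]; exact hc.lo hux0 hx0mw
  have hx1mw : Ble cs x1 (m w) := by rw [hx1d]; exact hc.hi hux0 hx0mw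
  have hx1w := hx1mw.trans hwd
  have hx10 : Cov cs x1 x0 := by
    rcases hc.cov_cases hux0 hx0mw with h1 | h1
    · have := h1.2; omega
    · rw [hx1d]; exact h1
  have hl1 := hx10.2
  obtain ⟨x2, h20, hx12, hx2x, _⟩ := thin hx10 hx0x
  have hl2 := hx12.2
  have hux2 := hux1.trans hx12.le
  have hx2w := hx2x.le.trans hxw
  have hx2mw := hx2x.le.trans hxmw
  have hx2c : cs.length x2 < cs.length (rf cs c * x2) := by
    by_contra hcon
    have hlc2 := lenc x2 hux2 hx2mw
    have h1 := hc.m5 hux1 hx2mw hx12 (by rw [← hx0d]; omega) (by omega)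
    rw [← hx0d] at h1
    exact h20 h1.symm
  by_cases hx2 : Up cs m x2
  · exact case1 x2 hux2 hx2x hx2 hx2c
  exfalso
  have hm1 : m x1 = x2 := h.m5 hux1 hx2w hx12 hx1 hx2
  obtain ⟨hb, hmb, _⟩ := h.lab_spec hux1 hx1w hx1
  obtain ⟨b, hbd⟩ : ∃ b, b = lab cs m x1 := ⟨_, rfl⟩
  rw [← hbd] at hb hmb
  rw [hm1] at hmb
  have hE1 := (ih (cs.length x1) (by omega)).1 x1 rfl hux1 hx1w hx1
    (by rw [← hx0d]; omega) (by rw [← hx0d]; exact hx0)
  rw [← hx0d, ← hbd] at hE1
  have hm0 : m x0 = rf cs c * x2 := by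
    have h1 := h.m_of_lab hcp hux1 hx1w (by rw [← hx0d]; exact hux0)
      (by rw [← hx0d]; exact hx0w) hx1 (by rw [← hx0d]; exact hx0)
      (by rw [← hx0d, ← hbd]; exact hE1)
    rw [← hx0d, hm1] at h1
    exact h1
  have hxm0 : x ≠ m x0 := by
    intro h1
    exact (up_ne h1.symm (h.inv x0 hux0 hx0w) (by omega)) hx
  obtain ⟨σ, hσ, hσ1, _⟩ := hx0x.root
  obtain ⟨σ2, hσ2, hσ21, _⟩ := hx2x.root
  have hbc : b ≠ c := by
    rintro rfl
    exact h20 (hmb.trans hx0d.symm)
  have hpl : rf cs σ * rf cs c = rf cs σ2 * rf cs b := by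
    have : rf cs σ * rf cs c * x1 = rf cs σ2 * rf cs b * x1 := by
      rw [mul_assoc, mul_assoc, ← hx0d, ← hmb, ← hσ1, ← hσ21]
    exact mul_right_cancel this
  have hσb' : rf cs σ = rf cs c * rf cs b * rf cs c → False := by
    intro h1
    apply hxm0
    rw [hm0, hmb, hσ1, h1]
    simp only [mul_assoc]
    rw [hx1d]
  rcases plane hb hcp hσ hσ2 hbc hpl with h1 | h1 | h1 | h1
  · -- σ = b
    rw [h1] at hσ1
    rcases pr_bil hb hcp hbc with h2 | h2 | h2
    · -- B = -1
      have L := h.L0 hux0 hxw hb hσ1 hx0x hx0 hx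
      rw [hE1] at L
      have e1 : rho cs (rf cs c) b = b + c := by
        rw [rho_rf hcp.1, h2]; module
      have e2 : rho cs (rf cs b) (rho cs (rf cs c) b) = c := by
        rw [e1, map_add, rho_rf_self hb.1, rho_rf hb.1, bil_comm M c b, h2]; module
      rcases L with h3 | h3
      · have hmx2 : m x = x2 := by
          rw [hmx, h3, rf_conj_mul hb.1 hcp.1, hσ1, hx0d, rf_braid5 hcp.1 hb.1
            (Or.inr (by rw [bil_comm]; exact h2)), ← hmb]
        have := (h.up_cov hux hxw hx).2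
        rw [hmx2] at this
        omega
      · rw [h3, e2] at hmx
        exact (up_ne hmx (h.inv x hux hxw) hcx) hxc
    · -- B = 0
      apply hxm0
      have h3 := rf_commute hb.1 hcp.1 h2
      rw [hm0, hmb, hσ1, hx0d, ← mul_assoc, h3, mul_assoc]
    · -- B = 1
      have L := h.L0 hux0 hxw hb hσ1 hx0x hx0 hx
      rw [hE1] at L
      have e1 : rho cs (rf cs c) b = b - c := by
        rw [rho_rf hcp.1, h2]; module
      have e2 : rho cs (rf cs b) (rho cs (rf cs c) b) = -c := by
        rw [e1, map_sub, rho_rf_self hb.1, rho_rf hb.1, bil_comm M c b, h2]; module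
      rcases L with h3 | h3
      · have hmx2 : m x = x2 := by
          rw [hmx, h3, rf_conj_mul hb.1 hcp.1, hσ1, hx0d, rf_braid5 hcp.1 hb.1
            (Or.inl (by rw [bil_comm]; exact h2)), ← hmb]
        have := (h.up_cov hux hxw hx).2
        rw [hmx2] at this
        omega
      · rw [e2] at h3
        rw [h3] at hbx
        exact hcp.not_neg hbx
  · rw [h1, hx0d, rf_cancel hcp.1] at hσ1
    rw [hσ1] at hl0
    omega
  · exact hσb' (by rw [h1, rf_conj hb.1, rf_inv hcp.1])
  · exact hσb' (by rw [h1, rf_neg (hb.1.rho _), rf_conj hb.1, rf_inv hcp.1])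

/-- Lemma 2 (extension). -/
theorem SM.ext [RB cs] (h : SM cs u w m) (huw : Ble cs u w) {c : V B}
    (hc : LM cs u (m w) c)
    (H : m u = rf cs c * u ∨ lab cs m (rf cs c * u) = rho cs (rf cs c) (lab cs m u)) :
    LM cs u w c := by
  have hcp := hc.1
  have hwd : Ble cs (m w) w := h.hi w huw (Ble.refl cs w)
  have humw : Ble cs u (m w) := h.lo w huw (Ble.refl cs w)
  have upmw : ∀ x, Ble cs u x → Ble cs x w → Up cs m x → Ble cs x (m w) :=
    fun x h1 h2 h3 => h.up_le h1 h2 h3
  have hE : ∀ x, Ble cs u x → Ble cs x w → Up cs m x →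
      cs.length x < cs.length (rf cs c * x) → Up cs m (rf cs c * x) →
      m (rf cs c * x) = rf cs c * m x := by
    intro x h1 h2 h3 h4 h5
    have h6 := (h.ext_aux huw hc H _).1 x rfl h1 h2 h3 h4 h5
    have h7 := upmw x h1 h2 h3
    exact h.m_of_lab hcp h1 h2 (hc.lo h1 h7) ((hc.hi h1 h7).trans hwd) h3 h5 h6
  have hF : ∀ y, Ble cs u y → Ble cs y w → Up cs m y →
      cs.length (rf cs c * y) < cs.length y → Up cs m (rf cs c * y) :=
    fun y => (h.ext_aux huw hc H _).2 y rfl
  have lenc : ∀ x, Ble cs u x → Ble cs x (m w) → cs.length (rf cs c * x) = cs.length x + 1 ∨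
      cs.length x = cs.length (rf cs c * x) + 1 := by
    intro x h1 h2
    rcases hc.cov_cases h1 h2 with h3 | h3
    · exact Or.inl h3.2
    · exact Or.inr h3.2
  -- behaviour on `m z`, `z` up
  have hdown : ∀ z, Ble cs u z → Ble cs z w → Up cs m z →
      cs.length (rf cs c * z) < cs.length z →
      rf cs c * m z = m (rf cs c * z) ∧ cs.length (m z) = cs.length (rf cs c * m z) + 1 := by
    intro z h1 h2 h3 h4
    have h5 := hF z h1 h2 h3 h4
    have h6 := upmw z h1 h2 h3
    have h7 := lenc z h1 h6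
    have h8 := hc.lo h1 h6
    have h9 := (hc.hi h1 h6).trans hwd
    have h10 := hE (rf cs c * z) h8 h9 h5 (by rw [rf_cancel hcp.1]; exact h4)
      (by rw [rf_cancel hcp.1]; exact h3)
    rw [rf_cancel hcp.1] at h10
    have h11 : rf cs c * m z = m (rf cs c * z) := by rw [h10, rf_cancel hcp.1]
    refine ⟨h11, ?_⟩
    rw [h11]
    have h12 := (h.up_cov h8 h9 h5).2
    have h13 := (h.up_cov h1 h2 h3).2
    omega
  have hup : ∀ z, Ble cs u z → Ble cs z w → Up cs m z → ¬ Ble cs (m z) (m w) →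
      cs.length z < cs.length (rf cs c * z) →
      Up cs m (rf cs c * z) ∧ rf cs c * m z = m (rf cs c * z) ∧
      cs.length (rf cs c * m z) = cs.length (m z) + 1 := by
    intro z h1 h2 h3 hnot h4
    have h6 := upmw z h1 h2 h3
    have h7 := lenc z h1 h6
    have h8 := hc.lo h1 h6
    have h9' := hc.hi h1 h6
    have h9 := h9'.trans hwd
    have h5 : Up cs m (rf cs c * z) := by
      by_contra hcon
      have hcov : Cov cs z (rf cs c * z) := by
        rcases hc.cov_cases h1 h6 with h | h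
        · exact h
        · have := h.2; omega
      have h10 := h.m5 h1 h9 hcov h3 hcon
      rw [h10] at hnot
      exact hnot h9'
    have h10 := hE z h1 h2 h3 h4 h5
    refine ⟨h5, h10.symm, ?_⟩
    rw [← h10]
    have h12 := (h.up_cov h8 h9 h5).2
    have h13 := (h.up_cov h1 h2 h3).2
    omega
  -- every p not below m w is m z with z up
  have hz : ∀ p, Ble cs u p → Ble cs p w → ¬ Ble cs p (m w) →
      ∃ z, Ble cs u z ∧ Ble cs z w ∧ Up cs m z ∧ m z = p ∧ ¬ Up cs m p ∧ m p = z := by
    intro p h1 h2 h3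
    have h4 : ¬ Up cs m p := fun h => h3 (upmw p h1 h2 h)
    exact ⟨m p, h.lo p h1 h2, h.hi p h1 h2, h.up_m h1 h2 h4, h.inv p h1 h2, h4, rfl⟩
  have hall : ∀ p, Ble cs u p → Ble cs p w →
      Ble cs u (rf cs c * p) ∧ Ble cs (rf cs c * p) w ∧
      (cs.length (rf cs c * p) = cs.length p + 1 ∨ cs.length p = cs.length (rf cs c * p) + 1) := by
    intro p h1 h2
    by_cases h3 : Ble cs p (m w)
    · exact ⟨hc.lo h1 h3, (hc.hi h1 h3).trans hwd, lenc p h1 h3⟩
    · obtain ⟨z, hz1, hz2, hz3, hz4, hz5, hz6⟩ := hz p h1 h2 h3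
      have hzmw := upmw z hz1 hz2 hz3
      have h7 := hc.lo hz1 hzmw
      have h8 := (hc.hi hz1 hzmw).trans hwd
      rcases lt_or_ge (cs.length z) (cs.length (rf cs c * z)) with h4 | h4
      · obtain ⟨h5, h6, h9⟩ := hup z hz1 hz2 hz3 (by rw [hz4]; exact h3) h4
        rw [hz4] at h6 h9
        rw [h6] at h9 ⊢
        exact ⟨h.lo _ h7 h8, h.hi _ h7 h8, Or.inl h9⟩
      · have h4' : cs.length (rf cs c * z) < cs.length z := by
          have := lenc z hz1 hzmw; omega
        obtain ⟨h6, h9⟩ := hdown z hz1 hz2 hz3 h4'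
        rw [hz4] at h6 h9
        rw [h6] at h9 ⊢
        exact ⟨h.lo _ h7 h8, h.hi _ h7 h8, Or.inr h9⟩
  refine LM.mk' hcp (fun y h1 h2 => (hall y h1 h2).1) (fun y h1 h2 => (hall y h1 h2).2.1)
    (fun y h1 h2 => (hall y h1 h2).2.2) ?_
  intro p q hup1 hqw hpq hpc hqc
  by_cases hq : Ble cs q (m w)
  · exact hc.m5 hup1 hq hpq hpc hqc
  · have huq := hup1.trans hpq.le
    have hpw := hpq.le.trans hqw
    obtain ⟨z2, hz1, hz2, hz3, hz4, hz5, hz6⟩ := hz q huq hqw hq
    have hz2mw := upmw z2 hz1 hz2 hz3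
    have hz2c : cs.length (rf cs c * z2) < cs.length z2 := by
      by_contra hcon
      have h1 := lenc z2 hz1 hz2mw
      obtain ⟨_, _, h3⟩ := hup z2 hz1 hz2 hz3 (by rw [hz4]; exact hq) (by omega)
      rw [hz4] at h3
      omega
    rcases h.sp p q hup1 hqw hpq with h1 | h1
    · -- p = z2
      exfalso
      have h2 : p = z2 := by rw [← hz6, ← h1, h.inv p hup1 hpw]
      rw [h2] at hpc
      omega
    · rw [hz6] at h1
      have hlz2 := (h.up_cov hz1 hz2 hz3).2
      rw [hz4] at hlz2
      have hlpq := hpq.2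
      have hpd : ¬ Up cs m p := by
        intro h2
        have h3 := (h.up_cov hup1 hpw h2).2
        have h4 := h1.length_le
        omega
      have hz1d := h.down_cov hup1 hpw hpd
      have hz1u := h.up_m hup1 hpw hpd
      have hlz1 := hz1d.2
      have huz1 := h.lo p hup1 hpw
      have hz1w := h.hi p hup1 hpw
      have hcov12 : Cov cs (m p) z2 := ⟨h1, by omega⟩
      have hz1mw := upmw _ huz1 hz1w hz1u
      have hz1c : cs.length (m p) < cs.length (rf cs c * m p) := by
        by_contra hcon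
        have h3 := lenc _ huz1 hz1mw
        obtain ⟨_, h4⟩ := hdown (m p) huz1 hz1w hz1u (by omega)
        rw [h.inv p hup1 hpw] at h4
        omega
      have h5 := hc.m5 huz1 hz2mw hcov12 hz1c hz2c
      have h6 := hE (m p) huz1 hz1w hz1u hz1c (by rw [h5]; exact hz3)
      rw [h5, hz4, h.inv p hup1 hpw] at h6
      exact h6.symm

end

end Pool.Agent.Zir
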