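import Pool.Agent.Zir.Bru

/-! # Root facts for finite simply laced systems -/

namespace Pool.Agent.Zir

set_option linter.unusedSimpArgs false
set_option linter.unusedVariables false
set_option linter.unusedSectionVars false

noncomputable section

variable {B W : Type*} [Group W] {M : CoxeterMatrix B} [SL M] {cs : CoxeterSystem M W}

theorem no_two_finite [Finite W] {v v' : V B} (hv : IsRoot cs v) (hv' : IsRoot cs v')
    (hk : 2 ≤ bil M v v') : v = v' := by
  by_contra hne
  obtain ⟨g, hg⟩ : ∃ g, g = rf cs v * rf cs v' := ⟨_, rfl⟩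
  obtain ⟨k, hkd⟩ : ∃ k, k = bil M v v' := ⟨_, rfl⟩
  rw [← hkd] at hk
  have hv2 := hv.bil_self
  have hv2' := hv'.bil_self
  have hkd' : bil M v' v = k := by rw [bil_comm]; exact hkd.symm
  have hgv : rho cs g v = (k * k - 1) • v - k • v' := by
    rw [hg, rho_mul, rho_rf hv', rho_rf hv, map_sub, map_smul, LinearMap.sub_apply,
      LinearMap.smul_apply, hv2, hkd', ← hkd]
    simp only [smul_eq_mul]
    module
  have hgv' : rho cs g v' = k • v - v' := by
    rw [hg, rho_mul, rho_rf_self hv', map_neg, rho_rf hv, hkd']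
    module
  have key : ∀ n : ℕ, ∃ p q : ℤ, rho cs (g ^ (n + 1)) v' = p • v + q • v' ∧ q ≤ -1 ∧ 1 ≤ p + q := by
    intro n
    induction n with
    | zero =>
      refine ⟨k, -1, ?_, le_rfl, by omega⟩
      rw [zero_add, pow_one, hgv']
      module
    | succ n ih =>
      obtain ⟨p, q, h1, h2, h3⟩ := ih
      refine ⟨(k * k - 1) * p + k * q, -(k * p) - q, ?_, ?_, ?_⟩
      · rw [pow_succ', rho_mul, h1, map_add, map_smul, map_smul, hgv, hgv']
        module
      · nlinarith
      · have ha : 0 ≤ (k - 2) * (p + q - 1) := mul_nonneg (by omega) (by omega)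
        have hb : 0 ≤ (k * (k - 2)) * p := mul_nonneg (mul_nonneg (by omega) (by omega)) (by omega)
        nlinarith
  obtain ⟨n, hn, hn1⟩ : ∃ n, 0 < n ∧ g ^ n = 1 := by
    have := isOfFinOrder_of_finite g
    exact (isOfFinOrder_iff_pow_eq_one.mp this)
  obtain ⟨m, rfl⟩ : ∃ m, n = m + 1 := ⟨n - 1, by omega⟩
  obtain ⟨p, q, h1, h2, h3⟩ := key m
  rw [hn1, rho_one] at h1
  have h4 : (1 - q) • v' = p • v := by
    have : v' - (p • v + q • v') = 0 := by rw [← h1]; module
    have h5 : (1 - q) • v' - p • v = 0 := by rw [← this]; module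
    exact sub_eq_zero.mp h5
  rcases eq_of_two_smul hv' hv (by omega) h4 with h5 | h5
  · exact hne h5.symm
  · have h6 : bil M v v' = -2 := by rw [h5, map_neg, hv2]
    omega

/-- The only consequence of finiteness that is used: two different roots have pairing at
most one. -/
class RB (cs : CoxeterSystem M W) : Prop where
  bound : ∀ v v' : V B, IsRoot cs v → IsRoot cs v' → 2 ≤ bil M v v' → v = v'

theorem rb_of_finite [Finite W] : RB cs := ⟨fun _ _ hv hv' h => no_two_finite hv hv' h⟩

lemma no_two [RB cs] {v v' : V B} (hv : IsRoot cs v) (hv' : IsRoot cs v')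
    (hk : 2 ≤ bil M v v') : v = v' := RB.bound v v' hv hv' hk

lemma root_bil_le [RB cs] {v v' : V B} (hv : IsRoot cs v) (hv' : IsRoot cs v') :
    bil M v v' ≤ 2 := by
  by_contra h
  have h1 := no_two hv hv' (by omega)
  rw [h1, hv'.bil_self] at h
  omega

lemma root_bil_ge [RB cs] {v v' : V B} (hv : IsRoot cs v) (hv' : IsRoot cs v') :
    -2 ≤ bil M v v' := by
  have := root_bil_le hv.neg hv'
  rw [map_neg, LinearMap.neg_apply] at this
  omega

lemma root_bil_neg_two [RB cs] {v v' : V B} (hv : IsRoot cs v) (hv' : IsRoot cs v')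
    (h : bil M v v' ≤ -2) : v = -v' := by
  have h1 := no_two hv.neg hv' (by rw [map_neg, LinearMap.neg_apply]; omega)
  rw [← h1, neg_neg]

lemma pr_bil [RB cs] {v v' : V B} (hv : PR cs v) (hv' : PR cs v') (hne : v ≠ v') :
    bil M v v' = -1 ∨ bil M v v' = 0 ∨ bil M v v' = 1 := by
  have h1 : ¬ 2 ≤ bil M v v' := fun h => hne (no_two hv.1 hv'.1 h)
  have h2 : ¬ bil M v v' ≤ -2 := fun h => hv.ne_neg hv' (root_bil_neg_two hv.1 hv'.1 h)
  omega

/-- (A1) -/
lemma rf_apply_inj {s t b : V B} (hs : PR cs s) (ht : PR cs t)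
    (h : rho cs (rf cs s) b = rho cs (rf cs t) b) (hne : rho cs (rf cs s) b ≠ b) : s = t := by
  rw [rho_rf hs.1] at h hne
  rw [rho_rf ht.1] at h
  have h1 : bil M b s • s = bil M b t • t := by
    have h3 : b - (b - bil M b s • s) = b - (b - bil M b t • t) := by rw [h]
    simpa using h3
  have h2 : bil M b s ≠ 0 := by
    intro h3
    rw [h3] at hne
    exact hne (by simp)
  rcases eq_of_two_smul hs.1 ht.1 h2 h1 with h3 | h3
  · exact h3
  · exact absurd h3 (hs.ne_neg ht)

lemma rf_apply_ne {s b : V B} (hs : IsRoot cs s) (h : bil M b s ≠ 0) :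
    rho cs (rf cs s) b ≠ b := by
  rw [rho_rf hs]
  intro h1
  have h2 : bil M b s • s = 0 := by
    have h3 : b - (b - bil M b s • s) = b - b := by rw [h1]
    simpa using h3
  rcases smul_eq_zero.mp h2 with h3 | h3
  · exact h h3
  · exact hs.ne_zero h3

lemma rf_apply_eq {s b : V B} (hs : IsRoot cs s) (h : bil M b s = 0) :
    rho cs (rf cs s) b = b := by
  rw [rho_rf hs, h, zero_smul, sub_zero]

lemma rf_commute {s t : V B} (hs : IsRoot cs s) (ht : IsRoot cs t) (h : bil M s t = 0) :
    rf cs s * rf cs t = rf cs t * rf cs s := by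
  refine rho_eq_of (cs := cs) fun x => ?_
  rw [rho_mul, rho_mul, rho_rf ht, rho_rf hs, rho_rf hs, rho_rf ht]
  simp only [← sig_apply]
  exact sig_comm h x

/-- (A2) -/
lemma rf_braid {s t : V B} (hs : IsRoot cs s) (ht : IsRoot cs t)
    (h : bil M s t = 1 ∨ bil M s t = -1) :
    rf cs s * rf cs t * rf cs s = rf cs t * rf cs s * rf cs t := by
  refine rho_eq_of (cs := cs) fun x => ?_
  simp only [rho_mul, rho_rf hs, rho_rf ht]
  simp only [← sig_apply]
  exact sig_braid hs.bil_self ht.bil_self h x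

/-- (R2), the plane lemma -/
theorem plane [RB cs] {b t b' t' : V B} (hb : PR cs b) (ht : PR cs t) (hb' : PR cs b')
    (ht' : PR cs t') (hbt : b ≠ t) (h : rf cs b' * rf cs t = rf cs t' * rf cs b) :
    b' = b ∨ b' = t ∨ b' = rho cs (rf cs t) b ∨ b' = -(rho cs (rf cs t) b) := by
  have hop : ∀ x, rho cs (rf cs b') (rho cs (rf cs t) x) = rho cs (rf cs t') (rho cs (rf cs b) x) := by
    intro x
    rw [← rho_mul, h, rho_mul]
  have hcc : ∀ {r : V B} (hr : IsRoot cs r) (x : V B), rho cs (rf cs r) (rho cs (rf cs r) x) = x := by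
    intro r hr x
    rw [← rho_mul, rf_mul_self hr, rho_one]
  -- names
  obtain ⟨c, hc⟩ : ∃ c, c = bil M b' t' := ⟨_, rfl⟩
  have hc' : bil M t' b' = c := by rw [bil_comm]; exact hc.symm
  by_cases hbt' : b' = t'
  · exfalso
    rw [hbt'] at h
    exact hbt (rf_inj hb ht (mul_left_cancel h).symm)
  have hc2 := pr_bil hb' ht' hbt'
  rw [← hc] at hc2
  -- eq1
  have e1 : (2 : ℤ) • b' = c • t' + bil M b' t • t + bil M (rho cs (rf cs t) b') b • b := by
    have h1 := hop (rho cs (rf cs t) b')
    rw [hcc ht.1, rho_rf_self hb'.1] at h1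
    have h2 : rho cs (rf cs t') (-b') = rho cs (rf cs b) (rho cs (rf cs t) b') := by
      rw [h1, hcc ht'.1]
    rw [map_neg, rho_rf ht'.1, ← hc, rho_rf hb.1] at h2
    have h3 : rho cs (rf cs t) b' = b' - bil M b' t • t := rho_rf ht.1 _
    have h4 : -(b' - c • t') = b' - bil M b' t • t - bil M (rho cs (rf cs t) b') b • b := by
      rw [h2]
      rw [← h3]
    have h5 : (b' - bil M b' t • t - bil M (rho cs (rf cs t) b') b • b) - (-(b' - c • t')) = 0 := by
      rw [h4, sub_self]
    have h6 : (2 : ℤ) • b' - (c • t' + bil M b' t • t + bil M (rho cs (rf cs t) b') b • b) = 0 := by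
      rw [← h5]; module
    exact sub_eq_zero.mp h6
  have e2 : (2 : ℤ) • t' = c • b' + bil M t' b • b + bil M (rho cs (rf cs b) t') t • t := by
    have h1 := hop (rho cs (rf cs b) t')
    rw [hcc hb.1, rho_rf_self ht'.1] at h1
    have h2 : rho cs (rf cs b') (-t') = rho cs (rf cs t) (rho cs (rf cs b) t') := by
      rw [← h1, hcc hb'.1]
    rw [map_neg, rho_rf hb'.1, hc', rho_rf ht.1] at h2
    have h3 : rho cs (rf cs b) t' = t' - bil M t' b • b := rho_rf hb.1 _
    have h4 : -(t' - c • b') = t' - bil M t' b • b - bil M (rho cs (rf cs b) t') t • t := by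
      rw [h2]
      rw [← h3]
    have h5 : (t' - bil M t' b • b - bil M (rho cs (rf cs b) t') t • t) - (-(t' - c • b')) = 0 := by
      rw [h4, sub_self]
    have h6 : (2 : ℤ) • t' - (c • b' + bil M t' b • b + bil M (rho cs (rf cs b) t') t • t) = 0 := by
      rw [← h5]; module
    exact sub_eq_zero.mp h6
  obtain ⟨k, a, d, hk, hkab⟩ : ∃ k a d : ℤ, k ≠ 0 ∧ k • b' = a • b + d • t := by
    refine ⟨4 - c * c, c * bil M t' b + 2 * bil M (rho cs (rf cs t) b') b,
      c * bil M (rho cs (rf cs b) t') t + 2 * bil M b' t, ?_, ?_⟩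
    · rcases hc2 with h | h | h <;> rw [h] <;> norm_num
    · have h1 : (4 : ℤ) • b' = c • ((2 : ℤ) • t') + (2 * bil M b' t) • t +
          (2 * bil M (rho cs (rf cs t) b') b) • b := by
        have : (4 : ℤ) • b' = (2 : ℤ) • ((2 : ℤ) • b') := by module
        rw [this, e1]; module
      rw [e2] at h1
      have h2 : (4 : ℤ) • b' - (c * c) • b' = c • (c • b' + bil M t' b • b +
          bil M (rho cs (rf cs b) t') t • t) + (2 * bil M b' t) • t +
          (2 * bil M (rho cs (rf cs t) b') b) • b - (c * c) • b' := by rw [h1]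
      calc (4 - c * c) • b' = (4 : ℤ) • b' - (c * c) • b' := by module
        _ = _ := h2
        _ = _ := by module
  obtain ⟨ε, hε⟩ : ∃ ε, ε = bil M b t := ⟨_, rfl⟩
  obtain ⟨m, hm⟩ : ∃ m, m = bil M b' b := ⟨_, rfl⟩
  obtain ⟨n, hn⟩ : ∃ n, n = bil M b' t := ⟨_, rfl⟩
  have hε' : bil M t b = ε := by rw [bil_comm]; exact hε.symm
  have hm2 : -2 ≤ m ∧ m ≤ 2 := ⟨hm ▸ root_bil_ge hb'.1 hb.1, hm ▸ root_bil_le hb'.1 hb.1⟩
  have hn2 : -2 ≤ n ∧ n ≤ 2 := ⟨hn ▸ root_bil_ge hb'.1 ht.1, hn ▸ root_bil_le hb'.1 ht.1⟩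
  have q1 : k * m = 2 * a + ε * d := by
    have h1 : bil M (k • b') b = bil M (a • b + d • t) b := by rw [hkab]
    simp only [map_add, map_smul, LinearMap.add_apply, LinearMap.smul_apply, smul_eq_mul,
      hb.bil_self, hε', ← hm] at h1
    linarith
  have q2 : k * n = ε * a + 2 * d := by
    have h1 : bil M (k • b') t = bil M (a • b + d • t) t := by rw [hkab]
    simp only [map_add, map_smul, LinearMap.add_apply, LinearMap.smul_apply, smul_eq_mul,
      ht.bil_self, ← hε, ← hn] at h1
    linarith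
  have q3 : k * k * 2 = 2 * a * a + 2 * ε * a * d + 2 * d * d := by
    have h1 : bil M (k • b') (k • b') = bil M (a • b + d • t) (a • b + d • t) := by rw [hkab]
    simp only [map_add, map_smul, LinearMap.add_apply, LinearMap.smul_apply, smul_eq_mul,
      hb.bil_self, ht.bil_self, hb'.bil_self, ← hε, hε'] at h1
    linarith
  have hkk : k * k ≠ 0 := mul_ne_zero hk hk
  have fin : (m = 2 ∨ m = -2) ∨ (n = 2 ∨ n = -2) ∨ (m - ε * n = 2 ∨ m - ε * n = -2) := by
    rcases pr_bil hb ht hbt with h1 | h1 | h1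
    · rw [← hε] at h1
      rw [h1] at q1 q2 q3 ⊢
      have h2 : k * k * (m * m + m * n + n * n) = k * k * 3 := by
        have ha : 3 * a = k * (2 * m + n) := by linarith
        have hd : 3 * d = k * (2 * n + m) := by linarith
        have h3 : (k * k * 2) * 9 = 2 * (3 * a) * (3 * a) - 2 * (3 * a) * (3 * d) +
          2 * (3 * d) * (3 * d) := by rw [q3]; ring
        rw [ha, hd] at h3
        nlinarith
      have h3 := mul_left_cancel₀ hkk h2
      obtain ⟨hm3, hm4⟩ := hm2
      obtain ⟨hn3, hn4⟩ := hn2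
      clear hm hn
      interval_cases m <;> interval_cases n <;> omega
    · rw [← hε] at h1
      rw [h1] at q1 q2 q3 ⊢
      have h2 : k * k * (m * m + n * n) = k * k * 4 := by
        have ha : 2 * a = k * m := by linarith
        have hd : 2 * d = k * n := by linarith
        have h3 : (k * k * 2) * 4 = 2 * (2 * a) * (2 * a) + 2 * (2 * d) * (2 * d) := by
          rw [q3]; ring
        rw [ha, hd] at h3
        nlinarith
      have h3 := mul_left_cancel₀ hkk h2
      obtain ⟨hm3, hm4⟩ := hm2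
      obtain ⟨hn3, hn4⟩ := hn2
      clear hm hn
      interval_cases m <;> interval_cases n <;> omega
    · rw [← hε] at h1
      rw [h1] at q1 q2 q3 ⊢
      have h2 : k * k * (m * m - m * n + n * n) = k * k * 3 := by
        have ha : 3 * a = k * (2 * m - n) := by linarith
        have hd : 3 * d = k * (2 * n - m) := by linarith
        have h3 : (k * k * 2) * 9 = 2 * (3 * a) * (3 * a) + 2 * (3 * a) * (3 * d) +
          2 * (3 * d) * (3 * d) := by rw [q3]; ring
        rw [ha, hd] at h3
        nlinarith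
      have h3 := mul_left_cancel₀ hkk h2
      obtain ⟨hm3, hm4⟩ := hm2
      obtain ⟨hn3, hn4⟩ := hn2
      clear hm hn
      interval_cases m <;> interval_cases n <;> omega
  rcases fin with h1 | h1 | h1
  · left
    rcases h1 with h1 | h1
    · exact no_two hb'.1 hb.1 (by omega)
    · exact absurd (root_bil_neg_two hb'.1 hb.1 (by omega)) (hb'.ne_neg hb)
  · right; left
    rcases h1 with h1 | h1
    · exact no_two hb'.1 ht.1 (by omega)
    · exact absurd (root_bil_neg_two hb'.1 ht.1 (by omega)) (hb'.ne_neg ht)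
  · right; right
    have h2 : bil M b' (rho cs (rf cs t) b) = m - ε * n := by
      rw [rho_rf ht.1, map_sub, map_smul, ← hm, ← hn, ← hε, smul_eq_mul]
    rcases h1 with h1 | h1
    · left
      exact no_two hb'.1 (hb.1.rho _) (by omega)
    · right
      exact root_bil_neg_two hb'.1 (hb.1.rho _) (by omega)

end

end Pool.Agent.Zir
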