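import Pool.Agent.Zir.Defs

/-! # The geometric representation of a simply laced Coxeter system (over `ℤ`) -/

namespace Pool.Agent.Zir

set_option linter.unusedSimpArgs false
set_option linter.unusedVariables false
set_option linter.unusedSectionVars false

noncomputable section

variable {B : Type*}

/-- The root lattice. -/
abbrev V (B : Type*) := B →₀ ℤ

/-- The simple root of `i`. -/
def e (i : B) : V B := Finsupp.single i 1

/-- Cartan integers of a (simply laced) Coxeter matrix. -/
def cart (M : CoxeterMatrix B) (i j : B) : ℤ :=
  if M i j = 1 then 2 else if M i j = 3 then -1 else 0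

/-- The invariant form. -/
def bil (M : CoxeterMatrix B) : V B →ₗ[ℤ] V B →ₗ[ℤ] ℤ :=
  Finsupp.linearCombination ℤ (fun i => Finsupp.linearCombination ℤ (fun j => cart M i j))

variable (M : CoxeterMatrix B)

lemma cart_symm (i j : B) : cart M i j = cart M j i := by
  simp only [cart, M.symmetric i j]

lemma bil_e_e (i j : B) : bil M (e i) (e j) = cart M i j := by
  simp [bil, e]

lemma bil_e_self (i : B) : bil M (e i) (e i) = 2 := by
  simp [bil_e_e, cart]

lemma bil_comm (x y : V B) : bil M x y = bil M y x := by
  have h : bil M = (bil M).flip := by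
    refine Finsupp.lhom_ext' fun i => ?_
    refine LinearMap.ext_ring ?_
    refine Finsupp.lhom_ext' fun j => ?_
    refine LinearMap.ext_ring ?_
    have h1 := bil_e_e M i j
    have h2 := bil_e_e M j i
    have h3 := cart_symm M i j
    simp only [e] at h1 h2
    simp only [LinearMap.coe_comp, Function.comp_apply, Finsupp.lsingle_apply,
      LinearMap.flip_apply, h1, h2, h3]
  exact congrArg (fun f => f x y) h

/-- The reflection operator `v ↦ v - B(v,r) r`. -/
def sig (r : V B) : Module.End ℤ (V B) :=
  LinearMap.id - ((bil M).flip r).smulRight r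

lemma sig_apply (r v : V B) : sig M r v = v - bil M v r • r := by
  simp [sig]

variable {M}

lemma sig_sig {r : V B} (hr : bil M r r = 2) (v : V B) : sig M r (sig M r v) = v := by
  simp only [sig_apply, map_sub, map_smul, LinearMap.sub_apply, LinearMap.smul_apply, hr,
    smul_eq_mul]
  module

lemma sig_self {r : V B} (hr : bil M r r = 2) : sig M r r = -r := by
  simp only [sig_apply, hr]
  module

lemma bil_sig {r : V B} (hr : bil M r r = 2) (x y : V B) :
    bil M (sig M r x) (sig M r y) = bil M x y := by
  simp only [sig_apply, map_sub, map_smul, LinearMap.sub_apply, LinearMap.smul_apply, hr,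
    smul_eq_mul, bil_comm M r y]
  ring

lemma sig_comm {r t : V B} (h : bil M r t = 0) (v : V B) :
    sig M r (sig M t v) = sig M t (sig M r v) := by
  have h' : bil M t r = 0 := by rw [bil_comm]; exact h
  simp only [sig_apply, map_sub, map_smul, LinearMap.sub_apply, LinearMap.smul_apply, h, h',
    smul_eq_mul]
  module

lemma sig_braid {r t : V B} (hr : bil M r r = 2) (ht : bil M t t = 2)
    (h : bil M r t = 1 ∨ bil M r t = -1) (v : V B) :
    sig M r (sig M t (sig M r v)) = sig M t (sig M r (sig M t v)) := by
  have h' : bil M t r = bil M r t := bil_comm _ _ _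
  simp only [sig_apply, map_sub, map_smul, LinearMap.sub_apply, LinearMap.smul_apply, h', hr, ht,
    smul_eq_mul]
  rcases h with h | h <;> simp only [h] <;> module

variable (M)

lemma liftable [SL M] : M.IsLiftable (fun i => sig M (e i)) := by
  intro i j
  rcases SL.prop (M := M) i j with h | h | h
  · have hij : i = j := by
      by_contra hne
      exact M.off_diagonal i j hne h
    subst hij
    rw [h, pow_one]
    exact LinearMap.ext fun v => sig_sig (bil_e_self M i) v
  · have hc : bil M (e i) (e j) = 0 := by
      rw [bil_e_e, cart, if_neg (by omega), if_neg (by omega)]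
    rw [h, pow_two]
    refine LinearMap.ext fun v => ?_
    simp only [Module.End.mul_apply]
    rw [← sig_comm hc (sig M (e j) v), sig_sig (bil_e_self M i), sig_sig (bil_e_self M j)]
    rfl
  · have hc : bil M (e i) (e j) = -1 := by
      rw [bil_e_e, cart, if_neg (by omega), if_pos h]
    rw [h]
    refine LinearMap.ext fun v => ?_
    simp only [pow_succ, pow_zero, one_mul, Module.End.mul_apply]
    rw [sig_braid (bil_e_self M i) (bil_e_self M j) (Or.inr hc) (sig M (e j) (sig M (e i)
      (sig M (e j) v))), sig_sig (bil_e_self M j), sig_sig (bil_e_self M i),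
      sig_sig (bil_e_self M j)]
    rfl

section rep

variable {M} {W : Type*} [Group W] [SL M] (cs : CoxeterSystem M W)

/-- The geometric representation. -/
def rho : W →* Module.End ℤ (V B) := cs.lift ⟨fun i => sig M (e i), liftable M⟩

lemma rho_simple (i : B) : rho cs (cs.simple i) = sig M (e i) :=
  cs.lift_apply_simple (liftable M) i

lemma rho_mul (w w' : W) (v : V B) : rho cs (w * w') v = rho cs w (rho cs w' v) := by
  rw [map_mul]; rfl

lemma rho_one (v : V B) : rho cs 1 v = v := by
  rw [map_one]; rfl

@[simp] lemma rho_inv_rho (w : W) (v : V B) : rho cs w⁻¹ (rho cs w v) = v := by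
  rw [← rho_mul, inv_mul_cancel, rho_one]

@[simp] lemma rho_rho_inv (w : W) (v : V B) : rho cs w (rho cs w⁻¹ v) = v := by
  rw [← rho_mul, mul_inv_cancel, rho_one]

lemma bil_rho (w : W) (x y : V B) : bil M (rho cs w x) (rho cs w y) = bil M x y := by
  induction w using cs.simple_induction_left generalizing x y with
  | one => rw [rho_one, rho_one]
  | mul_simple_left w i ih => 
    rw [rho_mul, rho_mul, rho_simple, bil_sig (bil_e_self M i), ih]

lemma rho_e_self (i : B) : rho cs (cs.simple i) (e i) = -e i := by
  rw [rho_simple, sig_self (bil_e_self M i)]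

/-- Tits' theorem: if `ℓ(w s_i) > ℓ(w)` then `w α_i ≥ 0`. -/
theorem tits (n : ℕ) : ∀ (w : W), cs.length w = n → ∀ i : B, n < cs.length (w * cs.simple i) →
    0 ≤ rho cs w (e i) := by
  induction n using Nat.strong_induction_on with
  | _ n ih =>
  intro w hw i hi
  by_cases hw1 : w = 1
  · subst hw1
    rw [rho_one]
    exact Finsupp.single_nonneg.mpr (by norm_num)
  · obtain ⟨j, hj⟩ := cs.exists_rightDescent_of_ne_one hw1
    have hj' : cs.length (w * cs.simple j) < n := by rw [← hw]; exact hj
    have hij : i ≠ j := by
      rintro rfl
      omega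
    have hl1 : cs.length (w * cs.simple j) + 1 = n := by
      rcases cs.length_mul_simple w j with h | h <;> omega
    obtain ⟨w1, hw1d⟩ : ∃ w1, w1 = w * cs.simple j := ⟨_, rfl⟩
    rw [← hw1d] at hl1 hj'
    have hwe : w = w1 * cs.simple j := by
      rw [hw1d, mul_assoc, cs.simple_mul_simple_self, mul_one]
    rcases SL.prop (M := M) i j with h | h | h
    · exact absurd h (M.off_diagonal i j hij)
    · -- commuting
      have hc : bil M (e i) (e j) = 0 := by
        rw [bil_e_e, cart, if_neg (by omega), if_neg (by omega)]
      have hcomm : cs.simple i * cs.simple j = cs.simple j * cs.simple i := by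
        have h1 := cs.simple_mul_simple_pow i j
        rw [h, pow_two] at h1
        have h2 : cs.simple i * cs.simple j = (cs.simple i * cs.simple j)⁻¹ := by
          rw [eq_inv_iff_mul_eq_one]; exact h1
        rw [h2, mul_inv_rev, cs.inv_simple, cs.inv_simple]
      have h3 : rho cs w (e i) = rho cs w1 (e i) := by
        rw [hwe, rho_mul, rho_simple, sig_apply, hc, zero_smul, sub_zero]
      rw [h3]
      refine ih _ hj' w1 rfl i ?_
      by_contra hcon
      have h4 : cs.length (w1 * cs.simple i) + 1 = cs.length w1 := by
        rcases cs.length_mul_simple w1 i with h | h <;> omega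
      have h5 : w * cs.simple i = w1 * cs.simple i * cs.simple j := by
        rw [hwe, mul_assoc, ← hcomm, ← mul_assoc]
      have h6 := cs.length_mul_simple (w1 * cs.simple i) j
      rw [← h5] at h6
      omega
    · have hc : bil M (e i) (e j) = -1 := by
        rw [bil_e_e, cart, if_neg (by omega), if_pos h]
      have hbraid : cs.simple j * cs.simple i * cs.simple j =
          cs.simple i * cs.simple j * cs.simple i := by
        have h1 := cs.simple_mul_simple_pow i j
        rw [h] at h1
        simp only [pow_succ, pow_zero, one_mul] at h1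
        have h2 : cs.simple i * cs.simple j * cs.simple i =
            (cs.simple j * cs.simple i * cs.simple j)⁻¹ := by
          rw [eq_inv_iff_mul_eq_one]
          simpa [mul_assoc] using h1
        rw [h2, mul_inv_rev, mul_inv_rev, cs.inv_simple, cs.inv_simple, mul_assoc]
      have h3 : rho cs w (e i) = rho cs w1 (e i) + rho cs w1 (e j) := by
        rw [hwe, rho_mul, rho_simple, sig_apply, hc]
        simp
      have h4 : 0 ≤ rho cs w1 (e j) := by
        refine ih _ hj' w1 rfl j ?_
        rw [← hwe, hw]
        exact hj'
      rcases cs.length_mul_simple w1 i with h5 | h5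
      · have h6 : 0 ≤ rho cs w1 (e i) := ih _ hj' w1 rfl i (by omega)
        rw [h3]
        exact add_nonneg h6 h4
      · obtain ⟨w2, hw2⟩ : ∃ w2, w2 = w1 * cs.simple i := ⟨_, rfl⟩
        rw [← hw2] at h5
        have hw1e : w1 = w2 * cs.simple i := by
          rw [hw2, mul_assoc, cs.simple_mul_simple_self, mul_one]
        have h7 : rho cs w (e i) = rho cs w2 (e j) := by
          rw [h3, ← map_add, hw1e, rho_mul, rho_simple, sig_apply, map_add, LinearMap.add_apply,
            bil_e_self, bil_comm, hc]
          congr 1
          module
        rw [h7]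
        refine ih _ (by omega) w2 rfl j ?_
        by_contra hcon
        have h8 : cs.length (w2 * cs.simple j) + 1 = cs.length w2 := by
          rcases cs.length_mul_simple w2 j with h | h <;> omega
        have h9 : w * cs.simple i = w2 * cs.simple j * cs.simple i * cs.simple j := by
          rw [hwe, hw1e]
          have := congrArg (fun x => w2 * cs.simple j * x) hbraid.symm
          calc w2 * cs.simple i * cs.simple j * cs.simple i
              = w2 * (cs.simple i * cs.simple j * cs.simple i) := by simp only [mul_assoc]
            _ = w2 * (cs.simple j * cs.simple i * cs.simple j) := by rw [hbraid]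
            _ = _ := by simp only [mul_assoc]
        have h10 := cs.length_mul_simple (w2 * cs.simple j) i
        have h11 := cs.length_mul_simple (w2 * cs.simple j * cs.simple i) j
        rw [← h9] at h11
        omega

lemma rho_nonneg {w : W} {i : B} (h : cs.length w < cs.length (w * cs.simple i)) :
    0 ≤ rho cs w (e i) := tits cs _ w rfl i h

lemma rho_nonpos {w : W} {i : B} (h : cs.length (w * cs.simple i) < cs.length w) :
    rho cs w (e i) ≤ 0 := by
  have h1 : 0 ≤ rho cs (w * cs.simple i) (e i) := by
    refine rho_nonneg cs ?_
    rw [mul_assoc, cs.simple_mul_simple_self, mul_one]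
    exact h
  rw [rho_mul, rho_e_self, map_neg] at h1
  exact neg_nonneg.mp h1

end rep

end

end Pool.Agent.Zir
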