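import Pool.Agent.Zir.Ctx

/-! # Lemma 3 -/

namespace Pool.Agent.Zir

set_option linter.unusedSimpArgs false
set_option linter.unusedVariables false
set_option linter.unusedSectionVars false

noncomputable section

open Classical

variable {B W : Type*} [Group W] {M : CoxeterMatrix B} [SL M] {cs : CoxeterSystem M W} {u : W}
  [RB cs] {x : W} {m : W → W} {ω : List (At cs u)}

lemma At.bil_ne {c d : At cs u} (h : c ≠ d) (h0 : bil M c.1 d.1 ≠ 0) :
    bil M c.1 d.1 = 1 ∨ bil M c.1 d.1 = -1 := by
  rcases pr_bil c.2.1 d.2.1 (fun h1 => h (Subtype.ext h1)) with h2 | h2 | h2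
  · exact Or.inr h2
  · exact absurd h2 h0
  · exact Or.inl h2

/-- reflections of non-orthogonal distinct positive roots do not commute -/
lemma rf_not_comm {s t : V B} (hs : PR cs s) (ht : PR cs t) (hne : s ≠ t)
    (h0 : bil M s t ≠ 0) : rf cs s * rf cs t ≠ rf cs t * rf cs s := by
  intro h
  have h1 : rf cs (rho cs (rf cs t) s) = rf cs s := by
    rw [rf_conj hs.1, rf_inv ht.1, ← h, mul_assoc, rf_mul_self ht.1, mul_one]
  have h3 := rf_apply_ne ht.1 h0
  rcases (hs.1.rho (rf cs t)).dich with h2 | h2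
  · exact h3 (rf_inj h2 hs h1)
  · have h4 : -(rho cs (rf cs t) s) = s := rf_inj h2 hs (by
      rw [rf_neg (hs.1.rho _)]; exact h1)
    rw [rho_rf ht.1] at h4
    have h5 : (2 : ℤ) • s = bil M s t • t := by
      have : -(s - bil M s t • t) - s = 0 := by rw [h4, sub_self]
      have h6 : (2 : ℤ) • s - bil M s t • t = 0 := by
        have h7 : (2 : ℤ) • s - bil M s t • t = -(-(s - bil M s t • t) - s) := by module
        rw [h7, this, neg_zero]
      exact sub_eq_zero.mp h6
    rcases eq_of_two_smul hs.1 ht.1 (by norm_num) h5 with h6 | h6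
    · exact hne h6
    · exact hs.ne_neg ht h6

lemma GW_fix_orth {e : V B} {l : List (At cs u)} (h : ∀ z ∈ l, bil M e z.1 = 0) :
    rho cs (GW cs u l) e = e := by
  induction l with
  | nil => rw [GW_nil, rho_one]
  | cons d l ih =>
    rw [GW_cons, rho_mul, ih (fun z hz => h z (List.mem_cons_of_mem _ hz))]
    exact rf_apply_eq d.2.1.1 (h d List.mem_cons_self)

/-- Pairing of the first letter of a chordless path with the transported last root. -/
lemma path_bil {e b : At cs u} {l : List (At cs u)} (h : NC (MA cs u) (e :: (l ++ [b]))) :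
    bil M e.1 (rho cs (GW cs u l) b.1) = 1 ∨ bil M e.1 (rho cs (GW cs u l) b.1) = -1 := by
  induction l generalizing e with
  | nil =>
    rw [GW_nil, rho_one]
    have h1 := h.1
    rw [MA_eq_three] at h1
    exact At.bil_ne h1.1 h1.2
  | cons d l ih =>
    have h1 := h.1
    rw [MA_eq_three] at h1
    have h2 := At.bil_ne h1.1 h1.2
    have h3 := ih h.2.2
    have h4 : ∀ z ∈ l ++ [b], bil M e.1 z.1 = 0 := fun z hz =>
      ((MA_eq_two cs u).mp (h.2.1 z hz)).2
    have h5 : bil M e.1 (rho cs (GW cs u l) b.1) = 0 := by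
      have h6 := GW_fix_orth (e := e.1) (l := l) (fun z hz => h4 z (List.mem_append_left _ hz))
      have h7 : bil M e.1 (rho cs (GW cs u l) b.1) =
          bil M (rho cs (GW cs u l) e.1) (rho cs (GW cs u l) b.1) := by rw [h6]
      rw [h7, bil_rho]
      exact h4 b (by simp)
    rw [GW_cons, rho_mul, rho_rf d.2.1.1, map_sub, h5, map_smul, smul_eq_mul, bil_comm M _ d.1]
    rcases h2 with h2 | h2 <;> rcases h3 with h3 | h3 <;> rw [h2, h3] <;> norm_num

namespace Ctx

/-- the path case -/
lemma qpath (C : Ctx cs u x m ω) {c b : At cs u} {l : List (At cs u)}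
    (hs : (c :: (l ++ [b])).Sublist ω) (hnc : NC (MA cs u) (c :: (l ++ [b]))) (hc : C.JL c)
    (hb : C.JR b) (h : ∀ z ∈ l, C.J0 z) : False := by
  have hn := hnc.nodup
  have s1 : (l ++ [b]).Sublist (c :: (l ++ [b])) := List.sublist_cons_self _ _
  have s2 : (c :: l).Sublist (c :: (l ++ [b])) := (List.sublist_append_left l [b]).cons_cons c
  have ha3 : C.a ∉ c :: (l ++ [b]) := by
    intro hz
    rcases List.mem_cons.mp hz with hz | hz
    · exact hc.1 hz.symm
    · rcases List.mem_append.mp hz with hz | hz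
      · exact (h _ hz).1 rfl
      · exact hb.1 (List.mem_singleton.mp hz).symm
  have ha1 : C.a ∉ l ++ [b] := fun hz => ha3 (s1.subset hz)
  have ha2 : C.a ∉ c :: l := fun hz => ha3 (s2.subset hz)
  have c3 := C.claim3 (s1.trans hs) (hn.sublist s1) hb h
  have c2 := C.claim2 (s2.trans hs) (hn.sublist s2) hc h
  have L1 := C.L0 hs hn s1 rfl c.2.1 (XW_cons c _) (C.up (s1.trans hs) ha1) (C.up hs ha3)
  obtain ⟨η, hη, hη1, hη2⟩ := exists_pr_rho b.2.1.1 (GW cs u l)
  obtain ⟨σ, hσ, _, hσ2⟩ := exists_pr_rho hη.1 (rf cs c.1)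
  have hX : XW cs u (c :: (l ++ [b])) = rf cs σ * XW cs u (c :: l) := by
    rw [hσ2, hη2, XW_cons, XW_cons, XW_append, XW_single, XW_eq l, rf_inv c.2.1.1]
    simp only [mul_assoc]
    rw [rf_cancel c.2.1.1, inv_mul_cancel_left]
  have L2 := C.L0 hs hn s2 (by simp) hσ hX (C.up (s2.trans hs) ha2) (C.up hs ha3)
  rw [c3] at L1
  rw [c2] at L2
  have e1 : rho cs (GW cs u l) (rho cs (rf cs b.1) C.a.1) = rho cs (rf cs η) C.a.1 := by
    rw [hη2, rho_mul, rho_mul, C.GW_fix_inv h]
  rw [e1] at L1
  have e2 : rho cs (rf cs σ) C.a.1 =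
      rho cs (rf cs c.1) (rho cs (rf cs η) (rho cs (rf cs c.1) C.a.1)) := by
    rw [hσ2, rf_inv c.2.1.1, rho_mul, rho_mul]
  rw [e2] at L2
  have hcη : bil M c.1 η = 1 ∨ bil M c.1 η = -1 := by
    have h1 := path_bil hnc
    rcases hη1 with h2 | h2
    · rw [h2]; exact h1
    · rw [h2, map_neg]
      rcases h1 with h1 | h1
      · right; rw [h1]
      · left; rw [h1]; norm_num
  have hcne : c.1 ≠ η := by
    intro h1
    rw [← h1, c.2.1.bil_self] at hcη
    omega
  have ha_c : rho cs (rf cs c.1) C.a.1 ≠ C.a.1 := rf_apply_ne c.2.1.1 hc.2.1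
  have ha_η : rho cs (rf cs η) C.a.1 ≠ C.a.1 := by
    rw [← e1]
    intro h1
    apply JR.ne C hb
    have h2 : rho cs (GW cs u l)⁻¹ (rho cs (GW cs u l) (rho cs (rf cs b.1) C.a.1)) =
        rho cs (GW cs u l)⁻¹ C.a.1 := by rw [h1]
    rwa [rho_inv_rho, C.GW_fix_inv h] at h2
  have inj : ∀ y z : V B, rho cs (rf cs c.1) y = rho cs (rf cs c.1) z → y = z := by
    intro y z h1
    have : rho cs (rf cs c.1) (rho cs (rf cs c.1) y) = rho cs (rf cs c.1) (rho cs (rf cs c.1) z) := by
      rw [h1]
    rwa [← rho_mul, ← rho_mul, rf_mul_self c.2.1.1, rho_one, rho_one] at this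
  have cc : ∀ y : V B, rho cs (rf cs c.1) (rho cs (rf cs c.1) y) = y := by
    intro y
    rw [← rho_mul, rf_mul_self c.2.1.1, rho_one]
  have final : rho cs (rf cs η) C.a.1 = rho cs (rf cs c.1) C.a.1 → False := by
    intro h1
    exact hcne (rf_apply_inj c.2.1 hη h1.symm ha_c)
  rcases L1 with L1 | L1 <;> rcases L2 with L2 | L2
  · exact ha_η (by rw [← L1, L2])
  · rw [L1] at L2
    -- η a = c η c a = η c η a
    have h1 : rho cs (rf cs c.1) (rho cs (rf cs η) (rho cs (rf cs c.1) C.a.1)) =
        rho cs (rf cs η) (rho cs (rf cs c.1) (rho cs (rf cs η) C.a.1)) := by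
      have := rf_braid c.2.1.1 hη.1 hcη
      rw [← rho_mul, ← rho_mul, ← rho_mul, ← rho_mul]
      exact congrArg (fun g => rho cs g C.a.1) this
    rw [h1] at L2
    have h2 : rho cs (rf cs η) (rho cs (rf cs η) C.a.1) = rho cs (rf cs η) (rho cs (rf cs η)
        (rho cs (rf cs c.1) (rho cs (rf cs η) C.a.1))) := by rw [← L2]
    rw [← rho_mul, rf_mul_self hη.1, rho_one, ← rho_mul cs (rf cs η) (rf cs η),
      rf_mul_self hη.1, rho_one] at h2
    refine final ?_
    rw [← cc (rho cs (rf cs η) C.a.1), ← h2]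
  · rw [L1] at L2
    refine final ?_
    rw [← cc (rho cs (rf cs η) C.a.1), L2]
  · rw [L1] at L2
    have h1 := inj _ _ L2
    have h2 : rho cs (rf cs η) (rho cs (rf cs η) C.a.1) = rho cs (rf cs η) (rho cs (rf cs η)
        (rho cs (rf cs c.1) C.a.1)) := by rw [← h1]
    rw [← rho_mul, rf_mul_self hη.1, rho_one, ← rho_mul cs (rf cs η) (rf cs η),
      rf_mul_self hη.1, rho_one] at h2
    exact ha_c h2.symm

/-- the case of the word `c a b` -/
lemma qcab (C : Ctx cs u x m ω) {c b : At cs u}
    (hs : [c, C.a, b].Sublist ω) (hn : [c, C.a, b].Nodup) (hc : C.JL c)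
    (hb : C.JR b) (hcb : bil M c.1 b.1 = 0) : False := by
  have hu := Ble.refl cs u
  -- sublists
  have sab : [C.a, b].Sublist [c, C.a, b] := List.sublist_cons_self _ _
  have sca : [c, C.a].Sublist [c, C.a, b] := by
    refine List.Sublist.cons_cons c (List.Sublist.cons_cons C.a (List.nil_sublist _))
  have sb : [b].Sublist [C.a, b] := List.sublist_cons_self _ _
  have sc : [c].Sublist [c, C.a] := List.Sublist.cons_cons c (List.nil_sublist _)
  have sa : [C.a].Sublist [C.a, b] := List.Sublist.cons_cons C.a (List.nil_sublist _)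
  have hsab := sab.trans hs
  have hsca := sca.trans hs
  have hsb := sb.trans hsab
  have hsc := sc.trans hsca
  have hsa := sa.trans hsab
  have hnab := hn.sublist sab
  have hnca := hn.sublist sca
  have hnb := hnab.sublist sb
  have hnc := hnca.sublist sc
  have hab_ne : C.a.1 ≠ b.1 := fun h => hb.1 (Subtype.ext h).symm
  have hac_ne : C.a.1 ≠ c.1 := fun h => hc.1 (Subtype.ext h).symm
  have hbil_ab : bil M C.a.1 b.1 = 1 ∨ bil M C.a.1 b.1 = -1 := At.bil_ne (Ne.symm hb.1) hb.2.1
  have hbil_ac : bil M C.a.1 c.1 = 1 ∨ bil M C.a.1 c.1 = -1 := At.bil_ne (Ne.symm hc.1) hc.2.1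
  have hpa := C.a.2.1
  have hpb := b.2.1
  have hpc := c.2.1
  -- lengths
  have lb := C.len hsb hnb
  have lc := C.len hsc hnc
  have lab' := C.len hsab hnab
  have lca := C.len hsca hnca
  have lcab := C.len hs hn
  simp only [List.length_cons, List.length_nil] at lb lc lab' lca lcab
  have ub : Up cs m (XW cs u [b]) := C.up hsb (by simpa using Ne.symm hb.1)
  have uc : Up cs m (XW cs u [c]) := C.up hsc (by simpa using Ne.symm hc.1)
  have labb : lab cs m (XW cs u [b]) = rho cs (rf cs b.1) C.a.1 := by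
    rw [XW_single]; exact hb.2.2
  have labc : lab cs m (XW cs u [c]) = C.a.1 := by
    rw [XW_single]; exact hc.2.2
  have mb : m (XW cs u [b]) = rf cs b.1 * (rf cs C.a.1 * u) := by
    rw [(C.sm.lab_spec (C.lo hsb) (C.hi hsb) ub).2.1, labb, rf_conj_mul hpa.1 hpb.1, XW_single,
      rf_cancel hpb.1]
  have mc : m (XW cs u [c]) = rf cs C.a.1 * (rf cs c.1 * u) := by
    rw [(C.sm.lab_spec (C.lo hsc) (C.hi hsc) uc).2.1, labc, XW_single]
  have lmb := (C.sm.up_cov (C.lo hsb) (C.hi hsb) ub).2
  have lmc := (C.sm.up_cov (C.lo hsc) (C.hi hsc) uc).2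
  have xab : XW cs u [C.a, b] = rf cs C.a.1 * (rf cs b.1 * u) := by rw [XW_cons, XW_single]
  have xca : XW cs u [c, C.a] = rf cs c.1 * (rf cs C.a.1 * u) := by rw [XW_cons, XW_single]
  have xa : XW cs u [C.a] = m u := by rw [XW_single, C.mu]
  -- x_ab is up
  have uab : Up cs m (XW cs u [C.a, b]) := by
    by_contra hcon
    have h1 := C.sm.m1 (C.lo hsb) (C.mono hsab hnab sb) (C.hi hsab) hcon
    have h2 := h1.eq_of_length_le (by omega)
    rw [mb, xab, ← mul_assoc, ← mul_assoc] at h2
    exact rf_not_comm hpa hpb hab_ne hb.2.1 (mul_right_cancel h2).symm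
  have uca : Up cs m (XW cs u [c, C.a]) := by
    by_contra hcon
    have h1 := C.sm.m1 (C.lo hsc) (C.mono hsca hnca sc) (C.hi hsca) hcon
    have h2 := h1.eq_of_length_le (by omega)
    rw [mc, xca, ← mul_assoc, ← mul_assoc] at h2
    exact rf_not_comm hpa hpc hac_ne hc.2.1 (mul_right_cancel h2)
  have minj : ∀ y, Ble cs u y → Ble cs y x → m y = m u → y = u := by
    intro y h1 h2 h3
    rw [← C.sm.inv y h1 h2, h3, C.sm.inv u hu C.hux]
  -- lab x_ab = b and bil a b = -1
  have labab : lab cs m (XW cs u [C.a, b]) = b.1 ∧ bil M C.a.1 b.1 = -1 := by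
    have L := C.L0 hsab hnab sb rfl hpa (XW_cons _ _) ub uab
    obtain ⟨hp, hm, _⟩ := C.sm.lab_spec (C.lo hsab) (C.hi hsab) uab
    rw [labb] at L
    rcases L with L | L
    · exfalso
      rw [L, rf_conj_mul hpa.1 hpb.1, xab,
        rf_braid5 hpb.1 hpa.1 (by rw [bil_comm]; exact hbil_ab), ← C.mu, ← xab] at hm
      have h3 := minj _ (C.lo hsab) (C.hi hsab) hm
      rw [h3] at lab'
      omega
    · rcases hbil_ab with h | h
      · exfalso
        have e1 : rho cs (rf cs C.a.1) (rho cs (rf cs b.1) C.a.1) = -b.1 := by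
          rw [rho_rf hpb.1, h, map_sub, rho_rf_self hpa.1, map_smul, rho_rf hpa.1,
            bil_comm M b.1 C.a.1, h]
          module
        rw [L, e1] at hp
        exact hpb.not_neg hp
      · refine ⟨?_, h⟩
        rw [L, rho_rf hpb.1, h, map_sub, rho_rf_self hpa.1, map_smul, rho_rf hpa.1,
            bil_comm M b.1 C.a.1, h]
        module
  -- lab x_ca = a
  have labca : lab cs m (XW cs u [c, C.a]) = C.a.1 := by
    obtain ⟨σ, hσ, _, hσ2⟩ := exists_pr_rho hpa.1 (rf cs c.1)
    rw [rf_inv hpc.1] at hσ2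
    have hX : XW cs u [c, C.a] = rf cs σ * XW cs u [c] := by
      rw [hσ2, xca, XW_single]
      simp only [mul_assoc]
      rw [rf_cancel hpc.1]
    have L := C.L0 hsca hnca sc rfl hσ hX uc uca
    rw [labc] at L
    rcases L with L | L
    · exact L
    · exfalso
      obtain ⟨hp, hm, _⟩ := C.sm.lab_spec (C.lo hsca) (C.hi hsca) uca
      rw [L, rf_conj_mul hpa.1 hσ.1, hX, rf_cancel hσ.1, hσ2, XW_single] at hm
      have h1 : rf cs c.1 * rf cs C.a.1 * rf cs c.1 * (rf cs C.a.1 * (rf cs c.1 * u)) = m u := by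
        simp only [mul_assoc]
        rw [rf_braid5 hpc.1 hpa.1 (by rw [bil_comm]; exact hbil_ac), ← C.mu]
      rw [h1] at hm
      rw [← XW_single (cs := cs) c, hσ2.symm, ← hX] at hm
      have h3 := minj _ (C.lo hsca) (C.hi hsca) hm
      rw [h3] at lca
      omega
  -- z is up
  have uz : Up cs m (XW cs u [c, C.a, b]) := by
    by_contra hcon
    have h1 := C.sm.m1 (C.lo hsc) (C.mono hs hn (sc.trans sca)) (C.hi hs) hcon
    obtain ⟨hz1, hz2, hz3⟩ := C.X hs
    have hlo := C.sm.lo _ (C.lo hsc) (C.hi hsc)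
    have h2 := ((C.inv _ hz1 hz2).i5 _).mpr ⟨_, hlo, h1, rfl⟩
    rw [hz3] at h2
    obtain ⟨L, hL1, hL2⟩ := exists_sublist h2
    have I := C.inv _ hlo (h1.trans hz2)
    have hLn : L.Nodup := hn.sublist hL1
    have hLs := hL1.trans hs
    have hXL : m (XW cs u [c]) = XW cs u L := by
      rw [← I.i6, ← hL2, XW]
    have hLlen := C.len hLs hLn
    rw [← hXL, lmc, lc] at hLlen
    have hL2' : L.length = 2 := by omega
    -- enumerate the sublists of length two
    have hcases : L = [C.a, b] ∨ L = [c, b] ∨ L = [c, C.a] := by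
      rcases List.sublist_cons_iff.mp hL1 with h | ⟨r, rfl, h⟩
      · exact Or.inl (h.eq_of_length (by rw [hL2']; rfl))
      · right
        rw [List.length_cons] at hL2'
        rcases List.sublist_cons_iff.mp h with h | ⟨r', rfl, h⟩
        · left
          rw [h.eq_of_length (by rw [List.length_singleton]; omega)]
        · right
          rw [List.length_cons] at hL2'
          have : r' = [] := List.length_eq_zero_iff.mp (by omega)
          rw [this]
    rw [mc] at hXL
    rcases hcases with h | h | h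
    · rw [h, xab] at hXL
      have h3 := mul_left_cancel hXL
      have h4 := mul_right_cancel h3
      have h5 : c = b := Subtype.ext (rf_inj hpc hpb h4)
      rw [List.nodup_cons] at hn
      exact hn.1 (by rw [h5]; simp)
    · rw [h, XW_cons, XW_single, ← mul_assoc, ← mul_assoc] at hXL
      have h3 := mul_right_cancel hXL
      rw [rf_commute hpc.1 hpb.1 hcb] at h3
      exact hab_ne (rf_inj hpa hpb (mul_right_cancel h3))
    · rw [h, xca, ← mul_assoc, ← mul_assoc] at hXL
      exact rf_not_comm hpa hpc hac_ne hc.2.1 (mul_right_cancel hXL)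
  -- two computations of lab z
  have z1 : lab cs m (XW cs u [c, C.a, b]) = b.1 := by
    have L := C.L0 hs hn sab rfl hpc (XW_cons _ _) uab uz
    rw [labab.1, rf_apply_eq hpc.1 (by rw [bil_comm]; exact hcb)] at L
    rcases L with L | L <;> exact L
  have z2 : lab cs m (XW cs u [c, C.a, b]) = C.a.1 := by
    obtain ⟨σ, hσ, hσ1, hσ2⟩ := exists_pr_rho hpb.1 (rf cs c.1 * rf cs C.a.1)
    have hX : XW cs u [c, C.a, b] = rf cs σ * XW cs u [c, C.a] := by
      rw [hσ2, xca, XW_cons, xab]
      group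
    have L := C.L0 hs hn sca rfl hσ hX uca uz
    rw [labca] at L
    have h0 : bil M C.a.1 σ = 0 := by
      have h1 : bil M C.a.1 (rho cs (rf cs c.1 * rf cs C.a.1) b.1) = 0 := by
        have hba : bil M b.1 C.a.1 = -1 := by rw [bil_comm]; exact labab.2
        have hbc : bil M b.1 c.1 = 0 := by rw [bil_comm]; exact hcb
        rw [rho_mul, rho_rf hpa.1, hba, rho_rf hpc.1]
        simp only [map_sub, map_smul, LinearMap.sub_apply, LinearMap.smul_apply, smul_eq_mul,
          hbc, labab.2, hpa.bil_self]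
        rcases hbil_ac with h | h <;> rw [h] <;> norm_num
      rcases hσ1 with h2 | h2
      · rw [h2]; exact h1
      · rw [h2, map_neg, h1, neg_zero]
    rw [rf_apply_eq hσ.1 h0] at L
    rcases L with L | L <;> exact L
  exact hab_ne (z2.symm.trans z1)

/-- there is no chordless path from a strictly left to a strictly right atom -/
lemma q (C : Ctx cs u x m ω) (n : ℕ) : ∀ (c : At cs u) (l : List (At cs u)) (b : At cs u),
    l.length = n → (c :: (l ++ [b])).Sublist ω → NC (MA cs u) (c :: (l ++ [b])) →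
    C.JL c → C.JR b → False := by
  induction n using Nat.strong_induction_on with
  | _ n ih =>
  intro c l b hl hs hnc hc hb
  by_cases h1 : ∃ z ∈ l, C.JL z
  · obtain ⟨z, hz, hzL⟩ := h1
    obtain ⟨l1, l2, rfl⟩ := List.append_of_mem hz
    have e1 : c :: (l1 ++ z :: l2 ++ [b]) = (c :: l1) ++ (z :: (l2 ++ [b])) := by simp
    rw [e1] at hs hnc
    exact ih l2.length (by rw [← hl]; simp only [List.length_append, List.length_cons]; omega) z l2 b rfl
      ((List.sublist_append_right _ _).trans hs) hnc.suffix hzL hb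
  by_cases h2 : ∃ z ∈ l, C.JR z
  · obtain ⟨z, hz, hzR⟩ := h2
    obtain ⟨l1, l2, rfl⟩ := List.append_of_mem hz
    have e1 : c :: (l1 ++ z :: l2 ++ [b]) = (c :: (l1 ++ [z])) ++ (l2 ++ [b]) := by simp
    rw [e1] at hs hnc
    exact ih l1.length (by rw [← hl]; simp only [List.length_append, List.length_cons]; omega) c l1 z rfl
      ((List.sublist_append_left _ _).trans hs) hnc.leftPart hc hzR
  push Not at h1 h2
  by_cases ha : C.a ∈ l
  · obtain ⟨l1, l2, rfl⟩ := List.append_of_mem ha
    have hl1 : l1 = [] := by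
      cases l1 with
      | nil => rfl
      | cons d l1 =>
        exfalso
        have h3 := hnc.2.1 C.a (by simp)
        rw [MA_eq_two] at h3
        exact hc.2.1 (by rw [bil_comm]; exact h3.2)
    subst hl1
    have hl2 : l2 = [] := by
      cases l2 with
      | nil => rfl
      | cons d l2 =>
        exfalso
        have h3 := hnc.tail
        have h4 := h3.2.1 b (by simp)
        rw [MA_eq_two] at h4
        exact hb.2.1 h4.2
    subst hl2
    have h3 := hnc.2.1 b (by simp)
    rw [MA_eq_two] at h3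
    exact C.qcab (by simpa using hs) (by simpa using hnc.nodup) hc hb h3.2
  · refine C.qpath hs hnc hc hb ?_
    intro z hz
    have hzω : z ∈ ω := hs.subset (by simp [hz])
    have hza : z ≠ C.a := by rintro rfl; exact ha hz
    rcases C.tri hzω hza with h3 | h3 | h3
    · exact absurd h3 (h1 z hz)
    · exact absurd h3 (h2 z hz)
    · exact h3

/-- Lemma 3 (contrapositive form): if all left descents of `φ (m x)` are strictly left atoms then
there is no strictly right atom. -/
theorem lemma3 (C : Ctx cs u x m ω)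
    (hD : ∀ c : At cs u, LM cs u (m x) c.1 → C.JL c) {b : At cs u}
    (hbx : Ble cs (rf cs b.1 * u) x) (hb : C.JR b) : False := by
  -- `b` occurs in `ω`
  have hbm : m u ≠ rf cs b.1 * u := by
    intro h
    rw [C.mu] at h
    exact hb.1 (Subtype.ext (rf_inj C.a.2.1 b.2.1 (mul_right_cancel h))).symm
  have hbup : Up cs m (rf cs b.1 * u) := by
    by_contra hcon
    exact hbm (C.sm.m5 (Ble.refl cs u) hbx b.2.2 (C.sm.bot_up C.hux) hcon)
  have hbmx : Ble cs (rf cs b.1 * u) (m x) := C.sm.up_le b.2.2.le hbx hbup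
  have h1 := ((C.inv _ C.umx (Ble.refl cs _)).i5 _).mpr ⟨_, b.2.2.le, hbmx, rfl⟩
  rw [C.phi_atom hbmx, ← C.om] at h1
  have hbω := mem_of_simple_ble h1
  obtain ⟨c, T, g1, g2, g3, g4⟩ := exists_chain C.red hbω
  rw [C.om] at g4
  have hc := hD c ((C.inv _ C.umx (Ble.refl cs _)).i4 c g4)
  obtain ⟨T', k1, k2, k3⟩ := exists_nc c b T g2 g3
  have k4 := k1.trans g1
  -- `T'` ends with `b`
  cases T' using List.reverseRecOn with
  | nil =>
    simp at k2
    subst k2
    have h2 := hc.2.2
    rw [hb.2.2] at h2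
    exact JR.ne C hb h2
  | append_singleton l b' =>
    have hbb : b' = b := by
      have : (c :: (l ++ [b'])).getLast? = some b' := by
        rw [← List.cons_append, List.getLast?_append]
        simp
      rw [this] at k2
      exact Option.some.inj k2
    subst hbb
    exact C.q _ c l b' rfl k4 k3 hc hb

end Ctx

end

end Pool.Agent.Zir
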