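import Pool.Agent.Zir.Lemma3

/-! # Main theorem -/

namespace Pool.Agent.Zir

set_option linter.unusedSimpArgs false
set_option linter.unusedVariables false
set_option linter.unusedSectionVars false

noncomputable section

open Classical

variable {B W : Type*} [Group W] {M : CoxeterMatrix B} [SL M] {cs : CoxeterSystem M W} {u : W}
  [RB cs]

/-- (I1): every zircon `[u, x]` has a special matching which is a left multiplication. -/
theorem exists_LM {x : W} {m : W → W} (hux : Ble cs u x) (hne : x ≠ u) (h : SM cs u x m)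
    (hinv : ∀ y, Ble cs u y → Ble cs y x → y ≠ x → Inv cs u y) :
    ∃ c : At cs u, LM cs u x c.1 := by
  have hu := Ble.refl cs u
  by_cases hA : ∀ y, Cov cs u y → Ble cs y x → m u ≠ y → lab cs m y = lab cs m u
  · have h1 := (h.pure_LM hux hA).1
    exact ⟨⟨lab cs m u, h1.1, h1.cov_bot hux⟩, h1⟩
  · push Not at hA
    obtain ⟨y, hy1, hy2, hy3, hy4⟩ := hA
    by_contra hno
    push Not at hno
    obtain ⟨b, hb, hby, _⟩ := hy1.root
    have hmx := h.hi x hux (Ble.refl cs x)
    have hmlt : ∀ y, Ble cs u y → Ble cs y (m x) → Inv cs u y := by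
      intro y h1 h2
      refine hinv y h1 (h2.trans hmx) ?_
      rintro rfl
      have h3 := (h.down_cov hux (Ble.refl cs y) (h.top_down hux)).2
      have h4 := h2.length_le
      omega
    obtain ⟨ω, hω1, hω2⟩ := (csA cs u).exists_isReduced (phi cs u (m x))
    have C : Ctx cs u x m ω := ⟨h, hux, hmlt, hω1, hω2.symm⟩
    have hyup : Up cs m y := by
      by_contra hcon
      exact hy3 (h.m5 hu hy2 hy1 (h.bot_up hux) hcon)
    have hL := h.L0 hu hy2 hb hby hy1 (h.bot_up hux) hyup
    have hL' := hL.resolve_left hy4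
    have hbc : Cov cs u (rf cs b * u) := by rw [← hby]; exact hy1
    have hJR : C.JR ⟨b, hb, hbc⟩ := by
      refine ⟨?_, ?_, ?_⟩
      · intro h1
        have h2 : b = C.a.1 := congrArg Subtype.val h1
        apply hy3
        rw [C.mu, hby, h2]
      · intro h0
        apply hy4
        rw [hL']
        exact rf_apply_eq hb.1 h0
      · show lab cs m (rf cs b * u) = rho cs (rf cs b) (lab cs m u)
        rw [← hby]
        exact hL'
    refine C.lemma3 ?_ (b := ⟨b, hb, hbc⟩) (by show Ble cs (rf cs b * u) x; rw [← hby]; exact hy2)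
      hJR
    intro c hc
    by_contra hJ
    refine hno c (h.ext hux hc ?_)
    by_cases hca : c = C.a
    · left
      rw [C.mu, hca]
    · right
      have hcx := (hc.hi hu C.umx).trans C.mx
      have hcm : m u ≠ rf cs c.1 * u := by
        intro h1
        rw [C.mu] at h1
        exact hca (Subtype.ext (rf_inj C.a.2.1 c.2.1 (mul_right_cancel h1))).symm
      have hcup : Up cs m (rf cs c.1 * u) := by
        by_contra hcon
        exact hcm (h.m5 hu hcx c.2.2 (h.bot_up hux) hcon)
      have hLc := h.L0 hu hcx c.2.1 rfl c.2.2 (h.bot_up hux) hcup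
      rcases hLc with hLc | hLc
      · by_cases h0 : bil M C.a.1 c.1 = 0
        · rw [hLc]
          exact (rf_apply_eq c.2.1.1 h0).symm
        · exact absurd ⟨hca, h0, hLc⟩ hJ
      · exact hLc

/-- All elements of a zircon satisfy the invariant. -/
theorem inv_all {w : W}
    (hz : ∀ y, Ble cs u y → Ble cs y w → y ≠ u → ∃ m, SM cs u y m) :
    ∀ x, Ble cs u x → Ble cs x w → Inv cs u x := by
  intro x
  obtain ⟨n, hn⟩ : ∃ n, cs.length x = n := ⟨_, rfl⟩
  induction n using Nat.strong_induction_on generalizing x with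
  | _ n ih =>
  intro hux hxw
  by_cases hxu : x = u
  · rw [hxu]; exact Inv.base
  · have hinv : ∀ y, Ble cs u y → Ble cs y x → y ≠ x → Inv cs u y := by
      intro y h1 h2 h3
      refine ih (cs.length y) ?_ y rfl h1 (h2.trans hxw)
      rcases h2.eq_or_lt with h4 | h4
      · exact absurd h4 h3
      · omega
    obtain ⟨m, hm⟩ := hz x hux hxw hxu
    exact Inv.step hux hxu hinv (exists_LM hux hxu hm hinv)

/-- covers in a Bruhat interval -/
lemma covBy_iff {a b : Bruhat cs} {S : Set (Bruhat cs)} (hS : S.OrdConnected) (ha : a ∈ S)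
    (hb : b ∈ S) : (⟨a, ha⟩ : S) ⋖ ⟨b, hb⟩ ↔ Cov (W := W) cs a b := by
  constructor
  · rintro ⟨h1, h2⟩
    have h3 : a < b := h1
    have h4 : Ble (W := W) cs a b := h3.le
    have h5 : a ≠ b := h3.ne
    obtain ⟨z, hz1, hz2⟩ : ∃ z : Bruhat cs, Cov (W := W) cs a z ∧ Ble (W := W) cs z b :=
      exists_cov_left (W := W) (cs := cs) h4 h5
    by_cases hzb : z = b
    · rw [← hzb]; exact hz1
    · exfalso
      have hzS : z ∈ S := hS.out ha hb ⟨hz1.le, hz2⟩
      have h6 : (⟨a, ha⟩ : S) < ⟨z, hzS⟩ := lt_of_le_of_ne (show a ≤ z from hz1.le)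
        (by intro h; exact hz1.ne (congrArg Subtype.val h))
      have h7 : (⟨z, hzS⟩ : S) < ⟨b, hb⟩ := lt_of_le_of_ne (show z ≤ b from hz2)
        (by intro h; exact hzb (congrArg Subtype.val h))
      exact h2 h6 h7
  · intro h
    refine ⟨lt_of_le_of_ne (show a ≤ b from h.le) ?_, ?_⟩
    · intro h1; exact h.ne (congrArg Subtype.val h1)
    · rintro ⟨z, hz⟩ h1 h2
      have h3 : Ble (W := W) cs a z := (show a < z from h1).le
      have h4 : Ble (W := W) cs z b := (show z < b from h2).le
      have h5 : a ≠ z := (show a < z from h1).ne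
      have h6 : z ≠ b := (show z < b from h2).ne
      rcases h3.eq_or_lt with h7 | h7
      · exact h5 h7
      · rcases h4.eq_or_lt with h8 | h8
        · exact h6 h8
        · have := h.2
          omega

/-- A special matching of a principal ideal of the interval gives an `SM`. -/
theorem exists_SM {u w : W} (y : Set.Icc (Bruhat.of cs u) (Bruhat.of cs w))
    (mm : Set.Iic y → Set.Iic y) (hm : IsSpecialMatching mm) :
    ∃ m : W → W, SM cs u (show W from y.1) m := by
  obtain ⟨y1, hy1d⟩ : ∃ y1 : W, y1 = (show W from y.1) := ⟨_, rfl⟩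
  -- conversions
  let f : ∀ z : W, Ble cs u z → Ble cs z (show W from y.1) → Set.Iic y := fun z h1 h2 =>
    ⟨⟨Bruhat.of cs z, ⟨h1, Ble.trans (W := W) h2 y.2.2⟩⟩, h2⟩
  have hcov : ∀ (a b : Set.Iic y), a ⋖ b ↔ Cov (W := W) cs a.1.1 b.1.1 := by
    intro a b
    have h1 : a ⋖ b ↔ a.1 ⋖ b.1 := by
      constructor
      · rintro ⟨h2, h3⟩
        refine ⟨h2, ?_⟩
        intro c h4 h5
        have hc : c ∈ Set.Iic y := h5.le.trans b.2
        exact h3 (show a < ⟨c, hc⟩ from h4) (show (⟨c, hc⟩ : Set.Iic y) < b from h5)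
      · rintro ⟨h2, h3⟩
        exact ⟨h2, fun {c} h4 h5 => h3 (show a.1 < c.1 from h4) (show c.1 < b.1 from h5)⟩
    rw [h1]
    exact covBy_iff (cs := cs) Set.ordConnected_Icc a.1.2 b.1.2
  let m : W → W := fun z => if h : Ble cs u z ∧ Ble cs z (show W from y.1) then
    (show W from (mm (f z h.1 h.2)).1.1) else z
  have hmz : ∀ (z : W) (h1 : Ble cs u z) (h2 : Ble cs z (show W from y.1)),
      m z = (show W from (mm (f z h1 h2)).1.1) := by
    intro z h1 h2
    have : Ble cs u z ∧ Ble cs z (show W from y.1) := ⟨h1, h2⟩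
    exact dif_pos this
  have hlo : ∀ (z : W) (h1 : Ble cs u z) (h2 : Ble cs z (show W from y.1)),
      Ble cs u (m z) := by
    intro z h1 h2
    rw [hmz z h1 h2]
    exact (mm (f z h1 h2)).1.2.1
  have hhi : ∀ (z : W) (h1 : Ble cs u z) (h2 : Ble cs z (show W from y.1)),
      Ble cs (m z) (show W from y.1) := by
    intro z h1 h2
    rw [hmz z h1 h2]
    exact (mm (f z h1 h2)).2
  have hf : ∀ (z : W) (h1 : Ble cs u z) (h2 : Ble cs z (show W from y.1)),
      f (m z) (hlo z h1 h2) (hhi z h1 h2) = mm (f z h1 h2) := by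
    intro z h1 h2
    refine Subtype.ext (Subtype.ext ?_)
    exact hmz z h1 h2
  refine ⟨m, hlo, hhi, ?_, ?_, ?_⟩
  · intro z h1 h2
    rw [hmz _ (hlo z h1 h2) (hhi z h1 h2), hf z h1 h2, hm.invol]
    rfl
  · intro z h1 h2
    rcases hm.matching (f z h1 h2) with h3 | h3
    · right
      rw [hmz z h1 h2]
      exact (hcov _ _).mp h3
    · left
      rw [hmz z h1 h2]
      exact (hcov _ _).mp h3
  · intro a b h1 h2 h3
    have ha := h3.le.trans h2
    have hb := h1.trans h3.le
    have h4 : f a h1 ha ⋖ f b hb h2 := (hcov _ _).mpr h3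
    rcases hm.special _ _ h4 with h5 | h5
    · left
      rw [hmz a h1 ha, h5]
      rfl
    · right
      rw [hmz a h1 ha, hmz b hb h2]
      exact (show (mm (f a h1 ha)).1.1 ≤ (mm (f b hb h2)).1.1 from h5.le)

omit [RB cs] in
lemma one_ble (g : W) : Ble cs 1 g := by
  obtain ⟨n, hn⟩ : ∃ n, cs.length g = n := ⟨_, rfl⟩
  induction n generalizing g with
  | zero =>
    rw [cs.length_eq_zero_iff] at hn
    rw [hn]
    exact Ble.refl cs 1
  | succ n ih =>
    have hg : g ≠ 1 := by rintro rfl; simp at hn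
    obtain ⟨i, hi⟩ := cs.exists_leftDescent_of_ne_one hg
    have hi' : cs.length (cs.simple i * g) < cs.length g := hi
    have := cs.length_simple_mul g i
    exact (ih (cs.simple i * g) (by omega)).trans (simple_step' hi').ble

/-- The main theorem, for finite simply laced Coxeter systems. -/
theorem main (cs : CoxeterSystem M W) [RB cs] (u w : W) (huw : Ble cs u w)
    (hz : IsZircon (Set.Icc (Bruhat.of cs u) (Bruhat.of cs w))) :
    Nonempty (Set.Icc (Bruhat.of cs u) (Bruhat.of cs w) ≃o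
      Set.Icc (Bruhat.of (csA cs u) 1) (Bruhat.of (csA cs u) (phi cs u w))) := by
  have hz' : ∀ y : W, Ble cs u y → Ble cs y w → y ≠ u → ∃ m, SM cs u y m := by
    intro y h1 h2 h3
    let y' : Set.Icc (Bruhat.of cs u) (Bruhat.of cs w) := ⟨Bruhat.of cs y, h1, h2⟩
    have hmin : ¬ IsMin y' := by
      intro h4
      have h5 : (⟨Bruhat.of cs u, le_refl _, huw⟩ :
        Set.Icc (Bruhat.of cs u) (Bruhat.of cs w)) ≤ y' := h1
      have h6 := h4 h5
      have h7 : Ble cs y u := h6
      exact h3 (h7.antisymm h1)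
    obtain ⟨_, mm, hm⟩ := hz y' hmin
    exact exists_SM y' mm hm
  have I := inv_all (cs := cs) (u := u) (w := w) hz'
  have Iw := I w huw (Ble.refl cs _)
  refine ⟨{ toFun := fun z => ⟨Bruhat.of (csA cs u) (phi cs u z.1), one_ble _,
              (Iw.i5 _).mpr ⟨z.1, z.2.1, z.2.2, rfl⟩⟩
            invFun := fun g => ⟨Bruhat.of cs (piA cs u g.1 * u), ?_, ?_⟩
            left_inv := ?_
            right_inv := ?_
            map_rel_iff' := ?_ }⟩
  · obtain ⟨y, h1, h2, h3⟩ := (Iw.i5 g.1).mp g.2.2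
    have h4 : piA cs u g.1 * u = y := by rw [← h3, (I y h1 h2).i6]
    show Ble cs u (piA cs u g.1 * u)
    rw [h4]; exact h1
  · obtain ⟨y, h1, h2, h3⟩ := (Iw.i5 g.1).mp g.2.2
    have h4 : piA cs u g.1 * u = y := by rw [← h3, (I y h1 h2).i6]
    show Ble cs (piA cs u g.1 * u) w
    rw [h4]; exact h2
  · intro z
    refine Subtype.ext ?_
    exact (I z.1 z.2.1 z.2.2).i6
  · intro g
    refine Subtype.ext ?_
    obtain ⟨y, h1, h2, h3⟩ := (Iw.i5 g.1).mp g.2.2
    have h4 : piA cs u g.1 * u = y := by rw [← h3, (I y h1 h2).i6]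
    show phi cs u (piA cs u g.1 * u) = g.1
    rw [h4]; exact h3
  · intro a b
    have hb := I b.1 b.2.1 b.2.2
    constructor
    · intro h
      obtain ⟨y, h1, h2, h3⟩ := (hb.i5 (phi cs u a.1)).mp h
      have hy := (I y h1 (h2.trans b.2.2)).i6
      have ha := (I a.1 a.2.1 a.2.2).i6
      have h4 : y = a.1 := by rw [← hy, h3, ha]
      show Ble (W := W) cs a.1 b.1
      rw [← h4]
      exact h2
    · intro h
      exact (hb.i5 _).mpr ⟨a.1, a.2.1, h, rfl⟩

end

end Pool.Agent.Zir
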