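import Pool.Agent.Zir.Fin

/-! # Special matchings of Bruhat intervals: basic facts -/

namespace Pool.Agent.Zir

set_option linter.unusedSimpArgs false
set_option linter.unusedVariables false
set_option linter.unusedSectionVars false

noncomputable section

variable {B W : Type*} [Group W] {M : CoxeterMatrix B} [SL M] {cs : CoxeterSystem M W}
  {u w : W} {m : W → W}

/-- Upward matched elements. -/
def Up (cs : CoxeterSystem M W) (m : W → W) (x : W) : Prop := cs.length x < cs.length (m x)

lemma SM.up_cov (h : SM cs u w m) {x : W} (h1 : Ble cs u x) (h2 : Ble cs x w) (hx : Up cs m x) :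
    Cov cs x (m x) := by
  rcases h.cov x h1 h2 with h3 | h3
  · exact h3
  · have := h3.2
    unfold Up at hx
    omega

lemma SM.down_cov (h : SM cs u w m) {x : W} (h1 : Ble cs u x) (h2 : Ble cs x w)
    (hx : ¬ Up cs m x) : Cov cs (m x) x := by
  rcases h.cov x h1 h2 with h3 | h3
  · have := h3.2
    unfold Up at hx
    omega
  · exact h3

lemma SM.up_m (h : SM cs u w m) {x : W} (h1 : Ble cs u x) (h2 : Ble cs x w)
    (hx : ¬ Up cs m x) : Up cs m (m x) := by
  have h3 := (h.down_cov h1 h2 hx).2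
  unfold Up
  rw [h.inv x h1 h2]
  omega

lemma SM.down_m (h : SM cs u w m) {x : W} (h1 : Ble cs u x) (h2 : Ble cs x w)
    (hx : Up cs m x) : ¬ Up cs m (m x) := by
  have h3 := (h.up_cov h1 h2 hx).2
  unfold Up
  rw [h.inv x h1 h2]
  omega

lemma SM.le_or (h : SM cs u w m) {x y : W} (hux : Ble cs u x) (hxy : Ble cs x y)
    (hyw : Ble cs y w) : Ble cs (m x) y ∨ Ble cs (m x) (m y) := by
  obtain ⟨n, hn⟩ : ∃ n, cs.length y = cs.length x + n :=
    ⟨_, (Nat.add_sub_cancel' hxy.length_le).symm⟩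
  induction n generalizing x with
  | zero =>
    have := hxy.eq_of_length_le (by omega)
    subst this
    exact Or.inr (Ble.refl cs _)
  | succ n ih =>
    have hne : x ≠ y := by rintro rfl; omega
    obtain ⟨z, hz1, hz2⟩ := exists_cov_left hxy hne
    rcases h.sp x z hux (hz2.trans hyw) hz1 with h3 | h3
    · rw [h3]; exact Or.inl hz2
    · rcases ih (hux.trans hz1.le) hz2 (by have := hz1.2; omega) with h4 | h4
      · exact Or.inl (h3.trans h4)
      · exact Or.inr (h3.trans h4)

lemma SM.ge_or (h : SM cs u w m) {x y : W} (hux : Ble cs u x) (hxy : Ble cs x y)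
    (hyw : Ble cs y w) : Ble cs x (m y) ∨ Ble cs (m x) (m y) := by
  obtain ⟨n, hn⟩ : ∃ n, cs.length y = cs.length x + n :=
    ⟨_, (Nat.add_sub_cancel' hxy.length_le).symm⟩
  induction n generalizing y with
  | zero =>
    have := hxy.eq_of_length_le (by omega)
    subst this
    exact Or.inr (Ble.refl cs _)
  | succ n ih =>
    have hne : x ≠ y := by rintro rfl; omega
    obtain ⟨z, hz1, hz2⟩ := exists_cov_right hxy hne
    rcases h.sp z y (hux.trans hz1) hyw hz2 with h3 | h3
    · left
      rw [← h3, h.inv z (hux.trans hz1) (hz2.le.trans hyw)]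
      exact hz1
    · rcases ih hz1 (hz2.le.trans hyw) (by have := hz2.2; omega) with h4 | h4
      · exact Or.inl (h4.trans h3)
      · exact Or.inr (h4.trans h3)

/-- (M1) -/
lemma SM.m1 (h : SM cs u w m) {x y : W} (hux : Ble cs u x) (hxy : Ble cs x y)
    (hyw : Ble cs y w) (hy : ¬ Up cs m y) : Ble cs (m x) y := by
  rcases h.le_or hux hxy hyw with h1 | h1
  · exact h1
  · exact h1.trans (h.down_cov (hux.trans hxy) hyw hy).le

/-- (M3) -/
lemma SM.m3 (h : SM cs u w m) {x y : W} (hux : Ble cs u x) (hxy : Ble cs x y)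
    (hyw : Ble cs y w) (hx : Up cs m x) : Ble cs x (m y) := by
  rcases h.ge_or hux hxy hyw with h1 | h1
  · exact h1
  · exact (h.up_cov hux (hxy.trans hyw) hx).le.trans h1

/-- (M5) -/
lemma SM.m5 (h : SM cs u w m) {x y : W} (hux : Ble cs u x) (hyw : Ble cs y w) (hxy : Cov cs x y)
    (hx : Up cs m x) (hy : ¬ Up cs m y) : m x = y := by
  rcases h.sp x y hux hyw hxy with h1 | h1
  · exact h1
  · have h2 := (h.up_cov hux (hxy.le.trans hyw) hx).2
    have h3 := (h.down_cov (hux.trans hxy.le) hyw hy).2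
    have h4 := h1.length_le
    have h5 := hxy.2
    omega

lemma SM.top_down (h : SM cs u w m) (huw : Ble cs u w) : ¬ Up cs m w := by
  intro hup
  have h1 := h.hi w huw (Ble.refl cs w)
  have h2 := h1.length_le
  unfold Up at hup
  omega

lemma SM.bot_up (h : SM cs u w m) (huw : Ble cs u w) : Up cs m u := by
  by_contra hup
  have h1 := (h.lo u (Ble.refl cs u) huw).length_le
  have h2 := (h.down_cov (Ble.refl cs u) huw hup).2
  omega

lemma SM.ne (h : SM cs u w m) (huw : Ble cs u w) : u ≠ w := by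
  rintro rfl
  exact h.top_down huw (h.bot_up huw)

/-- All upward matched elements are below `m w`. -/
lemma SM.up_le (h : SM cs u w m) {x : W} (hux : Ble cs u x) (hxw : Ble cs x w)
    (hx : Up cs m x) : Ble cs x (m w) := h.m3 hux hxw (Ble.refl cs w) hx

/-- (M4) -/
lemma SM.m4 (h : SM cs u w m) {x : W} (hux : Ble cs u x) (hxw : Ble cs x w)
    (hx : Up cs m x) (hne : x ≠ u) : ∃ x0, Ble cs u x0 ∧ Cov cs x0 x ∧ Up cs m x0 := by
  obtain ⟨x0, h1, h2⟩ := exists_cov_right hux (Ne.symm hne)
  by_cases h3 : Up cs m x0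
  · exact ⟨x0, h1, h2, h3⟩
  · have hx0w := h2.le.trans hxw
    have h4 := h.down_cov h1 hx0w h3
    obtain ⟨b, hb1, hb2, hb3, _⟩ := thin h4 h2
    have h5 := h.lo x0 h1 hx0w
    refine ⟨b, h5.trans hb2.le, hb3, ?_⟩
    by_contra h6
    have h7 := h.m5 h5 (hb3.le.trans hxw) hb2 (h.up_m h1 hx0w h3) h6
    rw [h.inv x0 h1 hx0w] at h7
    exact hb1 h7.symm

lemma SM.restrict (h : SM cs u w m) {y : W} (huy : Ble cs u y) (hyw : Ble cs y w)
    (hy : ¬ Up cs m y) : SM cs u y m where
  lo x h1 h2 := h.lo x h1 (h2.trans hyw)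
  hi x h1 h2 := h.m1 h1 h2 hyw hy
  inv x h1 h2 := h.inv x h1 (h2.trans hyw)
  cov x h1 h2 := h.cov x h1 (h2.trans hyw)
  sp x z h1 h2 h3 := h.sp x z h1 (h2.trans hyw) h3

/-- Left multiplication by the reflection in `c` is a special matching of `[u, x]`. -/
def LM (cs : CoxeterSystem M W) (u x : W) (c : V B) : Prop :=
  PR cs c ∧ SM cs u x (fun y => rf cs c * y)

/-- A criterion for left multiplication to be a special matching. -/
lemma LM.mk' {x : W} {c : V B} (hc : PR cs c)
    (hlo : ∀ y, Ble cs u y → Ble cs y x → Ble cs u (rf cs c * y))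
    (hhi : ∀ y, Ble cs u y → Ble cs y x → Ble cs (rf cs c * y) x)
    (hcov : ∀ y, Ble cs u y → Ble cs y x → cs.length (rf cs c * y) = cs.length y + 1 ∨
      cs.length y = cs.length (rf cs c * y) + 1)
    (hsp : ∀ p q, Ble cs u p → Ble cs q x → Cov cs p q → cs.length p < cs.length (rf cs c * p) →
      cs.length (rf cs c * q) < cs.length q → rf cs c * p = q) : LM cs u x c := by
  refine ⟨hc, hlo, hhi, ?_, ?_, ?_⟩
  · intro y _ _
    exact rf_cancel hc.1 y
  · intro y h1 h2
    rcases hcov y h1 h2 with h3 | h3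
    · left
      exact (rf_step hc (by omega)).cov h3
    · right
      have h4 : cs.length (rf cs c * y) < cs.length (rf cs c * (rf cs c * y)) := by
        rw [rf_cancel hc.1]; omega
      have h5 := rf_step hc h4
      rw [rf_cancel hc.1] at h5
      exact h5.cov h3
  · intro p q h1 h2 h3
    have hup : Ble cs u q := h1.trans h3.le
    have hpx : Ble cs p x := h3.le.trans h2
    obtain ⟨v, hv, hq, _⟩ := step_iff.mp h3.step
    obtain ⟨v', hv', _, hv2⟩ := exists_pr_rho hv.1 (rf cs c)
    have h4 : rf cs c * q = rf cs v' * (rf cs c * p) := by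
      rw [hv2, hq, rf_inv hc.1]
      simp only [mul_assoc]
      rw [rf_cancel hc.1]
    have h5 : cs.length (rf cs v' * (rf cs c * p)) ≠ cs.length (rf cs c * p) :=
      (rf_isReflection hv'.1).length_mul_right_ne _
    rcases lt_or_gt_of_ne h5 with h6 | h6
    · left
      have h7 := hcov p h1 hpx
      have h8 := hcov q hup h2
      have h9 := h3.2
      rw [← h4] at h6
      exact hsp p q h1 h2 h3 (by omega) (by omega)
    · right
      show Ble cs (rf cs c * p) (rf cs c * q)
      rw [h4]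
      exact (rf_step hv' h6).ble

lemma LM.cov_cases {x y : W} {c : V B} (h : LM cs u x c) (h1 : Ble cs u y) (h2 : Ble cs y x) :
    Cov cs y (rf cs c * y) ∨ Cov cs (rf cs c * y) y := h.2.cov y h1 h2

/-- (F1) -/
lemma LM.restrict {x y : W} {c : V B} (h : LM cs u x c) (h1 : Ble cs u y) (h2 : Ble cs y x)
    (h3 : cs.length (rf cs c * y) < cs.length y) : LM cs u y c :=
  ⟨h.1, h.2.restrict h1 h2 (by simp only [Up]; omega)⟩

lemma LM.not_up {x : W} {c : V B} (h : LM cs u x c) (hux : Ble cs u x) :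
    cs.length (rf cs c * x) < cs.length x := by
  have h1 := h.2.top_down hux
  have h2 := (h.2.down_cov hux (Ble.refl cs x) h1).2
  omega

lemma LM.cov_top {x : W} {c : V B} (h : LM cs u x c) (hux : Ble cs u x) :
    Cov cs (rf cs c * x) x :=
  h.2.down_cov hux (Ble.refl cs x) (h.2.top_down hux)

lemma LM.cov_bot {x : W} {c : V B} (h : LM cs u x c) (hux : Ble cs u x) :
    Cov cs u (rf cs c * u) :=
  h.2.up_cov (Ble.refl cs u) hux (h.2.bot_up hux)

/-- (F0) -/
lemma LM.mem_cases {x y : W} {c : V B} (h : LM cs u x c) (h1 : Ble cs u y) (h2 : Ble cs y x) :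
    Ble cs y (rf cs c * x) ∨ Ble cs (rf cs c * y) (rf cs c * x) := by
  by_cases h3 : Up cs (fun y => rf cs c * y) y
  · left
    exact h.2.m3 h1 h2 (Ble.refl cs x) h3
  · right
    have h4 := h.2.up_m h1 h2 h3
    exact h.2.m3 (h.2.lo y h1 h2) (h.2.hi y h1 h2) (Ble.refl cs x) h4

lemma LM.lo {x y : W} {c : V B} (h : LM cs u x c) (h1 : Ble cs u y) (h2 : Ble cs y x) :
    Ble cs u (rf cs c * y) := h.2.lo y h1 h2

lemma LM.hi {x y : W} {c : V B} (h : LM cs u x c) (h1 : Ble cs u y) (h2 : Ble cs y x) :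
    Ble cs (rf cs c * y) x := h.2.hi y h1 h2

/-- specialness for left multiplications -/
lemma LM.m5 {x p q : W} {c : V B} (h : LM cs u x c) (h1 : Ble cs u p) (h2 : Ble cs q x)
    (h3 : Cov cs p q) (hp : cs.length p < cs.length (rf cs c * p))
    (hq : cs.length (rf cs c * q) < cs.length q) : rf cs c * p = q :=
  h.2.m5 h1 h2 h3 hp (by simp only [Up]; omega)

lemma Ble.mem_atom {x : W} {c : V B} (h : LM cs u x c) (hux : Ble cs u x) :
    Ble cs (rf cs c * u) x := h.hi (Ble.refl cs u) hux

end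

end Pool.Agent.Zir
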