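import Pool.Agent.Zir.Bru

/-! # Words in a simply laced Coxeter system -/

namespace Pool.Agent.Zir

set_option linter.unusedSimpArgs false
set_option linter.unusedVariables false
set_option linter.unusedSectionVars false

noncomputable section

variable {B W : Type*} [Group W] {M : CoxeterMatrix B} [SL M] {cs : CoxeterSystem M W}

lemma reduced_cons {i : B} {ω : List B} (h : cs.IsReduced (i :: ω)) :
    cs.IsReduced ω ∧ cs.length (cs.simple i * cs.wordProd ω) = cs.length (cs.wordProd ω) + 1 := by
  have h1 : cs.IsReduced ω := by
    have := h.drop 1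
    simpa using this
  refine ⟨h1, ?_⟩
  have h2 : cs.length (cs.wordProd (i :: ω)) = (i :: ω).length := h
  have h3 : cs.length (cs.wordProd ω) = ω.length := h1
  rw [cs.wordProd_cons] at h2
  rw [h2, h3]
  simp

/-- (A) -/
theorem sublist_ble {ω : List B} (h : cs.IsReduced ω) {L : List B} (hL : L.Sublist ω) :
    Ble cs (cs.wordProd L) (cs.wordProd ω) := by
  induction hL with
  | slnil => exact Ble.refl cs _
  | cons i h1 ih =>
    rename_i L ω
    obtain ⟨h2, h3⟩ := reduced_cons h
    rw [cs.wordProd_cons]
    exact (ih h2).trans (simple_step (by omega)).ble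
  | cons_cons i h1 ih =>
    rename_i L ω
    obtain ⟨h2, h3⟩ := reduced_cons h
    rw [cs.wordProd_cons, cs.wordProd_cons]
    exact (ih h2).lift_up (by omega)

/-- (E) -/
theorem exists_sublist {ω : List B} {g : W} (h : Ble cs g (cs.wordProd ω)) :
    ∃ L : List B, L.Sublist ω ∧ cs.wordProd L = g := by
  induction ω generalizing g with
  | nil =>
    have h1 : g = 1 := one_of_ble_one (by simpa [CoxeterSystem.wordProd] using h)
    exact ⟨[], List.Sublist.refl _, by rw [h1]; simp [CoxeterSystem.wordProd]⟩
  | cons i ω ih =>
    rw [cs.wordProd_cons] at h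
    have h1 := h.simple' i
    rw [cs.simple_mul_simple_cancel_left] at h1
    rcases h1 with h2 | h2
    · obtain ⟨L, hL1, hL2⟩ := ih h2
      exact ⟨L, hL1.cons i, hL2⟩
    · obtain ⟨L, hL1, hL2⟩ := ih h2
      refine ⟨i :: L, hL1.cons_cons i, ?_⟩
      rw [cs.wordProd_cons, hL2, cs.simple_mul_simple_cancel_left]

lemma rho_wordProd_coeff (L : List B) (i : B) (hi : i ∉ L) (v : V B) :
    (rho cs (cs.wordProd L) v) i = v i := by
  induction L with
  | nil => simp [CoxeterSystem.wordProd]
  | cons j L ih =>
    rw [cs.wordProd_cons, rho_mul, rho_simple, sig_apply]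
    have h1 : j ≠ i := by rintro rfl; simp at hi
    have h2 : i ∉ L := fun h => hi (List.mem_cons_of_mem _ h)
    rw [Finsupp.sub_apply, Finsupp.smul_apply, ih h2]
    simp [e, Finsupp.single_apply, h1]

/-- (B) -/
theorem length_nodup {L : List B} (h : L.Nodup) : cs.length (cs.wordProd L) = L.length := by
  induction L with
  | nil => simp [CoxeterSystem.wordProd]
  | cons i L ih =>
    rw [List.nodup_cons] at h
    rw [cs.wordProd_cons, List.length_cons, ← ih h.2]
    have h1 : cs.length (cs.wordProd L) < cs.length (cs.simple i * cs.wordProd L) := by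
      rw [← rf_e (cs := cs) i, length_lt_iff (pr_e i)]
      have h2 : (cs.wordProd L)⁻¹ = cs.wordProd L.reverse := (cs.wordProd_reverse L).symm
      rw [h2]
      have hr : IsRoot cs (rho cs (cs.wordProd L.reverse) (e i)) := (isRoot_e i).rho _
      rcases hr.dich with h3 | h3
      · exact h3
      · exfalso
        have h4 : 0 ≤ (-(rho cs (cs.wordProd L.reverse) (e i))) i := h3.2 i
        rw [Finsupp.neg_apply, rho_wordProd_coeff _ _ (by simpa using h.1)] at h4
        simp [e] at h4
    rcases cs.length_simple_mul (cs.wordProd L) i with h2 | h2 <;> omega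

lemma reduced_nodup {L : List B} (h : L.Nodup) : cs.IsReduced L := length_nodup h

/-- (D) -/
theorem mem_of_simple_ble {ω : List B} {b : B} (h : Ble cs (cs.simple b) (cs.wordProd ω)) :
    b ∈ ω := by
  by_contra hb
  obtain ⟨L, hL1, hL2⟩ := exists_sublist h
  have h1 : b ∉ L := fun h => hb (hL1.subset h)
  have h2 := rho_wordProd_coeff (cs := cs) L b h1 (e b)
  rw [hL2, rho_e_self] at h2
  simp [e] at h2

lemma simple_comm {i j : B} (h : M i j = 2) :
    cs.simple i * cs.simple j = cs.simple j * cs.simple i := by
  have h1 := cs.simple_mul_simple_pow i j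
  rw [h, pow_two] at h1
  have h2 : cs.simple i * cs.simple j = (cs.simple i * cs.simple j)⁻¹ := by
    rw [eq_inv_iff_mul_eq_one]; exact h1
  rw [h2, mul_inv_rev, cs.inv_simple, cs.inv_simple]

lemma simple_braid {i j : B} (h : M i j = 3) :
    cs.simple i * cs.simple j * cs.simple i = cs.simple j * cs.simple i * cs.simple j := by
  have h1 := cs.simple_mul_simple_pow i j
  rw [h] at h1
  simp only [pow_succ, pow_zero, one_mul] at h1
  have h2 : cs.simple i * cs.simple j * cs.simple i =
      (cs.simple j * cs.simple i * cs.simple j)⁻¹ := by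
    rw [eq_inv_iff_mul_eq_one]
    simpa [mul_assoc] using h1
  rw [h2, mul_inv_rev, mul_inv_rev, cs.inv_simple, cs.inv_simple, mul_assoc]

/-- non-consecutive letters orthogonal and distinct, consecutive letters adjacent -/
def NC (M : CoxeterMatrix B) : List B → Prop
  | [] => True
  | [_] => True
  | x :: y :: r => M x y = 3 ∧ (∀ z ∈ r, M x z = 2) ∧ NC M (y :: r)

lemma NC.tail {x : B} {r : List B} (h : NC M (x :: r)) : NC M r := by
  cases r with
  | nil => trivial
  | cons y r => exact h.2.2

lemma NC.suffix {l r : List B} (h : NC M (l ++ r)) : NC M r := by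
  induction l with
  | nil => exact h
  | cons x l ih => exact ih (by rw [List.cons_append] at h; exact h.tail)

lemma NC.leftPart {l r : List B} (h : NC M (l ++ r)) : NC M l := by
  induction l with
  | nil => trivial
  | cons x l ih =>
    rw [List.cons_append] at h
    have h1 := ih h.tail
    cases l with
    | nil => trivial
    | cons y l =>
      rw [List.cons_append] at h
      exact ⟨h.1, fun z hz => h.2.1 z (List.mem_append_left _ hz), h1⟩

lemma NC.ne {x : B} {r : List B} (h : NC M (x :: r)) : ∀ z ∈ r, x ≠ z := by
  cases r with
  | nil => simp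
  | cons y r =>
    intro z hz hxz
    subst hxz
    rcases List.mem_cons.mp hz with h1 | h1
    · subst h1
      have := h.1
      rw [M.diagonal] at this
      omega
    · have := h.2.1 x h1
      rw [M.diagonal] at this
      omega

lemma NC.nodup {r : List B} (h : NC M r) : r.Nodup := by
  induction r with
  | nil => exact List.nodup_nil
  | cons x r ih =>
    rw [List.nodup_cons]
    exact ⟨fun hx => h.ne x hx rfl, ih h.tail⟩

/-- every chain contains a chordless chain with the same ends -/
theorem exists_nc (x b : B) (T : List B) (h : List.IsChain (fun i j => M i j = 3) (x :: T))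
    (hb : (x :: T).getLast? = some b) :
    ∃ T', (x :: T').Sublist (x :: T) ∧ (x :: T').getLast? = some b ∧ NC M (x :: T') := by
  induction T generalizing x with
  | nil => exact ⟨[], List.Sublist.refl _, hb, trivial⟩
  | cons y T ih =>
    rw [List.isChain_cons_cons] at h
    have hb' : (y :: T).getLast? = some b := by
      rw [List.getLast?_cons_cons] at hb
      exact hb
    obtain ⟨T', h1, h2, h3⟩ := ih y h.2 hb'
    -- the last element of `y :: T'` which is equal or adjacent to `x`
    have key : ∀ L : List B, (∃ z ∈ L, M x z = 3 ∨ x = z) → L.getLast? = some b →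
        NC M L → ∃ z R, (z :: R).Sublist L ∧ (z :: R).getLast? = some b ∧ NC M (z :: R) ∧
          (M x z = 3 ∨ x = z) ∧ ∀ w ∈ R, ¬ (M x w = 3 ∨ x = w) := by
      intro L
      induction L with
      | nil => rintro ⟨z, hz, _⟩; simp at hz
      | cons z0 R ihL =>
        intro h4 h5 h6
        by_cases h7 : ∃ z ∈ R, M x z = 3 ∨ x = z
        · have h8 : R ≠ [] := by rintro rfl; simp at h7
          have h9 : R.getLast? = some b := by
            cases R with
            | nil => exact absurd rfl h8
            | cons r R => rw [List.getLast?_cons_cons] at h5; exact h5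
          obtain ⟨z, R', g1, g2, g3, g4, g5⟩ := ihL h7 h9 h6.tail
          exact ⟨z, R', g1.cons z0, g2, g3, g4, g5⟩
        · push Not at h7
          obtain ⟨z, hz, hz2⟩ := h4
          rcases List.mem_cons.mp hz with h8 | h8
          · subst h8
            exact ⟨z, R, List.Sublist.refl _, h5, h6, hz2, fun w hw hcon => by
              rcases hcon with hc | hc
              · exact (h7 w hw).1 hc
              · exact (h7 w hw).2 hc⟩
          · exfalso
            rcases hz2 with hc | hc
            · exact (h7 z h8).1 hc
            · exact (h7 z h8).2 hc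
    obtain ⟨z, R, g1, g2, g3, g4, g5⟩ := key (y :: T') ⟨y, List.mem_cons_self, Or.inl h.1⟩ h2 h3
    rcases g4 with g4 | g4
    · refine ⟨z :: R, ?_, ?_, g4, ?_, g3⟩
      · exact (g1.trans h1).cons_cons x
      · rw [List.getLast?_cons_cons]; exact g2
      · intro w hw
        have := g5 w hw
        push Not at this
        rcases SL.prop (M := M) x w with h4 | h4 | h4
        · by_contra _
          exact M.off_diagonal x w this.2 h4
        · exact h4
        · exact absurd h4 this.1
    · subst g4
      refine ⟨R, ?_, g2, g3⟩
      exact (g1.trans h1).cons x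

/-- (C) every letter of a reduced word is the end of a chain of letters which starts with a left
descent -/
theorem exists_chain {ω : List B} (h : cs.IsReduced ω) {b : B} (hb : b ∈ ω) :
    ∃ c T, (c :: T).Sublist ω ∧ List.IsChain (fun i j => M i j = 3) (c :: T) ∧
      (c :: T).getLast? = some b ∧
      cs.length (cs.simple c * cs.wordProd ω) < cs.length (cs.wordProd ω) := by
  induction ω with
  | nil => simp at hb
  | cons i ω ih =>
    obtain ⟨h1, h2⟩ := reduced_cons h
    have hi : cs.length (cs.simple i * cs.wordProd (i :: ω)) <
        cs.length (cs.wordProd (i :: ω)) := by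
      rw [cs.wordProd_cons, cs.simple_mul_simple_cancel_left]
      omega
    by_cases hbi : b = i
    · subst hbi
      exact ⟨b, [], by simp, by simp, by simp, hi⟩
    · have hb' : b ∈ ω := by
        rcases List.mem_cons.mp hb with h3 | h3
        · exact absurd h3 hbi
        · exact h3
      obtain ⟨c, T, g1, g2, g3, g4⟩ := ih h1 hb'
      rcases SL.prop (M := M) i c with h3 | h3 | h3
      · exfalso
        have : i = c := by
          by_contra hne
          exact M.off_diagonal i c hne h3
        subst this
        omega
      · refine ⟨c, T, g1.cons i, g2, g3, ?_⟩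
        rw [cs.wordProd_cons, ← mul_assoc, ← simple_comm h3, mul_assoc]
        have h4 := cs.length_simple_mul (cs.simple c * cs.wordProd ω) i
        omega
      · refine ⟨i, c :: T, g1.cons_cons i, ?_, ?_, hi⟩
        · rw [List.isChain_cons_cons]
          exact ⟨h3, g2⟩
        · rw [List.getLast?_cons_cons]
          exact g3

end

end Pool.Agent.Zir
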