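import Pool.Agent.Zir.Ext
import Pool.Agent.Zir.Words

/-! # The target group and the map `φ` -/

namespace Pool.Agent.Zir

set_option linter.unusedSimpArgs false
set_option linter.unusedVariables false
set_option linter.unusedSectionVars false

noncomputable section

open Classical

variable {B W : Type*} [Group W] {M : CoxeterMatrix B} [SL M]

/-- The atoms of the upper set of `u`, as positive roots. -/
def At (cs : CoxeterSystem M W) (u : W) : Type _ :=
  {b : V B // PR cs b ∧ Cov cs u (rf cs b * u)}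

variable (cs : CoxeterSystem M W) (u : W)

/-- The Coxeter matrix on the atoms. -/
def MA : CoxeterMatrix (At cs u) where
  M := Matrix.of fun b c => if b = c then 1 else if bil M b.1 c.1 = 0 then 2 else 3
  isSymm := by
    unfold Matrix.IsSymm
    ext b c
    simp only [Matrix.transpose_apply, Matrix.of_apply]
    rw [bil_comm M c.1 b.1]
    simp only [eq_comm]
  diagonal := by simp
  off_diagonal := by
    intro b c h
    simp only [Matrix.of_apply, if_neg h]
    split_ifs <;> omega

lemma MA_apply (b c : At cs u) : MA cs u b c =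
    if b = c then 1 else if bil M b.1 c.1 = 0 then 2 else 3 := rfl

lemma MA_eq_two {b c : At cs u} : MA cs u b c = 2 ↔ b ≠ c ∧ bil M b.1 c.1 = 0 := by
  rw [MA_apply]
  by_cases h1 : b = c
  · simp [h1]
  · by_cases h2 : bil M b.1 c.1 = 0 <;> simp [h1, h2]

lemma MA_eq_three {b c : At cs u} : MA cs u b c = 3 ↔ b ≠ c ∧ bil M b.1 c.1 ≠ 0 := by
  rw [MA_apply]
  by_cases h1 : b = c
  · simp [h1]
  · by_cases h2 : bil M b.1 c.1 = 0 <;> simp [h1, h2]

instance : SL (MA cs u) where
  prop b c := by
    rw [MA_apply]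
    split_ifs <;> simp

/-- The target Coxeter system. -/
abbrev csA : CoxeterSystem (MA cs u) (MA cs u).Group := (MA cs u).toCoxeterSystem

variable [RB cs]

lemma pi_liftable : (MA cs u).IsLiftable (fun b : At cs u => rf cs b.1) := by
  intro b c
  rw [MA_apply]
  split_ifs with h1 h2
  · subst h1
    rw [pow_one]
    exact rf_mul_self b.2.1.1
  · rw [pow_two]
    have h3 := rf_commute b.2.1.1 c.2.1.1 h2
    calc rf cs b.1 * rf cs c.1 * (rf cs b.1 * rf cs c.1)
        = rf cs b.1 * rf cs c.1 * (rf cs c.1 * rf cs b.1) := by rw [h3]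
      _ = rf cs b.1 * (rf cs c.1 * (rf cs c.1 * rf cs b.1)) := by simp only [mul_assoc]
      _ = 1 := by rw [rf_cancel c.2.1.1, rf_mul_self b.2.1.1]
  · have hne : b.1 ≠ c.1 := fun h => h1 (Subtype.ext h)
    have h3 : bil M b.1 c.1 = 1 ∨ bil M b.1 c.1 = -1 := by
      rcases pr_bil b.2.1 c.2.1 hne with h | h | h
      · exact Or.inr h
      · exact absurd h h2
      · exact Or.inl h
    have h4 := rf_braid5 b.2.1.1 c.2.1.1 h3 1
    simp only [mul_one] at h4
    simp only [pow_succ, pow_zero, one_mul]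
    calc rf cs b.1 * rf cs c.1 * (rf cs b.1 * rf cs c.1) * (rf cs b.1 * rf cs c.1)
        = (rf cs b.1 * (rf cs c.1 * (rf cs b.1 * (rf cs c.1 * rf cs b.1)))) * rf cs c.1 := by
          simp only [mul_assoc]
      _ = 1 := by rw [h4, rf_mul_self c.2.1.1]

/-- The homomorphism from the target group to `W`. -/
def piA : (MA cs u).Group →* W := (csA cs u).lift ⟨fun b => rf cs b.1, pi_liftable cs u⟩

lemma piA_simple (b : At cs u) : piA cs u ((csA cs u).simple b) = rf cs b.1 :=
  (csA cs u).lift_apply_simple (pi_liftable cs u) b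

/-- Auxiliary recursion for `φ`. -/
def phiN : ℕ → W → (MA cs u).Group
  | 0, _ => 1
  | n + 1, x => if h : ∃ c : At cs u, LM cs u x c.1 then
      (csA cs u).simple h.choose * phiN n (rf cs h.choose.1 * x) else 1

/-- The map `φ`. -/
def phi (x : W) : (MA cs u).Group := phiN cs u (cs.length x - cs.length u) x

lemma phi_u : phi cs u u = 1 := by
  rw [phi, Nat.sub_self, phiN]

variable {cs u}

lemma LM.atom {x : W} {c : V B} (h : LM cs u x c) (hux : Ble cs u x) :
    PR cs c ∧ Cov cs u (rf cs c * u) := ⟨h.1, h.cov_bot hux⟩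

lemma phi_choose {x : W} (hux : Ble cs u x) (hex : ∃ c : At cs u, LM cs u x c.1) :
    ∃ c : At cs u, LM cs u x c.1 ∧ phi cs u x = (csA cs u).simple c * phi cs u (rf cs c.1 * x) := by
  refine ⟨hex.choose, hex.choose_spec, ?_⟩
  have h1 := (hex.choose_spec.cov_top hux).2
  have h2 := (hex.choose_spec.lo hux (Ble.refl cs x)).length_le
  rw [phi, phi]
  obtain ⟨n, hn⟩ : ∃ n, cs.length x - cs.length u = n + 1 :=
    ⟨cs.length x - cs.length u - 1, by omega⟩
  have hn' : cs.length (rf cs hex.choose.1 * x) - cs.length u = n := by omega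
  rw [hn, hn', phiN, dif_pos hex]

/-- The invariant proved by induction along the interval. -/
structure Inv (cs : CoxeterSystem M W) [RB cs] (u x : W) : Prop where
  i1 : x ≠ u → ∃ c : At cs u, LM cs u x c.1
  i2 : ∀ c : At cs u, LM cs u x c.1 →
    phi cs u x = (csA cs u).simple c * phi cs u (rf cs c.1 * x)
  i3 : cs.length x = cs.length u + (csA cs u).length (phi cs u x)
  i4 : ∀ c : At cs u, (csA cs u).length ((csA cs u).simple c * phi cs u x) <
    (csA cs u).length (phi cs u x) → LM cs u x c.1
  i5 : ∀ g, Ble (csA cs u) g (phi cs u x) ↔ ∃ y, Ble cs u y ∧ Ble cs y x ∧ phi cs u y = g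
  i6 : piA cs u (phi cs u x) * u = x

lemma LM.not_self {c : V B} : ¬ LM cs u u c := fun h => h.2.ne (Ble.refl cs u) rfl

theorem Inv.base : Inv cs u u where
  i1 h := absurd rfl h
  i2 c h := absurd h LM.not_self
  i3 := by rw [phi_u, CoxeterSystem.length_one]; rfl
  i4 c h := by rw [phi_u, CoxeterSystem.length_one] at h; omega
  i5 g := by
    rw [phi_u]
    constructor
    · intro h
      have := one_of_ble_one h
      subst this
      exact ⟨u, Ble.refl cs u, Ble.refl cs u, phi_u cs u⟩
    · rintro ⟨y, h1, h2, rfl⟩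
      have := h1.antisymm h2
      subst this
      rw [phi_u]
      exact Ble.refl _ _
  i6 := by rw [phi_u, map_one, one_mul]

/-- three increasing steps -/
lemma three_steps {β ε : V B} {x : W} (hβ : PR cs β) (hε : PR cs ε)
    (h1 : PR cs (rho cs x⁻¹ β)) (h2 : PR cs (rho cs x⁻¹ ε)) (h : bil M β ε = -1) :
    cs.length x + 3 ≤ cs.length (rf cs β * (rf cs ε * (rf cs β * x))) := by
  have hεβ : bil M ε β = -1 := by rw [bil_comm]; exact h
  have e1 : rho cs (rf cs β) ε = ε + β := by rw [rho_rf hβ.1, hεβ]; module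
  have e2 : rho cs (rf cs ε) β = β + ε := by rw [rho_rf hε.1, h]; module
  have s1 : cs.length x < cs.length (rf cs β * x) := (length_lt_iff hβ x).mpr h1
  have s2 : cs.length (rf cs β * x) < cs.length (rf cs ε * (rf cs β * x)) := by
    rw [length_lt_iff hε, mul_inv_rev, rf_inv hβ.1, rho_mul]
    refine ⟨(hε.1.rho _).rho _, ?_⟩
    rw [e1, map_add]
    exact add_nonneg h2.2 h1.2
  have s3 : cs.length (rf cs ε * (rf cs β * x)) <
      cs.length (rf cs β * (rf cs ε * (rf cs β * x))) := by
    rw [length_lt_iff hβ, mul_inv_rev, mul_inv_rev, rf_inv hβ.1, rf_inv hε.1, rho_mul, rho_mul,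
      e2, map_add, rho_rf_self hβ.1, e1]
    have : rho cs x⁻¹ (-β + (ε + β)) = rho cs x⁻¹ ε := by congr 1; abel
    rw [this]
    exact h2
  omega

lemma no_plus_aux {x : W} {β δ : V B} (hux : Ble cs u x) (hβ : LM cs u x β) (hδ : LM cs u x δ)
    (h : bil M β δ = 1) (hp : PR cs (δ - β)) : False := by
  have hb := hβ.1
  have hd := hδ.1
  have hdb : bil M δ β = 1 := by rw [bil_comm]; exact h
  have e1 : rho cs (rf cs β) δ = δ - β := by rw [rho_rf hb.1, hdb]; module
  have hu := Ble.refl cs u
  have a1 := hβ.lo hu hux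
  have a2 := hβ.hi hu hux
  have a3 := hδ.lo a1 a2
  have a4 := hδ.hi a1 a2
  have a5 := hβ.lo a3 a4
  have hrf : rf cs (δ - β) * u = rf cs β * (rf cs δ * (rf cs β * u)) := by
    rw [← e1, rf_conj_mul hd.1 hb.1]
  have a6 : cs.length u < cs.length (rf cs (δ - β) * u) := by
    have h1 := a5.length_le
    rw [← hrf] at h1
    have h2 : cs.length (rf cs (δ - β) * u) ≠ cs.length u :=
      (rf_isReflection hp.1).length_mul_right_ne u
    omega
  have a7 := (length_lt_iff hp u).mp a6
  have a8 : PR cs (rho cs u⁻¹ β) := by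
    have := (hβ.cov_bot hux).2
    exact (length_lt_iff hb u).mp (by omega)
  have hbe : bil M β (δ - β) = -1 := by rw [map_sub, h, hb.bil_self]; norm_num
  have a9 := three_steps hb hp a8 a7 hbe
  have a10 : rf cs β * (rf cs (δ - β) * (rf cs β * u)) = rf cs δ * u := by
    have e2 : rho cs (rf cs β) (δ - β) = δ := by
      rw [map_sub, e1, rho_rf_self hb.1]; abel
    rw [← rf_conj_mul hp.1 hb.1, e2]
  rw [a10] at a9
  have a11 := (hδ.cov_bot hux).2
  omega

lemma no_plus {x : W} {β δ : V B} (hux : Ble cs u x) (hβ : LM cs u x β) (hδ : LM cs u x δ) :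
    bil M β δ ≠ 1 := by
  intro h
  have hdb : bil M δ β = 1 := by rw [bil_comm]; exact h
  have e1 : rho cs (rf cs β) δ = δ - β := by rw [rho_rf hβ.1.1, hdb]; module
  rcases (hδ.1.1.rho (rf cs β)).dich with h1 | h1
  · rw [e1] at h1
    exact no_plus_aux hux hβ hδ h h1
  · rw [e1, neg_sub] at h1
    exact no_plus_aux hux hδ hβ hdb h1

/-- (F2) -/
theorem phi_wd {x : W} {c d : At cs u} (hux : Ble cs u x) (hc : LM cs u x c.1)
    (hd : LM cs u x d.1) (hinv : ∀ y, Ble cs u y → Ble cs y x → y ≠ x → Inv cs u y) :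
    (csA cs u).simple c * phi cs u (rf cs c.1 * x) =
      (csA cs u).simple d * phi cs u (rf cs d.1 * x) := by
  by_cases hcd : c = d
  · rw [hcd]
  have hcd' : c.1 ≠ d.1 := fun h => hcd (Subtype.ext h)
  have hx := Ble.refl cs x
  have negc := (length_gt_iff hc.1 x).mp (hc.not_up hux)
  have negd := (length_gt_iff hd.1 x).mp (hd.not_up hux)
  -- a lower element is different from x
  have hlt : ∀ {c : At cs u}, LM cs u x c.1 → rf cs c.1 * x ≠ x := by
    intro c hc h
    have := (hc.cov_top hux).2
    rw [h] at this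
    omega
  rcases pr_bil hc.1 hd.1 hcd' with h | h | h
  · -- braid
    have hM : MA cs u c d = 3 := (MA_eq_three cs u).mpr ⟨hcd, by rw [h]; norm_num⟩
    have key : ∀ {c d : At cs u}, LM cs u x c.1 → LM cs u x d.1 → bil M c.1 d.1 = -1 →
        PR cs (-(rho cs x⁻¹ c.1)) → PR cs (-(rho cs x⁻¹ d.1)) →
        phi cs u (rf cs c.1 * x) = (csA cs u).simple d * ((csA cs u).simple c *
          phi cs u (rf cs c.1 * (rf cs d.1 * (rf cs c.1 * x)))) := by
      intro c d hc hd h negc negd
      have h' : bil M d.1 c.1 = -1 := by rw [bil_comm]; exact h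
      have e1 : rho cs (rf cs c.1) d.1 = d.1 + c.1 := by rw [rho_rf hc.1.1, h']; module
      have e2 : rho cs (rf cs d.1) c.1 = c.1 + d.1 := by rw [rho_rf hd.1.1, h]; module
      have b1 := hc.lo hux hx
      have b2 := hc.hi hux hx
      have l1 : cs.length (rf cs d.1 * (rf cs c.1 * x)) < cs.length (rf cs c.1 * x) := by
        rw [length_gt_iff hd.1, mul_inv_rev, rf_inv hc.1.1, rho_mul]
        refine ⟨((hd.1.1.rho _).rho _).neg, ?_⟩
        rw [e1, map_add, neg_add]
        exact add_nonneg negd.2 negc.2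
      have L1 := hd.restrict b1 b2 l1
      have b3 := L1.lo b1 (Ble.refl cs _)
      have b4 := L1.hi b1 (Ble.refl cs _)
      have l2 : cs.length (rf cs c.1 * (rf cs d.1 * (rf cs c.1 * x))) <
          cs.length (rf cs d.1 * (rf cs c.1 * x)) := by
        rw [length_gt_iff hc.1, mul_inv_rev, mul_inv_rev, rf_inv hc.1.1, rf_inv hd.1.1, rho_mul,
          rho_mul, e2, map_add, rho_rf_self hc.1.1, e1]
        have : rho cs x⁻¹ (-c.1 + (d.1 + c.1)) = rho cs x⁻¹ d.1 := by congr 1; abel
        rw [this]
        exact negd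
      have L2 := hc.restrict b3 (b4.trans b2) l2
      have I1 := hinv _ b1 b2 (hlt hc)
      have I2 := hinv _ b3 (b4.trans b2) (by
        intro h
        have h3 := (hc.cov_top hux).2
        rw [h] at l1
        omega)
      rw [I1.i2 d L1, I2.i2 c L2]
    have h' : bil M d.1 c.1 = -1 := by rw [bil_comm]; exact h
    rw [key hc hd h negc negd, key hd hc h' negd negc]
    have hx3 : rf cs c.1 * (rf cs d.1 * (rf cs c.1 * x)) =
        rf cs d.1 * (rf cs c.1 * (rf cs d.1 * x)) := by
      have := rf_braid hc.1.1 hd.1.1 (Or.inr h)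
      simp only [← mul_assoc]
      rw [this]
    rw [hx3]
    have hb := simple_braid (cs := csA cs u) hM
    simp only [← mul_assoc]
    rw [hb]
  · -- commuting
    have hM : MA cs u c d = 2 := (MA_eq_two cs u).mpr ⟨hcd, h⟩
    have key : ∀ {c d : At cs u}, LM cs u x c.1 → LM cs u x d.1 → bil M c.1 d.1 = 0 →
        PR cs (-(rho cs x⁻¹ d.1)) →
        phi cs u (rf cs c.1 * x) = (csA cs u).simple d * 
          phi cs u (rf cs d.1 * (rf cs c.1 * x)) := by
      intro c d hc hd h negd
      have h' : bil M d.1 c.1 = 0 := by rw [bil_comm]; exact h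
      have b1 := hc.lo hux hx
      have b2 := hc.hi hux hx
      have l1 : cs.length (rf cs d.1 * (rf cs c.1 * x)) < cs.length (rf cs c.1 * x) := by
        rw [length_gt_iff hd.1, mul_inv_rev, rf_inv hc.1.1, rho_mul, rf_apply_eq hc.1.1 h']
        exact negd
      have L1 := hd.restrict b1 b2 l1
      exact (hinv _ b1 b2 (hlt hc)).i2 d L1
    have h' : bil M d.1 c.1 = 0 := by rw [bil_comm]; exact h
    rw [key hc hd h negd, key hd hc h' negc]
    have hx3 : rf cs c.1 * (rf cs d.1 * x) = rf cs d.1 * (rf cs c.1 * x) := by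
      rw [← mul_assoc, rf_commute hc.1.1 hd.1.1 h, mul_assoc]
    rw [hx3, ← mul_assoc, simple_comm (cs := csA cs u) hM, mul_assoc]
  · exact absurd h (no_plus hux hc hd)

/-- the parts (I2), (I3), (I5), (I6) of the induction step -/
theorem inv_step {x : W} (hux : Ble cs u x) (hne : x ≠ u)
    (hinv : ∀ y, Ble cs u y → Ble cs y x → y ≠ x → Inv cs u y)
    (hex : ∃ c : At cs u, LM cs u x c.1) :
    (∀ c : At cs u, LM cs u x c.1 →
      phi cs u x = (csA cs u).simple c * phi cs u (rf cs c.1 * x)) ∧
    (cs.length x = cs.length u + (csA cs u).length (phi cs u x)) ∧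
    (∀ g, Ble (csA cs u) g (phi cs u x) ↔ ∃ y, Ble cs u y ∧ Ble cs y x ∧ phi cs u y = g) ∧
    (piA cs u (phi cs u x) * u = x) := by
  obtain ⟨c, hc, hphi⟩ := phi_choose hux hex
  have hx := Ble.refl cs x
  have b1 := hc.lo hux hx
  have b2 := hc.hi hux hx
  have hct := hc.cov_top hux
  have hlt : rf cs c.1 * x ≠ x := by
    intro h
    have := hct.2
    rw [h] at this
    omega
  have I1 := hinv _ b1 b2 hlt
  have i2 : ∀ d : At cs u, LM cs u x d.1 →
      phi cs u x = (csA cs u).simple d * phi cs u (rf cs d.1 * x) := by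
    intro d hd
    rw [hphi]
    exact phi_wd hux hc hd hinv
  have hl : (csA cs u).length ((csA cs u).simple c * phi cs u (rf cs c.1 * x)) =
      (csA cs u).length (phi cs u (rf cs c.1 * x)) + 1 := by
    rcases (csA cs u).length_simple_mul (phi cs u (rf cs c.1 * x)) c with h | h
    · exact h
    · exfalso
      have h1 := I1.i4 c (by omega)
      have h2 := h1.not_up b1
      rw [rf_cancel hc.1.1] at h2
      have := hct.2
      omega
  refine ⟨i2, ?_, ?_, ?_⟩
  · have := I1.i3
    have := hct.2
    rw [hphi, hl]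
    omega
  · intro g
    constructor
    · intro h
      rw [hphi] at h
      have h1 := h.simple' c
      rw [(csA cs u).simple_mul_simple_cancel_left] at h1
      rcases h1 with h1 | h1
      · obtain ⟨y, hy1, hy2, hy3⟩ := (I1.i5 g).mp h1
        exact ⟨y, hy1, hy2.trans b2, hy3⟩
      · obtain ⟨y, hy1, hy2, hy3⟩ := (I1.i5 _).mp h1
        have hyx := hy2.trans b2
        have hyne : y ≠ x := by
          rintro rfl
          have h3 := hy2.length_le
          have := hct.2
          omega
        refine ⟨rf cs c.1 * y, hc.lo hy1 hyx, hc.hi hy1 hyx, ?_⟩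
        rcases hc.cov_cases hy1 hyx with h2 | h2
        · by_cases hcy : rf cs c.1 * y = x
          · have : y = rf cs c.1 * x := by rw [← hcy, rf_cancel hc.1.1]
            rw [hcy, hphi, ← this, hy3, (csA cs u).simple_mul_simple_cancel_left]
          · have I2 := hinv _ (hc.lo hy1 hyx) (hc.hi hy1 hyx) hcy
            have L2 := hc.restrict (hc.lo hy1 hyx) (hc.hi hy1 hyx)
              (by rw [rf_cancel hc.1.1]; have := h2.2; omega)
            rw [I2.i2 c L2, rf_cancel hc.1.1, hy3, (csA cs u).simple_mul_simple_cancel_left]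
        · have I2 := hinv _ hy1 hyx hyne
          have L2 := hc.restrict hy1 hyx (by have := h2.2; omega)
          have h3 := I2.i2 c L2
          rw [hy3] at h3
          exact (mul_left_cancel h3).symm
    · rintro ⟨y, hy1, hy2, rfl⟩
      rcases hc.mem_cases hy1 hy2 with h1 | h1
      · have h2 := (I1.i5 (phi cs u y)).mpr ⟨y, hy1, h1, rfl⟩
        rw [hphi]
        exact h2.trans (simple_step (by omega)).ble
      · have hcy1 := hc.lo hy1 hy2
        have hcy2 := hc.hi hy1 hy2
        have h2 := (I1.i5 (phi cs u (rf cs c.1 * y))).mpr ⟨_, hcy1, h1, rfl⟩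
        by_cases hyx : y = x
        · rw [hyx]
          exact Ble.refl _ _
        · rcases hc.cov_cases hy1 hy2 with h3 | h3
          · -- y < c y, both below rf c x
            have h4 := (I1.i5 (phi cs u y)).mpr ⟨y, hy1, h3.le.trans h1, rfl⟩
            rw [hphi]
            exact h4.trans (simple_step (by omega)).ble
          · have I2 := hinv _ hy1 hy2 hyx
            have L2 := hc.restrict hy1 hy2 (by have := h3.2; omega)
            rw [I2.i2 c L2, hphi]
            exact h2.lift_up (by omega)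
  · rw [hphi, map_mul, piA_simple, mul_assoc, I1.i6, rf_cancel hc.1.1]

end

end Pool.Agent.Zir
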