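import Pool.Agent.Zir.Phi

/-! # The induction step: descents of `φ x` -/

namespace Pool.Agent.Zir

set_option linter.unusedSimpArgs false
set_option linter.unusedVariables false
set_option linter.unusedSectionVars false

noncomputable section

open Classical

variable {B W : Type*} [Group W] {M : CoxeterMatrix B} [SL M] {cs : CoxeterSystem M W} {u : W}
  [RB cs]

/-- Induction step for the invariant, given (I1). -/
theorem Inv.step {x : W} (hux : Ble cs u x) (hne : x ≠ u)
    (hinv : ∀ y, Ble cs u y → Ble cs y x → y ≠ x → Inv cs u y)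
    (hex : ∃ c : At cs u, LM cs u x c.1) : Inv cs u x := by
  obtain ⟨i2, i3, i5, i6⟩ := inv_step hux hne hinv hex
  refine ⟨fun _ => hex, i2, i3, ?_, i5, i6⟩
  intro d hd
  -- facts for all `y ≤ x`
  have J3 : ∀ y, Ble cs u y → Ble cs y x →
      cs.length y = cs.length u + (csA cs u).length (phi cs u y) := by
    intro y h1 h2
    by_cases hy : y = x
    · rw [hy]; exact i3
    · exact (hinv y h1 h2 hy).i3
  have J5 : ∀ y, Ble cs u y → Ble cs y x →
      ∀ g, Ble (csA cs u) g (phi cs u y) ↔ ∃ z, Ble cs u z ∧ Ble cs z y ∧ phi cs u z = g := by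
    intro y h1 h2
    by_cases hy : y = x
    · rw [hy]; exact i5
    · exact (hinv y h1 h2 hy).i5
  have J6 : ∀ y, Ble cs u y → Ble cs y x → piA cs u (phi cs u y) * u = y := by
    intro y h1 h2
    by_cases hy : y = x
    · rw [hy]; exact i6
    · exact (hinv y h1 h2 hy).i6
  have key : ∀ y, Ble cs u y → Ble cs y x → Ble cs u (rf cs d.1 * y) ∧
      Ble cs (rf cs d.1 * y) x ∧
      phi cs u (rf cs d.1 * y) = (csA cs u).simple d * phi cs u y := by
    intro y h1 h2
    have h3 : Ble (csA cs u) (phi cs u y) (phi cs u x) := (i5 _).mpr ⟨y, h1, h2, rfl⟩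
    have h4 := h3.lift_le hd
    obtain ⟨z, hz1, hz2, hz3⟩ := (i5 _).mp h4
    have h5 : z = rf cs d.1 * y := by
      rw [← J6 z hz1 hz2, hz3, map_mul, piA_simple, mul_assoc, J6 y h1 h2]
    rw [← h5]
    exact ⟨hz1, hz2, hz3⟩
  refine LM.mk' d.2.1 (fun y h1 h2 => (key y h1 h2).1) (fun y h1 h2 => (key y h1 h2).2.1) ?_ ?_
  · intro y h1 h2
    obtain ⟨h3, h4, h5⟩ := key y h1 h2
    have h6 := J3 y h1 h2
    have h7 := J3 _ h3 h4
    rw [h5] at h7
    rcases (csA cs u).length_simple_mul (phi cs u y) d with h8 | h8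
    · left; omega
    · right; omega
  · intro p q h1 h2 h3 hp hq
    have hup := h1.trans h3.le
    have hpx := h3.le.trans h2
    obtain ⟨a1, a2, a3⟩ := key p h1 hpx
    obtain ⟨b1, b2, b3⟩ := key q hup h2
    have lp := J3 p h1 hpx
    have lq := J3 q hup h2
    have lp' := J3 _ a1 a2
    have lq' := J3 _ b1 b2
    rw [a3] at lp'
    rw [b3] at lq'
    have hcov : Cov (csA cs u) (phi cs u p) (phi cs u q) :=
      ⟨(J5 q hup h2 _).mpr ⟨p, h1, h3.le, rfl⟩, by have := h3.2; omega⟩
    rcases hcov.step.simple d with h4 | h4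
    · rw [← J6 q hup h2, h4, map_mul, piA_simple, mul_assoc, J6 p h1 hpx]
    · exfalso
      have h5 := h4.length_lt
      have h6 := hcov.2
      have h7 := (csA cs u).length_simple_mul (phi cs u p) d
      have h8 := (csA cs u).length_simple_mul (phi cs u q) d
      omega

end

end Pool.Agent.Zir
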