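import Pool.Agent.Zir.Geo

/-! # Roots and reflections of a simply laced Coxeter system -/

namespace Pool.Agent.Zir

set_option linter.unusedSimpArgs false
set_option linter.unusedVariables false
set_option linter.unusedSectionVars false

noncomputable section

variable {B W : Type*} [Group W] {M : CoxeterMatrix B} [SL M] (cs : CoxeterSystem M W)

/-- roots -/
def IsRoot (v : V B) : Prop := ∃ w i, v = rho cs w (e i)

/-- positive roots -/
def PR (v : V B) : Prop := IsRoot cs v ∧ 0 ≤ v

open Classical in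
/-- The reflection of a root. -/
def rf (v : V B) : W :=
  if h : IsRoot cs v then h.choose * cs.simple h.choose_spec.choose * h.choose⁻¹ else 1

variable {cs}

lemma IsRoot.bil_self {v : V B} (h : IsRoot cs v) : bil M v v = 2 := by
  obtain ⟨w, i, rfl⟩ := h
  rw [bil_rho, bil_e_self]

lemma IsRoot.ne_zero {v : V B} (h : IsRoot cs v) : v ≠ 0 := by
  rintro rfl
  have := h.bil_self
  simp at this

lemma IsRoot.rho {v : V B} (h : IsRoot cs v) (w : W) : IsRoot cs (rho cs w v) := by
  obtain ⟨w', i, rfl⟩ := h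
  exact ⟨w * w', i, by rw [rho_mul]⟩

lemma IsRoot.neg {v : V B} (h : IsRoot cs v) : IsRoot cs (-v) := by
  obtain ⟨w, i, rfl⟩ := h
  exact ⟨w * cs.simple i, i, by rw [rho_mul, rho_e_self, map_neg]⟩

lemma isRoot_e (i : B) : IsRoot cs (e i) := ⟨1, i, by rw [rho_one]⟩

lemma e_nonneg (i : B) : (0 : V B) ≤ e i := Finsupp.single_nonneg.mpr (by norm_num)

lemma pr_e (i : B) : PR cs (e i) := ⟨isRoot_e i, e_nonneg i⟩

lemma IsRoot.dich {v : V B} (h : IsRoot cs v) : PR cs v ∨ PR cs (-v) := by
  obtain ⟨w, i, rfl⟩ := h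
  rcases cs.length_mul_simple w i with h1 | h1
  · left
    exact ⟨⟨w, i, rfl⟩, rho_nonneg cs (by omega)⟩
  · right
    refine ⟨IsRoot.neg ⟨w, i, rfl⟩, ?_⟩
    exact neg_nonneg.mpr (rho_nonpos cs (by omega))

lemma PR.not_neg {v : V B} (h : PR cs v) : ¬ PR cs (-v) := by
  intro h'
  have h1 : v ≤ 0 := neg_nonneg.mp h'.2
  exact h.1.ne_zero (le_antisymm h1 h.2)

lemma PR.root {v : V B} (h : PR cs v) : IsRoot cs v := h.1

lemma PR.bil_self {v : V B} (h : PR cs v) : bil M v v = 2 := h.1.bil_self

lemma rho_conj_apply {v : V B} (w : W) (i : B) (h : v = rho cs w (e i)) (x : V B) :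
    rho cs (w * cs.simple i * w⁻¹) x = x - bil M x v • v := by
  subst h
  rw [rho_mul, rho_mul, rho_simple, sig_apply, map_sub, map_smul, rho_rho_inv]
  congr 2
  rw [← bil_rho cs w, rho_rho_inv]

variable (cs) in
lemma rho_faithful {w : W} (h : ∀ v, rho cs w v = v) : w = 1 := by
  by_contra hw
  obtain ⟨i, hi⟩ := cs.exists_rightDescent_of_ne_one hw
  have h1 := rho_nonpos cs (w := w) (i := i) hi
  rw [h] at h1
  exact (isRoot_e (cs := cs) i).ne_zero (le_antisymm h1 (e_nonneg i))

lemma rf_spec {v : V B} (h : IsRoot cs v) : ∃ w i, v = rho cs w (e i) ∧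
    rf cs v = w * cs.simple i * w⁻¹ := by
  refine ⟨h.choose, h.choose_spec.choose, h.choose_spec.choose_spec, ?_⟩
  rw [rf, dif_pos h]

lemma rho_rf {v : V B} (h : IsRoot cs v) (x : V B) :
    rho cs (rf cs v) x = x - bil M x v • v := by
  obtain ⟨w, i, h1, h2⟩ := rf_spec h
  rw [h2]
  exact rho_conj_apply w i h1 x

lemma rho_eq_of {w w' : W} (h : ∀ v, rho cs w v = rho cs w' v) : w = w' := by
  have : w'⁻¹ * w = 1 := by
    refine rho_faithful cs fun v => ?_
    rw [rho_mul, h, rho_inv_rho]
  rw [inv_mul_eq_one] at this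
  exact this.symm

lemma rf_eq {v : V B} {w : W} {i : B} (h : v = rho cs w (e i)) :
    rf cs v = w * cs.simple i * w⁻¹ := by
  refine rho_eq_of (cs := cs) fun x => ?_
  rw [rho_rf ⟨w, i, h⟩, rho_conj_apply w i h]

lemma rf_e (i : B) : rf cs (e i) = cs.simple i := by
  rw [rf_eq (w := 1) (i := i) (by rw [rho_one])]
  simp

lemma rf_neg {v : V B} (h : IsRoot cs v) : rf cs (-v) = rf cs v := by
  refine rho_eq_of (cs := cs) fun x => ?_
  rw [rho_rf h.neg, rho_rf h, map_neg]
  module

lemma rf_conj {v : V B} (h : IsRoot cs v) (w : W) :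
    rf cs (rho cs w v) = w * rf cs v * w⁻¹ := by
  obtain ⟨w', i, h1, h2⟩ := rf_spec h
  rw [h2, rf_eq (w := w * w') (i := i) (by rw [rho_mul, h1])]
  group

lemma rf_isReflection {v : V B} (h : IsRoot cs v) : cs.IsReflection (rf cs v) := by
  obtain ⟨w, i, h1, h2⟩ := rf_spec h
  exact ⟨w, i, h2⟩

lemma rf_mul_self {v : V B} (h : IsRoot cs v) : rf cs v * rf cs v = 1 :=
  (rf_isReflection h).mul_self

lemma rf_inv {v : V B} (h : IsRoot cs v) : (rf cs v)⁻¹ = rf cs v := (rf_isReflection h).inv

lemma rf_cancel {v : V B} (h : IsRoot cs v) (x : W) : rf cs v * (rf cs v * x) = x := by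
  rw [← mul_assoc, rf_mul_self h, one_mul]

lemma rho_rf_self {v : V B} (h : IsRoot cs v) : rho cs (rf cs v) v = -v := by
  rw [rho_rf h, h.bil_self]; module

lemma exists_pr_of_reflection {t : W} (h : cs.IsReflection t) : ∃ v, PR cs v ∧ rf cs v = t := by
  obtain ⟨w, i, rfl⟩ := h
  have hr : IsRoot cs (rho cs w (e i)) := ⟨w, i, rfl⟩
  rcases hr.dich with h | h
  · exact ⟨_, h, rf_eq rfl⟩
  · exact ⟨_, h, by rw [rf_neg hr]; exact rf_eq rfl⟩

/-- two roots with pairing `±2` are equal up to sign -/
lemma eq_of_two_smul {v v' : V B} (h : IsRoot cs v) (h' : IsRoot cs v') {a b : ℤ} (hb : a ≠ 0)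
    (he : a • v = b • v') : v = v' ∨ v = -v' := by
  have h1 : a * a = b * b := by
    have h2 : bil M (a • v) (a • v) = bil M (b • v') (b • v') := by rw [he]
    simp only [map_smul, LinearMap.smul_apply, smul_eq_mul, h.bil_self, h'.bil_self] at h2
    linarith
  rcases mul_self_eq_mul_self_iff.mp h1 with h3 | h3
  · left
    rw [h3] at he
    rw [h3] at hb
    exact smul_right_injective _ hb he
  · right
    have : b ≠ 0 := by rintro rfl; exact hb (by simpa using h3)
    have h4 : b • (-v) = b • v' := by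
      rw [← he, h3]; module
    have h5 := smul_right_injective _ this h4
    rw [← h5, neg_neg]

lemma rf_inj {v v' : V B} (h : PR cs v) (h' : PR cs v') (he : rf cs v = rf cs v') : v = v' := by
  have h1 : rho cs (rf cs v) v = rho cs (rf cs v') v := by rw [he]
  rw [rho_rf_self h.1, rho_rf h'.1] at h1
  have h2 : (2 : ℤ) • v = (bil M v v') • v' := by
    have : v - (bil M v v') • v' + v = 0 := by rw [← h1]; module
    have h3 : (2 : ℤ) • v - (bil M v v') • v' = 0 := by rw [← this]; module
    exact sub_eq_zero.mp h3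
  rcases eq_of_two_smul h.1 h'.1 (by norm_num) h2 with h3 | h3
  · exact h3
  · exfalso
    have h4 : v' = -v := by rw [h3, neg_neg]
    rw [h4] at h'
    exact h.not_neg h'

/-- `s_i` permutes the positive roots other than `α_i`. -/
lemma pr_simple {v : V B} (h : PR cs v) {i : B} (hi : v ≠ e i) :
    PR cs (rho cs (cs.simple i) v) := by
  rcases (h.1.rho (cs.simple i)).dich with h1 | h1
  · exact h1
  · exfalso
    -- v has a positive coefficient at some j ≠ i
    have hex : ∃ j, j ≠ i ∧ 0 < v j := by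
      by_contra hcon
      push Not at hcon
      have h2 : v = (v i) • e i := by
        refine Finsupp.ext fun j => ?_
        by_cases hj : j = i
        · subst hj; simp [e]
        · have h3 := hcon j hj
          have h4 : 0 ≤ v j := h.2 j
          have h5 : v j = 0 := le_antisymm h3 h4
          rw [h5]
          simp [e, Finsupp.single_apply, Ne.symm hj]
      have h3 : (1 : ℤ) • v = (v i) • e i := by rw [one_smul]; exact h2
      rcases eq_of_two_smul h.1 (isRoot_e (cs := cs) i) (by norm_num) h3 with h4 | h4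
      · exact hi h4
      · have : PR cs (-v) := by rw [h4, neg_neg]; exact pr_e i
        exact h.not_neg this
    obtain ⟨j, hj, hpos⟩ := hex
    have h2 : 0 ≤ (-(rho cs (cs.simple i) v)) j := h1.2 j
    rw [rho_simple, sig_apply] at h2
    simp [e, Finsupp.single_apply, Ne.symm hj] at h2
    omega

lemma length_lt_imp (n : ℕ) : ∀ x : W, cs.length x = n → ∀ v, PR cs v →
    cs.length x < cs.length (rf cs v * x) → 0 ≤ rho cs x⁻¹ v := by
  induction n with
  | zero =>
    intro x hx v hv _
    rw [cs.length_eq_zero_iff] at hx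
    subst hx
    rw [inv_one, rho_one]
    exact hv.2
  | succ n ih =>
    intro x hx v hv hlt
    have hx1 : x ≠ 1 := by
      rintro rfl
      simp at hx
    obtain ⟨j, hj⟩ := cs.exists_rightDescent_of_ne_one hx1
    have hl1 : cs.length (x * cs.simple j) + 1 = cs.length x := by
      have hj' : cs.length (x * cs.simple j) < cs.length x := hj
      rcases cs.length_mul_simple x j with h | h <;> omega
    obtain ⟨x1, hx1d⟩ : ∃ x1, x1 = x * cs.simple j := ⟨_, rfl⟩
    rw [← hx1d] at hl1
    have hxe : x = x1 * cs.simple j := by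
      rw [hx1d, mul_assoc, cs.simple_mul_simple_self, mul_one]
    have h1 : cs.length x1 < cs.length (rf cs v * x1) := by
      have h2 : rf cs v * x = rf cs v * x1 * cs.simple j := by rw [hxe, mul_assoc]
      have h3 := cs.length_mul_simple (rf cs v * x1) j
      rw [← h2] at h3
      omega
    have h2 := ih x1 (by omega) v hv h1
    have h3 : PR cs (rho cs x1⁻¹ v) := ⟨hv.1.rho _, h2⟩
    by_cases h4 : rho cs x1⁻¹ v = e j
    · exfalso
      have h5 : v = rho cs x1 (e j) := by rw [← h4, rho_rho_inv]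
      have h6 : rf cs v * x = x1 := by
        rw [rf_eq h5, hxe]
        simp [mul_assoc]
      rw [h6] at hlt
      omega
    · have h5 := pr_simple h3 h4
      rw [hxe, mul_inv_rev, cs.inv_simple, rho_mul]
      exact h5.2

/-- the fundamental sign criterion -/
theorem length_lt_iff {v : V B} (hv : PR cs v) (x : W) :
    cs.length x < cs.length (rf cs v * x) ↔ PR cs (rho cs x⁻¹ v) := by
  constructor
  · intro h
    exact ⟨hv.1.rho _, length_lt_imp _ x rfl v hv h⟩
  · intro h
    by_contra hcon
    have h1 : cs.length (rf cs v * x) ≠ cs.length x :=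
      (rf_isReflection hv.1).length_mul_right_ne x
    have h2 : cs.length (rf cs v * x) < cs.length (rf cs v * (rf cs v * x)) := by
      rw [rf_cancel hv.1]
      omega
    have h3 := length_lt_imp _ (rf cs v * x) rfl v hv h2
    rw [mul_inv_rev, rho_mul, rf_inv hv.1, rho_rf_self hv.1, map_neg] at h3
    exact h.not_neg ⟨h.1.neg, h3⟩

theorem length_gt_iff {v : V B} (hv : PR cs v) (x : W) :
    cs.length (rf cs v * x) < cs.length x ↔ PR cs (-(rho cs x⁻¹ v)) := by
  have h1 : cs.length (rf cs v * x) ≠ cs.length x :=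
      (rf_isReflection hv.1).length_mul_right_ne x
  have h2 := length_lt_iff hv x
  constructor
  · intro h
    rcases (hv.1.rho x⁻¹).dich with h3 | h3
    · have := h2.mpr h3; omega
    · exact h3
  · intro h
    by_contra hcon
    have h3 := h2.mp (by omega)
    exact h3.not_neg h

lemma PR.ne_neg {v v' : V B} (h : PR cs v) (h' : PR cs v') : v ≠ -v' := by
  rintro rfl
  exact h'.not_neg h

/-- if `v` and `w v` are positive roots then `rf (w v) = w rf(v) w⁻¹`; sign free version. -/
lemma exists_pr_rho {v : V B} (h : IsRoot cs v) (w : W) :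
    ∃ v', PR cs v' ∧ (v' = rho cs w v ∨ v' = -(rho cs w v)) ∧ rf cs v' = w * rf cs v * w⁻¹ := by
  rcases (h.rho w).dich with h1 | h1
  · exact ⟨_, h1, Or.inl rfl, rf_conj h w⟩
  · exact ⟨_, h1, Or.inr rfl, by rw [rf_neg (h.rho w)]; exact rf_conj h w⟩

end

end Pool.Agent.Zir
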