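import Pool.Agent.Zir.Fin
import Pool.Agent.Zir.Ade

/-! # The types A, D, E: the root bound without any finiteness assumption -/

namespace Pool.Agent.Zir

set_option linter.unusedSimpArgs false
set_option linter.unusedVariables false
set_option linter.unusedSectionVars false

noncomputable section

variable {B W : Type*} [Group W] {M : CoxeterMatrix B}

/-- A lattice embedding of the form (up to a positive factor `N`) into a Euclidean lattice. -/
structure Emb (M : CoxeterMatrix B) (κ : Type*) [Fintype κ] (N : ℤ) where
  x : V B →ₗ[ℤ] (κ → ℤ)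
  gram : ∀ i j, ∑ k, x (e i) k * x (e j) k = N * cart M i j
  inj : ∀ v, x v = 0 → v = 0

lemma Emb.form {κ : Type*} [Fintype κ] {N : ℤ} (E : Emb M κ N) (v w : V B) :
    ∑ k, E.x v k * E.x w k = N * bil M v w := by
  induction v using Finsupp.induction_linear with
  | zero => simp
  | add v v' h h' =>
    simp only [map_add, Pi.add_apply, LinearMap.add_apply, add_mul, Finset.sum_add_distrib, h, h']
    ring
  | single i a =>
    have h1 : Finsupp.single i a = a • (e i : V B) := by simp [e]
    rw [h1]
    simp only [map_smul, Pi.smul_apply, LinearMap.smul_apply, smul_eq_mul]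
    induction w using Finsupp.induction_linear with
    | zero => simp
    | add w w' h h' =>
      simp only [map_add, Pi.add_apply, mul_add, Finset.sum_add_distrib, h, h']
    | single j b =>
      have h2 : Finsupp.single j b = b • (e j : V B) := by simp [e]
      rw [h2]
      simp only [map_smul, Pi.smul_apply, LinearMap.smul_apply, smul_eq_mul, bil_e_e]
      have h3 := E.gram i j
      calc ∑ k, a * E.x (e i) k * (b * E.x (e j) k)
          = a * b * ∑ k, E.x (e i) k * E.x (e j) k := by
            rw [Finset.mul_sum]; exact Finset.sum_congr rfl fun k _ => by ring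
        _ = _ := by rw [h3]; ring

theorem Emb.rb {κ : Type*} [Fintype κ] {N : ℤ} (E : Emb M κ N) (hN : 0 < N) [SL M]
    (cs : CoxeterSystem M W) : RB cs where
  bound v v' hv hv' h := by
    have h1 := E.form (v - v') (v - v')
    have h2 : bil M (v - v') (v - v') = 4 - 2 * bil M v v' := by
      simp only [map_sub, LinearMap.sub_apply, hv.bil_self, hv'.bil_self, bil_comm M v' v]
      ring
    rw [h2] at h1
    have h3 : ∑ k, E.x (v - v') k * E.x (v - v') k ≤ 0 := by
      rw [h1]
      nlinarith
    have h4 : ∀ k, E.x (v - v') k * E.x (v - v') k = 0 := by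
      intro k
      have h5 : ∀ k ∈ Finset.univ, 0 ≤ E.x (v - v') k * E.x (v - v') k := fun k _ =>
        mul_self_nonneg _
      have h6 := (Finset.sum_eq_zero_iff_of_nonneg h5).mp
        (le_antisymm h3 (Finset.sum_nonneg h5))
      exact h6 k (Finset.mem_univ k)
    have h7 : E.x (v - v') = 0 := by
      funext k
      exact mul_self_eq_zero.mp (h4 k)
    exact sub_eq_zero.mp (E.inj _ h7)

/-- transport along a relabelling -/
def Emb.reindex {B' : Type*} {κ : Type*} [Fintype κ] {N : ℤ} (E : Emb M κ N) (σ : B ≃ B') :
    Emb (M.reindex σ) κ N where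
  x := E.x ∘ₗ (Finsupp.domLCongr σ.symm).toLinearMap
  gram i j := by
    have h : ∀ i : B', (Finsupp.domLCongr σ.symm : (B' →₀ ℤ) ≃ₗ[ℤ] (B →₀ ℤ)) (e i) =
        e (σ.symm i) := by
      intro i
      simp [e]
    simp only [LinearMap.comp_apply, LinearEquiv.coe_coe, h]
    rw [E.gram]
    rfl
  inj v hv := by
    have h1 := E.inj _ hv
    exact (LinearEquiv.map_eq_zero_iff _).mp h1

end

end Pool.Agent.Zir
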